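import Mathlib
import Pool.Agent.H98.GP.D
import Pool.Agent.H14.GP.Defs
import Pool.Agent.H6.Away
import Pool.Agent.H6.NiceFT

/-!
# MP_103a5c_HF (HalfGaps), helper98's blocks: definitions

Theorem of helper84 and helper67: RH implies that for every `b > 1/2` a positive proportion of the normalised gaps of
the zeta zeros is at most `b`.  This folder: the deterministic part (strip inequality, window function, good `t`,
conclusion) and the moments of LONG prime sums (length `T^D`, any `D`).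
-/

open MeasureTheory Set Filter Topology
open scoped Real Interval ContDiff

namespace Pool.Agent.H98.HF

open Pool.Agent.H6 Pool.Agent.H98.GP

/-- The truncated exponential of `i π (z - 1/2)`. -/
noncomputable def Vn (n : ℕ) (z : ℂ) : ℂ := (1 + Complex.I * (π : ℂ) * (z - 1 / 2) / (n : ℂ)) ^ n

/-- Averaging kernels: continuous, even, nonnegative, rapidly decaying, band limited, of integral one. -/
structure Ker (s : ℝ) (κ : ℝ → ℝ) : Prop where
  cont : Continuous κ
  even : ∀ u, κ (-u) = κ u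
  nonneg : ∀ u, 0 ≤ κ u
  decay : ∀ n : ℕ, ∃ C, 0 ≤ C ∧ ∀ u, |κ u| ≤ C / (1 + u ^ 2) ^ n
  supp : ∀ ξ, s ≤ |ξ| → cosT κ ξ = 0
  one : ∫ u, κ u = 1

/-- The averaged window `κ * 1_[-δ/2, δ/2]`. -/
noncomputable def win (κ : ℝ → ℝ) (δ x : ℝ) : ℝ := ∫ y in (x - δ / 2)..(x + δ / 2), κ y

/-- `t` is good: no closed window of length `δ` (scale `2π/L`) centred within `Q` of `t` has more than one zero. -/
def Good {ι : Type*} (γ w : ι → ℝ) (δ Q L t : ℝ) : Prop :=
  ∀ x : ℝ, |x| ≤ Q → (∑' i, if |L * (t - γ i) / (2 * π) - x| ≤ δ / 2 then w i else 0) ≤ 1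

/-- Cosine sum over the primes up to `exp (s L)`. -/
noncomputable def CPs (s : ℝ) (G : ℝ → ℝ) (L t : ℝ) : ℝ :=
  ∑ p ∈ PS s L, G (Real.log p / L) * (p : ℝ) ^ (-(1 / 2) : ℝ) * Real.cos (t * Real.log p)

/-- Sine sum over the primes up to `exp (s L)`. -/
noncomputable def SPs (s : ℝ) (G : ℝ → ℝ) (L t : ℝ) : ℝ :=
  ∑ p ∈ PS s L, G (Real.log p / L) * (p : ℝ) ^ (-(1 / 2) : ℝ) * Real.sin (t * Real.log p)

end Pool.Agent.H98.HF
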