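import Mathlib
import Pool.Agent.H98.HF.D

/-!
# MP_103a5c_HF row Na: the pole term is negligible at height T, for every band

`PM φ L t = (2/L) ∫_0^∞ e^{v/2} cosT φ (v/L) cos (t v) dv` (H6/Away).  Here `φ = cosT χ`, `χ` Nice, vanishing for `|ξ| ≤ c` and for `|ξ| ≥ s`, so
`cosT φ = χ` (`Nice.inv`) and, with `v = L ξ`, `PM (cosT χ) L t = 2 ∫_0^∞ e^{L ξ/2} χ ξ cos (t L ξ) dξ`.
PROOF.  For smooth `f : ℝ → ℝ` with compact support in `(0, ∞)` and `τ ≠ 0`, integration by parts gives
`|∫ f cos (τ ξ)| ≤ |τ|^(-1) |∫ f' sin (τ ξ)|` and `|∫ f sin (τ ξ)| ≤ |τ|^(-1) |∫ f' cos (τ ξ)|`, so `|∫ f cos (τ ξ) dξ| ≤ |τ|^(-N) ∫ |f^(N)|`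
(induction over `N`, both cos and sin together, f replaced by its derivative; `integral_mul_deriv_eq_deriv_mul_of_integrable` or interval integrals over
a large interval where the boundary terms vanish).
With `f ξ = e^{L ξ/2} χ ξ`: by induction `f^(N) ξ = e^{L ξ/2} Σ_{i ≤ N} binom(N, i) (L/2)^(N-i) χ^(i) ξ` (or: the class of functions `e^{Lξ/2} h ξ` is closed
under derivative, `h ↦ h' + (L/2) h`; bound `|h_N| ≤ C_N (1 + L)^N` by induction where `C_N` bounds all derivatives of `χ` up to order `N`), and it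
vanishes outside `[c, s]`, so `∫ |f^(N)| ≤ s C_N (1 + L)^N e^{L s/2}`.  Since `L ≥ 1`, `τ = t L`, `t ≥ 1`:
`|PM| ≤ 2 s C_N (2L)^N e^{Ls/2} / (t L)^N = 2^(N+1) s C_N e^{Ls/2} / t^N`.
(`χ` restricted to `ξ > 0` extended by zero is smooth because `χ` vanishes near `0`; or integrate over `Ioi 0` with boundary terms `0` at `0`.)
-/

open MeasureTheory Set Filter Topology
open scoped Real Interval ContDiff

namespace Pool.Agent.H98.HF

open Pool.Agent.H6 Pool.Agent.H98.GP

/-- The class of amplitudes. -/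
def Na_P (s : ℝ) (h : ℝ → ℝ) : Prop :=
  ContDiff ℝ ∞ h ∧ h =ᶠ[𝓝 0] (fun _ => 0) ∧ ∀ ξ, s < ξ → h ξ = 0

lemma Na_P_deriv {s : ℝ} {h : ℝ → ℝ} (H : Na_P s h) : Na_P s (deriv h) := by
  obtain ⟨h1, h2, h3⟩ := H
  refine ⟨?_, ?_, ?_⟩
  · exact (contDiff_infty_iff_deriv.mp h1).2
  · have h4 := h2.deriv
    have h5 : deriv (fun _ : ℝ => (0 : ℝ)) = fun _ => 0 := by
      funext x; simp
    rw [h5] at h4
    exact h4
  · intro ξ hξ
    have h4 : h =ᶠ[𝓝 ξ] (fun _ => 0) := by
      filter_upwards [Ioi_mem_nhds hξ] with x hx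
      exact h3 x hx
    rw [h4.deriv_eq]
    simp

lemma Na_zero {s : ℝ} {h : ℝ → ℝ} (H : Na_P s h) : h 0 = 0 := H.2.1.self_of_nhds

lemma Na_s {s : ℝ} {h : ℝ → ℝ} (H : Na_P s h) : h s = 0 := by
  have hcl : IsClosed {x | h x = 0} := isClosed_eq H.1.continuous continuous_const
  have h1 : closure (Ioi s) ⊆ {x | h x = 0} := closure_minimal (fun x hx => H.2.2 x hx) hcl
  rw [closure_Ioi] at h1
  exact h1 self_mem_Ici

/-- The amplitude and its derivative. -/
lemma Na_hasDeriv {s : ℝ} {h : ℝ → ℝ} (H : Na_P s h) (L v : ℝ) :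
    HasDerivAt (fun v => Real.exp (v / 2) * h (v / L))
      (Real.exp (v / 2) * (h (v / L) / 2 + deriv h (v / L) / L)) v := by
  have h1 : HasDerivAt (fun v : ℝ => Real.exp (v / 2)) (Real.exp (v / 2) * (1 / 2)) v := by
    have := ((hasDerivAt_id v).div_const 2).exp
    simpa using this
  have hd : Differentiable ℝ h := H.1.differentiable (by simp)
  have h2 : HasDerivAt (fun v : ℝ => h (v / L)) (deriv h (v / L) * (1 / L)) v := by
    have h3 : HasDerivAt (fun v : ℝ => v / L) (1 / L) v := (hasDerivAt_id v).div_const L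
    exact HasDerivAt.comp v (hd (v / L)).hasDerivAt h3
  have h4 := h1.mul h2
  apply h4.congr_deriv
  ring

lemma Na_cont {s : ℝ} {h : ℝ → ℝ} (H : Na_P s h) (L : ℝ) :
    Continuous (fun v => Real.exp (v / 2) * (h (v / L) / 2 + deriv h (v / L) / L)) := by
  have h1 := H.1.continuous
  have h2 := (Na_P_deriv H).1.continuous
  have h3 : Continuous (fun v : ℝ => v / L) := continuous_id.div_const L
  have h4 := h1.comp h3
  have h5 := h2.comp h3
  exact (Real.continuous_exp.comp (continuous_id.div_const 2)).mul ((h4.div_const 2).add (h5.div_const L))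

lemma Na_ibp_cos {s : ℝ} {h : ℝ → ℝ} (H : Na_P s h) {L t : ℝ} (hL : 1 ≤ L) (ht : 1 ≤ t) :
    ∫ v in (0 : ℝ)..(s * L), Real.exp (v / 2) * (h (v / L) * Real.cos (t * v))
      = -(1 / t) * ∫ v in (0 : ℝ)..(s * L), Real.exp (v / 2) * (h (v / L) / 2 + deriv h (v / L) / L) * Real.sin (t * v) := by
  have ht0 : t ≠ 0 := by linarith
  have hL0 : L ≠ 0 := by linarith
  have hv : ∀ v, HasDerivAt (fun v => Real.sin (t * v) / t) (Real.cos (t * v)) v := by
    intro v
    have h1 : HasDerivAt (fun v => t * v) t v := by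
      simpa using (hasDerivAt_id v).const_mul t
    have h2 := (h1.sin).div_const t
    apply h2.congr_deriv
    field_simp
  have key := intervalIntegral.integral_mul_deriv_eq_deriv_mul (a := 0) (b := s * L)
    (u := fun v => Real.exp (v / 2) * h (v / L)) (v := fun v => Real.sin (t * v) / t)
    (u' := fun v => Real.exp (v / 2) * (h (v / L) / 2 + deriv h (v / L) / L)) (v' := fun v => Real.cos (t * v))
    (fun v _ => Na_hasDeriv H L v) (fun v _ => hv v)
    ((Na_cont H L).intervalIntegrable _ _) ((by fun_prop : Continuous fun v => Real.cos (t * v)).intervalIntegrable _ _)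
  have e1 : ∫ v in (0 : ℝ)..(s * L), Real.exp (v / 2) * (h (v / L) * Real.cos (t * v))
      = ∫ v in (0 : ℝ)..(s * L), Real.exp (v / 2) * h (v / L) * Real.cos (t * v) := by
    apply intervalIntegral.integral_congr
    intro v _
    simp only
    ring
  rw [e1, key, mul_div_cancel_right₀ s hL0, Na_s H, zero_div, zero_div, Na_zero H, ← intervalIntegral.integral_const_mul]
  rw [mul_zero, zero_mul, mul_zero, zero_mul, sub_zero, zero_sub, ← intervalIntegral.integral_neg]
  apply intervalIntegral.integral_congr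
  intro v _
  simp only
  field_simp

lemma Na_ibp_sin {s : ℝ} {h : ℝ → ℝ} (H : Na_P s h) {L t : ℝ} (hL : 1 ≤ L) (ht : 1 ≤ t) :
    ∫ v in (0 : ℝ)..(s * L), Real.exp (v / 2) * (h (v / L) * Real.sin (t * v))
      = (1 / t) * ∫ v in (0 : ℝ)..(s * L), Real.exp (v / 2) * (h (v / L) / 2 + deriv h (v / L) / L) * Real.cos (t * v) := by
  have ht0 : t ≠ 0 := by linarith
  have hL0 : L ≠ 0 := by linarith
  have hv : ∀ v, HasDerivAt (fun v => -Real.cos (t * v) / t) (Real.sin (t * v)) v := by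
    intro v
    have h1 : HasDerivAt (fun v => t * v) t v := by
      simpa using (hasDerivAt_id v).const_mul t
    have h2 := (h1.cos).neg.div_const t
    apply h2.congr_deriv
    field_simp
  have key := intervalIntegral.integral_mul_deriv_eq_deriv_mul (a := 0) (b := s * L)
    (u := fun v => Real.exp (v / 2) * h (v / L)) (v := fun v => -Real.cos (t * v) / t)
    (u' := fun v => Real.exp (v / 2) * (h (v / L) / 2 + deriv h (v / L) / L)) (v' := fun v => Real.sin (t * v))
    (fun v _ => Na_hasDeriv H L v) (fun v _ => hv v)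
    ((Na_cont H L).intervalIntegrable _ _) ((by fun_prop : Continuous fun v => Real.sin (t * v)).intervalIntegrable _ _)
  have e1 : ∫ v in (0 : ℝ)..(s * L), Real.exp (v / 2) * (h (v / L) * Real.sin (t * v))
      = ∫ v in (0 : ℝ)..(s * L), Real.exp (v / 2) * h (v / L) * Real.sin (t * v) := by
    apply intervalIntegral.integral_congr
    intro v _
    simp only
    ring
  rw [e1, key, mul_div_cancel_right₀ s hL0, Na_s H, zero_div, zero_div, Na_zero H, ← intervalIntegral.integral_const_mul]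
  rw [mul_zero, zero_mul, mul_zero, zero_mul, sub_zero, zero_sub, ← intervalIntegral.integral_neg]
  apply intervalIntegral.integral_congr
  intro v _
  simp only
  field_simp

lemma Na_split {s : ℝ} {h : ℝ → ℝ} (H : Na_P s h) (L : ℝ) {k : ℝ → ℝ} (hk : Continuous k) :
    ∫ v in (0 : ℝ)..(s * L), Real.exp (v / 2) * (h (v / L) / 2 + deriv h (v / L) / L) * k v
      = (1 / 2) * (∫ v in (0 : ℝ)..(s * L), Real.exp (v / 2) * (h (v / L) * k v))
        + (1 / L) * ∫ v in (0 : ℝ)..(s * L), Real.exp (v / 2) * (deriv h (v / L) * k v) := by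
  have h1 := H.1.continuous
  have h2 := (Na_P_deriv H).1.continuous
  have h3 : Continuous (fun v : ℝ => v / L) := continuous_id.div_const L
  have h4 := h1.comp h3
  have h5 := h2.comp h3
  have he : Continuous (fun v : ℝ => Real.exp (v / 2)) := Real.continuous_exp.comp (continuous_id.div_const 2)
  have i1 : Continuous (fun v : ℝ => Real.exp (v / 2) * (h (v / L) * k v)) := he.mul (h4.mul hk)
  have i2 : Continuous (fun v : ℝ => Real.exp (v / 2) * (deriv h (v / L) * k v)) := he.mul (h5.mul hk)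
  rw [← intervalIntegral.integral_const_mul, ← intervalIntegral.integral_const_mul,
    ← intervalIntegral.integral_add ((i1.const_mul _).intervalIntegrable _ _) ((i2.const_mul _).intervalIntegrable _ _)]
  apply intervalIntegral.integral_congr
  intro v _
  simp only
  ring

lemma Na_base {s : ℝ} (hs : 0 < s) {h : ℝ → ℝ} (H : Na_P s h) :
    ∃ C : ℝ, 0 ≤ C ∧ ∀ L : ℝ, 1 ≤ L → ∀ k : ℝ → ℝ, (∀ v, |k v| ≤ 1) →
      |∫ v in (0 : ℝ)..(s * L), Real.exp (v / 2) * (h (v / L) * k v)| ≤ C * Real.exp (s * L / 2) := by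
  obtain ⟨B, hB⟩ := (isCompact_Icc (a := (0 : ℝ)) (b := s)).exists_bound_of_continuousOn H.1.continuous.continuousOn
  have hB0 : 0 ≤ B := (norm_nonneg _).trans (hB 0 ⟨le_refl _, hs.le⟩)
  refine ⟨2 * B, by positivity, fun L hL k hk => ?_⟩
  have hL0 : 0 < L := by linarith
  have hder : ∀ v : ℝ, HasDerivAt (fun v : ℝ => 2 * B * Real.exp (v / 2)) (B * Real.exp (v / 2)) v := by
    intro v
    have h1 := (((hasDerivAt_id v).div_const 2).exp).const_mul (2 * B)
    apply h1.congr_deriv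
    simp only [id]
    ring
  have hc : Continuous (fun v : ℝ => B * Real.exp (v / 2)) := by fun_prop
  have h1 := intervalIntegral.norm_integral_le_of_norm_le (μ := volume) (a := 0) (b := s * L) (by positivity)
    (f := fun v => Real.exp (v / 2) * (h (v / L) * k v)) (g := fun v => B * Real.exp (v / 2))
    (by
      apply ae_of_all
      intro v hv
      rw [norm_mul, norm_mul, Real.norm_eq_abs, abs_of_pos (Real.exp_pos _)]
      have h2 : ‖h (v / L)‖ ≤ B := by
        apply hB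
        refine ⟨div_nonneg hv.1.le hL0.le, ?_⟩
        rw [div_le_iff₀ hL0]
        exact hv.2
      have h3 : ‖k v‖ ≤ 1 := hk v
      have h4 : ‖h (v / L)‖ * ‖k v‖ ≤ B := by
        calc ‖h (v / L)‖ * ‖k v‖ ≤ B * 1 := mul_le_mul h2 h3 (norm_nonneg _) hB0
          _ = B := mul_one B
      calc Real.exp (v / 2) * (‖h (v / L)‖ * ‖k v‖) ≤ Real.exp (v / 2) * B :=
            mul_le_mul_of_nonneg_left h4 (Real.exp_pos _).le
        _ = _ := mul_comm _ _)
    (hc.intervalIntegrable _ _)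
  rw [intervalIntegral.integral_eq_sub_of_hasDerivAt (fun v _ => hder v) (hc.intervalIntegrable _ _)] at h1
  rw [Real.norm_eq_abs] at h1
  refine h1.trans ?_
  have h5 : 0 ≤ 2 * B * Real.exp (0 / 2) := by positivity
  linarith

lemma Na_main {s : ℝ} (hs : 0 < s) (N : ℕ) : ∀ h : ℝ → ℝ, Na_P s h →
    ∃ C : ℝ, 0 ≤ C ∧ ∀ L : ℝ, 1 ≤ L → ∀ t : ℝ, 1 ≤ t →
      |∫ v in (0 : ℝ)..(s * L), Real.exp (v / 2) * (h (v / L) * Real.cos (t * v))| ≤ C * Real.exp (s * L / 2) / t ^ N ∧
      |∫ v in (0 : ℝ)..(s * L), Real.exp (v / 2) * (h (v / L) * Real.sin (t * v))| ≤ C * Real.exp (s * L / 2) / t ^ N := by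
  induction N with
  | zero =>
    intro h H
    obtain ⟨C, hC0, hC⟩ := Na_base hs H
    refine ⟨C, hC0, fun L hL t ht => ⟨?_, ?_⟩⟩
    · rw [pow_zero, div_one]
      exact hC L hL _ (fun v => Real.abs_cos_le_one _)
    · rw [pow_zero, div_one]
      exact hC L hL _ (fun v => Real.abs_sin_le_one _)
  | succ N ih =>
    intro h H
    obtain ⟨C1, hC10, hC1⟩ := ih h H
    obtain ⟨C2, hC20, hC2⟩ := ih (deriv h) (Na_P_deriv H)
    refine ⟨C1 + C2, by positivity, fun L hL t ht => ?_⟩
    have ht0 : 0 < t := by linarith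
    have hL0 : 0 < L := by linarith
    obtain ⟨a1, a2⟩ := hC1 L hL t ht
    obtain ⟨b1, b2⟩ := hC2 L hL t ht
    have hfin : ∀ x y : ℝ, |x| ≤ C1 * Real.exp (s * L / 2) / t ^ N → |y| ≤ C2 * Real.exp (s * L / 2) / t ^ N →
        (1 / t) * |(1 / 2) * x + (1 / L) * y| ≤ (C1 + C2) * Real.exp (s * L / 2) / t ^ (N + 1) := by
      intro x y hx hy
      have h1 : |(1 / 2) * x + (1 / L) * y| ≤ |x| + |y| := by
        refine (abs_add_le _ _).trans ?_
        rw [abs_mul, abs_mul, abs_of_pos (by norm_num : (0 : ℝ) < 1 / 2), abs_of_pos (by positivity : (0 : ℝ) < 1 / L)]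
        have h2 : 1 / L ≤ 1 := by
          rw [div_le_iff₀ hL0]; linarith
        have h3 := mul_le_mul_of_nonneg_right h2 (abs_nonneg y)
        have h4 := abs_nonneg x
        linarith
      have h5 : |(1 / 2) * x + (1 / L) * y| ≤ (C1 + C2) * Real.exp (s * L / 2) / t ^ N := by
        refine h1.trans ((add_le_add hx hy).trans (le_of_eq ?_))
        ring
      calc (1 / t) * |(1 / 2) * x + (1 / L) * y| ≤ (1 / t) * ((C1 + C2) * Real.exp (s * L / 2) / t ^ N) :=
            mul_le_mul_of_nonneg_left h5 (by positivity)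
        _ = _ := by
            rw [pow_succ]
            field_simp
    constructor
    · rw [Na_ibp_cos H hL ht, Na_split H L (k := fun v => Real.sin (t * v)) (by fun_prop), abs_mul, abs_neg,
        abs_of_pos (by positivity : (0 : ℝ) < 1 / t)]
      exact hfin _ _ a2 b2
    · rw [Na_ibp_sin H hL ht, Na_split H L (k := fun v => Real.cos (t * v)) (by fun_prop), abs_mul,
        abs_of_pos (by positivity : (0 : ℝ) < 1 / t)]
      exact hfin _ _ a1 b1

theorem PM_le {χ : ℝ → ℝ} (hχ : Nice χ) {c s : ℝ} (hc : 0 < c) (hs : 0 < s) (hz : ∀ ξ, |ξ| ≤ c → χ ξ = 0)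
    (hz' : ∀ ξ, s ≤ |ξ| → χ ξ = 0) (N : ℕ) :
    ∃ C : ℝ, 0 ≤ C ∧ ∀ L : ℝ, 1 ≤ L → ∀ t : ℝ, 1 ≤ t → |TestFn.PM (cosT χ) L t| ≤ C * Real.exp (s * L / 2) / t ^ N := by
  have H : Na_P s χ := by
    refine ⟨hχ.smooth, ?_, ?_⟩
    · filter_upwards [Icc_mem_nhds (a := -c) (b := c) (x := 0) (by linarith) hc] with x hx
      exact hz x (abs_le.mpr hx)
    · intro ξ hξ
      apply hz'
      exact hξ.le.trans (le_abs_self ξ)
  obtain ⟨C, hC0, hC⟩ := Na_main hs N χ H
  refine ⟨2 * C, by positivity, fun L hL t ht => ?_⟩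
  have hL0 : 0 < L := by linarith
  have ht0 : 0 < t := by linarith
  have e1 : TestFn.PM (cosT χ) L t
      = (2 / L) * ∫ v in (0 : ℝ)..(s * L), Real.exp (v / 2) * (χ (v / L) * Real.cos (t * v)) := by
    unfold TestFn.PM
    congr 1
    rw [intervalIntegral.integral_of_le (by positivity)]
    simp_rw [hχ.inv]
    apply setIntegral_eq_of_subset_of_forall_sdiff_eq_zero measurableSet_Ioi Ioc_subset_Ioi_self
    intro v hv
    have hv1 : 0 < v := hv.1
    have hv2 : s * L < v := by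
      by_contra h
      exact hv.2 ⟨hv1, not_lt.mp h⟩
    have hv3 : s < v / L := by
      rw [lt_div_iff₀ hL0]
      exact hv2
    rw [H.2.2 _ hv3, zero_mul, mul_zero]
  rw [e1, abs_mul, abs_of_pos (by positivity : (0 : ℝ) < 2 / L)]
  have h2 : 2 / L ≤ 2 := by
    rw [div_le_iff₀ hL0]; linarith
  calc 2 / L * |∫ v in (0 : ℝ)..(s * L), Real.exp (v / 2) * (χ (v / L) * Real.cos (t * v))|
      ≤ 2 * (C * Real.exp (s * L / 2) / t ^ N) :=
        mul_le_mul h2 (hC L hL t ht).1 (abs_nonneg _) (by norm_num)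
    _ = _ := by ring

end Pool.Agent.H98.HF
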