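import Mathlib
import Pool.Agent.H98.HF.D
import Pool.Agent.H98.HF.Na
import Pool.Agent.H98.GP.Me
import Pool.Agent.H98.GP.Mg
import Pool.Agent.H6.Final

/-!
# MP_103a5c_HF row Nb: the explicit formula uniformly on [cT, CT], for test functions of ANY band

PROOF of (1).  Let `ρ` be a nice plateau (`exists_nice_plateau` with `s = 1/8`, `s' = 1/4`): `ρ = 1` for `|x| ≤ 1/8`, `0` for `|x| ≥ 1/4`.
`χ = χ1 + χ2`, `χ1 = χ ρ` (Nice, vanishing for `|ξ| ≥ 1/4`), `χ2 = χ - χ ρ` (Nice, vanishing for `|ξ| ≤ 1/8` and for `|ξ| ≥ s`).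
`cosT χ = cosT χ1 + cosT χ2` (`cosT_add`, `Nice.integrable`).  `SS` is additive (`Inputs.SS_add` for `log T ≥ 2π`), `WW` is additive
(`WW_eq_sum` for a common band, or termwise from the definition: both tsums are finite sums), `χ 0 = χ1 0`, `χ2 0 = 0`.
 * `χ1`: `delta_unif` (row Me of H98/GP) with band `1/4` (`(hχ1.reg h).test`, `cosT (cosT χ1) 0 = χ1 0`) gives `≤ ε/2`.
 * `χ2`: `TestFn.exists_away` (H6/Away) with `hz`: `|SS - (PM - WW)| ≤ C e^{-cL/2} → 0`, and `PM_le` with `N > s/2 + 1`: for `t ≥ cT ≥ 1`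
   `|PM| ≤ C' T^{s/2} / (cT)^N → 0` (`e^{s L/2} = T^{s/2}`).
PROOF of (2).  As in row Mg (3): `|WW| ≤ |SS| + |χ 0| + 1` on `[cT, CT]`, `mom_SS` and `Mom.of_le`; `WW` is continuous (`continuous_WW`).
For (1) the Poisson input with the explicit archimedean term is a hypothesis; (3) says it holds for zeta: see how `core` is applied in H6/Final
(`inputs`, `zetaFacts`, the theorem that provides `PoissonInput gZ wZ a (PC.arch a)`).
-/

open MeasureTheory Set Filter Topology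
open scoped Real Interval ContDiff

namespace Pool.Agent.H98.HF

open Pool.Agent Pool.Agent.H6 Pool.Agent.H98.GP

/-- A nice function is the sum of a nice function of small support and one vanishing near the origin. -/
theorem Nb_split {χ : ℝ → ℝ} (hχ : Nice χ) : ∃ (χ1 χ2 : ℝ → ℝ) (s : ℝ), 1 / 4 ≤ s ∧ Nice χ1 ∧
    Nice χ2 ∧ (∀ x, χ x = χ1 x + χ2 x) ∧ (∀ x, 1 / 4 ≤ |x| → χ1 x = 0) ∧
    (∀ x, |x| ≤ 1 / 8 → χ2 x = 0) ∧ (∀ x, s ≤ |x| → χ x = 0) ∧ (∀ x, s ≤ |x| → χ2 x = 0) := by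
  obtain ⟨ρ, nρ, zρ, oρ, -, -⟩ := exists_nice_plateau (s := 1 / 8) (s' := 1 / 4) (by norm_num)
    (by norm_num)
  obtain ⟨s, hs0, hs⟩ := hχ.supp
  refine ⟨fun x => χ x * ρ x, fun x => χ x - χ x * ρ x, max s (1 / 4), le_max_right _ _,
    hχ.mul nρ.smooth nρ.even, hχ.sub (hχ.mul nρ.smooth nρ.even), fun x => by ring, fun x hx => ?_,
    fun x hx => ?_, fun x hx => hs x ((le_max_left _ _).trans hx), fun x hx => ?_⟩
  · show χ x * ρ x = 0
    rw [zρ x hx, mul_zero]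
  · show χ x - χ x * ρ x = 0
    rw [oρ x hx, mul_one, sub_self]
  · show χ x - χ x * ρ x = 0
    rw [hs x ((le_max_left _ _).trans hx), zero_mul, sub_self]

/-- The prime sum is additive. -/
theorem Nb_WW_add {χ χ1 χ2 : ℝ → ℝ} (h : Nice χ) (h1 : Nice χ1) (h2 : Nice χ2)
    (he : ∀ x, χ x = χ1 x + χ2 x) {s : ℝ} (hs : ∀ x, s ≤ |x| → χ x = 0)
    (hs1 : ∀ x, s ≤ |x| → χ1 x = 0) (hs2 : ∀ x, s ≤ |x| → χ2 x = 0) {L : ℝ} (hL : 0 < L) (t : ℝ) :
    WW (cosT χ) L t = WW (cosT χ1) L t + WW (cosT χ2) L t := by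
  rw [WW_eq_sum (h.reg hs).test hL, WW_eq_sum (h1.reg hs1).test hL,
    WW_eq_sum (h2.reg hs2).test hL, ← mul_add, ← Finset.sum_add_distrib]
  refine congrArg (fun x => 2 / L * x) (Finset.sum_congr rfl fun n _ => ?_)
  unfold bb
  rw [h.inv, h1.inv, h2.inv, he]
  ring

theorem Nb_tendsto (a : ℝ) {δ : ℝ} (hδ : 0 < δ) :
    Tendsto (fun T => a * Real.exp (-(δ * Real.log T / 2))) atTop (𝓝 0) := by
  have h1 : Tendsto (fun T : ℝ => δ * Real.log T / 2) atTop atTop :=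
    (Real.tendsto_log_atTop.const_mul_atTop hδ).atTop_div_const (by norm_num)
  have h2 : Tendsto (fun T => Real.exp (-(δ * Real.log T / 2))) atTop (𝓝 0) :=
    Real.tendsto_exp_neg_atTop_nhds_zero.comp h1
  have h3 := h2.const_mul a
  simpa using h3

/-- The pole term is small at height `T`. -/
theorem Nb_pole {C c s T t : ℝ} {N : ℕ} (hC : 0 ≤ C) (hc : 0 < c) (hN : s / 2 + 1 ≤ N) (hT : 1 ≤ T)
    (ht : c * T ≤ t) : C * Real.exp (s * Real.log T / 2) / t ^ N ≤ C / c ^ N * (1 / T) := by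
  have hT0 : 0 < T := by linarith
  have hL : 0 ≤ Real.log T := Real.log_nonneg hT
  have hcT : 0 < c * T := mul_pos hc hT0
  have ht0 : 0 < t := lt_of_lt_of_le hcT ht
  have h1 : Real.exp (s * Real.log T / 2) * T ≤ T ^ N := by
    have e1 : Real.exp (s * Real.log T / 2) * T = Real.exp (s * Real.log T / 2 + Real.log T) := by
      rw [Real.exp_add, Real.exp_log hT0]
    have e2 : T ^ N = Real.exp (N * Real.log T) := by
      rw [mul_comm, Real.exp_mul, Real.exp_log hT0, Real.rpow_natCast]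
    rw [e1, e2]
    apply Real.exp_le_exp.2
    nlinarith
  have h2 : (c * T) ^ N ≤ t ^ N := pow_le_pow_left₀ hcT.le ht N
  have h3 : 0 < c ^ N := pow_pos hc N
  have h4 : 0 < T ^ N := pow_pos hT0 N
  calc C * Real.exp (s * Real.log T / 2) / t ^ N
      ≤ C * Real.exp (s * Real.log T / 2) / (c * T) ^ N :=
        div_le_div_of_nonneg_left (by positivity) (by positivity) h2
    _ ≤ C / c ^ N * (1 / T) := by
        rw [mul_pow, div_mul_div_comm, mul_one, div_le_div_iff₀ (by positivity) (by positivity)]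
        have h5 : C * c ^ N * (Real.exp (s * Real.log T / 2) * T) ≤ C * c ^ N * T ^ N :=
          mul_le_mul_of_nonneg_left h1 (by positivity)
        linarith

section
variable {F : ℝ → Finset PC.Z} {CR : ℝ} {γ w : PC.Z → ℝ} [Countable PC.Z]

/-- (1) -/
theorem delta_long (I : Inputs γ w F CR) {a : ℝ} (ha : 1 / 2 < a) (hP : PoissonInput γ w a (PC.arch a))
    {χ : ℝ → ℝ} (hχ : Nice χ) {c C : ℝ} (hc : 0 < c) (hcC : c < C) {ε : ℝ} (hε : 0 < ε) :
    ∀ᶠ T in atTop, ∀ t ∈ Icc (c * T) (C * T),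
      |SS γ w (cosT χ) (Real.log T) t - (χ 0 - WW (cosT χ) (Real.log T) t)| ≤ ε := by
  obtain ⟨χ1, χ2, s, hs, n1, n2, he, z1, z2, zs, zs2⟩ := Nb_split hχ
  have hs0 : 0 < s := by linarith
  have zs1 : ∀ x, s ≤ |x| → χ1 x = 0 := fun x hx => z1 x (hs.trans hx)
  have t1 : TestFn (1 / 4) (cosT χ1) := (n1.reg z1).test
  have t2 : TestFn s (cosT χ2) := (n2.reg zs2).test
  have hz2 : ∀ ξ, |ξ| ≤ 1 / 8 → cosT (cosT χ2) ξ = 0 := fun ξ hξ => by
    rw [n2.inv]
    exact z2 ξ hξ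
  have h20 : χ2 0 = 0 := z2 0 (by rw [abs_zero]; norm_num)
  have h0 : χ 0 = χ1 0 := by rw [he 0, h20, add_zero]
  obtain ⟨C2, hC20, hC2⟩ := t2.exists_away hs0 (by norm_num : (0 : ℝ) < 1 / 8) hz2 ha hP
  obtain ⟨N, hN⟩ := exists_nat_ge (s / 2 + 1)
  obtain ⟨C3, hC30, hC3⟩ := PM_le n2 (by norm_num : (0 : ℝ) < 1 / 8) hs0 z2 zs2 N
  have hε3 : 0 < ε / 3 := by positivity
  have u1 := delta_unif I t1 (by norm_num) (by norm_num) hc hcC hε3
  have u2 := (Nb_tendsto C2 (by norm_num : (0 : ℝ) < 1 / 8)).eventually (gt_mem_nhds hε3)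
  have u3 : ∀ᶠ T : ℝ in atTop, C3 / c ^ N * (1 / T) < ε / 3 := by
    have h4 : Tendsto (fun T : ℝ => C3 / c ^ N * (1 / T)) atTop (𝓝 0) := by
      have h5 : Tendsto (fun T : ℝ => 1 / T) atTop (𝓝 0) := tendsto_const_nhds.div_atTop tendsto_id
      have h6 := h5.const_mul (C3 / c ^ N)
      simpa using h6
    exact h4.eventually (gt_mem_nhds hε3)
  filter_upwards [u1, u2, u3, Real.tendsto_log_atTop.eventually_ge_atTop (2 * π),
    eventually_ge_atTop 1, eventually_ge_atTop (1 / c)] with T v1 v2 v3 hL hT hcT t ht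
  have hπ := Real.pi_gt_three
  have hL1 : 1 ≤ Real.log T := by linarith
  have hL0 : 0 < Real.log T := by linarith
  have ht1 : 1 ≤ t := by
    have h4 : 1 ≤ c * T := by
      rw [div_le_iff₀ hc] at hcT
      linarith
    exact h4.trans ht.1
  have w1 := v1 t ht
  rw [n1.inv] at w1
  have w2 := hC2 (Real.log T) hL1 t
  have w3 := (hC3 (Real.log T) hL1 t ht1).trans (Nb_pole hC30 hc hN hT ht.1)
  have eW := Nb_WW_add hχ n1 n2 he zs zs1 zs2 hL0 t
  have eS : SS γ w (cosT χ) (Real.log T) t =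
      SS γ w (cosT χ1) (Real.log T) t + SS γ w (cosT χ2) (Real.log T) t := by
    rw [← I.SS_add (n1.reg zs1).test t2 hL]
    have e1 : cosT χ = fun u => cosT χ1 u + cosT χ2 u := by
      funext u
      rw [← cosT_add n1.integrable n2.integrable]
      exact congrArg (fun f => cosT f u) (funext he)
    rw [e1]
  rw [eS, eW, h0]
  have e3 : SS γ w (cosT χ1) (Real.log T) t + SS γ w (cosT χ2) (Real.log T) t -
      (χ1 0 - (WW (cosT χ1) (Real.log T) t + WW (cosT χ2) (Real.log T) t)) =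
      (SS γ w (cosT χ1) (Real.log T) t - (χ1 0 - WW (cosT χ1) (Real.log T) t)) +
      (SS γ w (cosT χ2) (Real.log T) t - (TestFn.PM (cosT χ2) (Real.log T) t -
        WW (cosT χ2) (Real.log T) t)) + TestFn.PM (cosT χ2) (Real.log T) t := by ring
  rw [e3]
  refine (abs_add_three _ _ _).trans ?_
  linarith

/-- (2) -/
theorem mom_WW_long (I : Inputs γ w F CR) {a : ℝ} (ha : 1 / 2 < a) (hP : PoissonInput γ w a (PC.arch a))
    {χ : ℝ → ℝ} (hχ : Nice χ) : Mom (fun T t => WW (cosT χ) (Real.log T) t) := by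
  obtain ⟨s, hs0, hs⟩ := hχ.supp
  have hφ : TestFn s (cosT χ) := (hχ.reg hs).test
  obtain ⟨D, hD0, hD⟩ := hφ.decay
  refine Mom.of_le ?_ (mom_SS I hφ.cont hD0 hD) fun c C hc hcC => ⟨|χ 0| + 1 + 1, ?_⟩
  · filter_upwards [Real.tendsto_log_atTop.eventually_ge_atTop 1] with T hL
    exact continuous_WW hφ (by linarith)
  · filter_upwards [delta_long I ha hP hχ hc hcC one_pos] with T h t ht
    have h0 := h t ht
    have h1 : |WW (cosT χ) (Real.log T) t| ≤ |SS γ w (cosT χ) (Real.log T) t| + |χ 0| + 1 := by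
      have e1 : WW (cosT χ) (Real.log T) t = (SS γ w (cosT χ) (Real.log T) t -
          (χ 0 - WW (cosT χ) (Real.log T) t)) + (-SS γ w (cosT χ) (Real.log T) t) + χ 0 := by ring
      have h2 := abs_add_three (SS γ w (cosT χ) (Real.log T) t -
          (χ 0 - WW (cosT χ) (Real.log T) t)) (-SS γ w (cosT χ) (Real.log T) t) (χ 0)
      rw [← e1, abs_neg] at h2
      linarith
    have h2 : 0 ≤ |χ 0| := abs_nonneg _
    have h3 : 0 ≤ |SS γ w (cosT χ) (Real.log T) t| := abs_nonneg _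
    have h4 := mul_nonneg h2 h3
    have e : (|χ 0| + 1 + 1) * (|SS γ w (cosT χ) (Real.log T) t| + 1) =
        |χ 0| * |SS γ w (cosT χ) (Real.log T) t| + 2 * |SS γ w (cosT χ) (Real.log T) t| +
          |χ 0| + 2 := by ring
    rw [e]
    linarith

end

/-- (3) -/
theorem zeta_poisson (RH : RiemannHypothesis) : ∃ a : ℝ, 1 / 2 < a ∧ PoissonInput gZ wZ a (PC.arch a) := by
  exact ⟨1, by norm_num, poissonInput (zetaFacts RH) (by norm_num)⟩

end Pool.Agent.H98.HF
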