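import Mathlib
import Pool.Agent.H98.HF.D

/-!
# MP_103a5c_HF row Hb: the averaged window

PROOF of (1).  From `exists_posdef` (H6/NiceFT): `χ` Nice, `cosT χ ≥ 0`, `χ 0 = 1`.  For `D > 0` let `χ_D ξ = χ (ξ / D)` (`Nice.comp_div`)
and `κ = cosT χ_D`, i.e. `κ u = D * cosT χ (D u)` (substitution).  Continuity, evenness (`cosT_neg`), nonnegativity from `cosT χ ≥ 0`;
`cosT κ = χ_D` (`Nice.inv`), so it vanishes for `|ξ| ≥ s` with `s = s0 D`; `∫ κ = cosT κ 0 = χ 0 = 1` (`cosT_zero_eq`, H6/Local).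
Rapid decay of `cosT χ_D` for Nice `χ_D`: Schwartz function (see the proof of `cosT_dil` or `Nice.contDiff_cosT`: `χ_D` as a complex Schwartz map,
its Fourier transform is Schwartz, `SchwartzMap.decay`, and `𝓕 = cosT` by `fourier_ofReal_even`): `|u|^(2n) |κ u| ≤ C_n` and `|κ u| ≤ C_0` give
`(1 + u²)^n |κ u| ≤ 2^n (C_0 + C_n)`.
Closeness to 1: `χ` is differentiable with bounded derivative (`ContDiff`, compact support), so `|χ (ξ/D) - 1| ≤ K |ξ| / D`, `K` independent of `D`.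
PROOF of (2)-(6).  `win κ δ x = ∫ y, κ y * 1[|y - x| ≤ δ/2]`.
(2) continuity: `intervalIntegral` with continuous integrand and continuous end points (`Continuous` of the primitive, difference of two primitives).
(3) evenness: substitution `y → -y` (`intervalIntegral.integral_comp_neg`), `κ` even.  (4) `0 ≤ win ≤ ∫ κ = 1` for `δ ≥ 0`.
(5) decay: for `|y - x| ≤ δ/2`, `1 + x² ≤ (1 + δ²) 2 (1 + y²)`... so `win κ δ x ≤ δ C_n / (min over y of (1+y²)^n) ≤ δ C_n (2 (1 + δ²))^n / (1 + x²)^n`.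
(6) `cosT (win κ δ) ξ = ∫∫ κ y 1[|y - x| ≤ δ/2] cos (2π x ξ) dx dy`, Fubini (`κ` integrable, the window bounded with compact support in `x - y`);
inner integral `∫_{y-δ/2}^{y+δ/2} cos (2π x ξ) dx = cos (2π y ξ) * sin (π δ ξ)/(π ξ)` for `ξ ≠ 0`, `= δ` for `ξ = 0`.
(7) `nice_cosT` (H6/NiceFT) applied to `win κ δ` with (2), (3), (5) and the support from (6): `Nice (cosT (win κ δ))` and `cosT (cosT (win κ δ)) = win κ δ`.
-/

open MeasureTheory Set Filter Topology
open scoped Real Interval ContDiff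

namespace Pool.Agent.H98.HF

open Pool.Agent.H6 Pool.Agent.H98.GP

lemma Hb_zero (f : ℝ → ℝ) : cosT f 0 = ∫ x, f x := by
  unfold cosT
  simp

lemma Hb_dil (g : ℝ → ℝ) {D : ℝ} (hD : 0 < D) (u : ℝ) :
    cosT (fun x => g (x / D)) u = D * cosT g (D * u) := by
  have h := MeasureTheory.Measure.integral_comp_div
    (fun y => g y * Real.cos (2 * π * (D * y) * u)) D
  rw [abs_of_pos hD, smul_eq_mul] at h
  have e1 : ∀ x : ℝ, D * (x / D) = x := fun x => by field_simp
  simp only [e1] at h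
  unfold cosT
  rw [h]
  congr 1
  refine integral_congr_ae (ae_of_all _ fun y => ?_)
  show g y * Real.cos (2 * π * (D * y) * u) = g y * Real.cos (2 * π * y * (D * u))
  congr 2
  ring

/-- (1) Kernels of large band whose transform is close to `1` on bounded sets. -/
theorem exists_ker : ∃ K : ℝ, 0 ≤ K ∧ ∀ D : ℝ, 0 < D → ∃ (s : ℝ) (κ : ℝ → ℝ), 0 < s ∧ Ker s κ ∧
    Nice (cosT κ) ∧ (∀ ξ, |cosT κ ξ - 1| ≤ K * |ξ| / D) := by
  obtain ⟨χ, nχ, hpos, h0⟩ := exists_posdef
  obtain ⟨s0, hs0, hsupp⟩ := nχ.supp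
  obtain ⟨K, hK⟩ := ContDiff.lipschitzWith_of_hasCompactSupport nχ.hasCompactSupport nχ.smooth (by simp)
  refine ⟨(K : ℝ), K.2, fun D hD => ?_⟩
  have nD : Nice (fun x => χ (x / D)) := nχ.comp_div hD
  have hsD : ∀ x, s0 * D ≤ |x| → (fun x => χ (x / D)) x = 0 := by
    intro x hx
    apply hsupp
    rw [abs_div, abs_of_pos hD, le_div_iff₀ hD]
    exact hx
  have ht := (nD.reg hsD).test
  have heq : cosT (cosT (fun x => χ (x / D))) = fun x => χ (x / D) := funext nD.inv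
  refine ⟨s0 * D, cosT (fun x => χ (x / D)), by positivity, ⟨ht.cont, ht.even, ?_, ?_, ?_, ?_⟩, ?_, ?_⟩
  · intro u
    rw [Hb_dil χ hD]
    exact mul_nonneg hD.le (hpos _)
  · intro n
    obtain ⟨D0, hD00, hD0⟩ := cosT_decay nD.smooth nD.hasCompactSupport nD.even 0
    obtain ⟨D2, hD20, hD2⟩ := cosT_decay nD.smooth nD.hasCompactSupport nD.even (2 * n)
    refine ⟨2 ^ n * (D0 + D2), by positivity, fun u => ?_⟩
    rw [le_div_iff₀ (by positivity)]
    have h0 := hD0 u
    have h2 := hD2 u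
    rw [pow_zero, one_mul] at h0
    have h7 := one_add_pow_le (sq_nonneg u) n
    have h8 : (u ^ 2) ^ n = |u| ^ (2 * n) := by rw [← sq_abs, ← pow_mul]
    rw [h8] at h7
    calc |cosT (fun x => χ (x / D)) u| * (1 + u ^ 2) ^ n
        ≤ |cosT (fun x => χ (x / D)) u| * (2 ^ n * (1 + |u| ^ (2 * n))) :=
          mul_le_mul_of_nonneg_left h7 (abs_nonneg _)
      _ = 2 ^ n * (|cosT (fun x => χ (x / D)) u| + |u| ^ (2 * n) * |cosT (fun x => χ (x / D)) u|) := by
          ring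
      _ ≤ _ := mul_le_mul_of_nonneg_left (add_le_add h0 h2) (by positivity)
  · intro ξ hξ
    rw [heq]
    exact hsD ξ hξ
  · rw [← Hb_zero, heq]
    show χ (0 / D) = 1
    rw [zero_div, h0]
  · rw [heq]
    exact nD
  · intro ξ
    rw [heq]
    show |χ (ξ / D) - 1| ≤ K * |ξ| / D
    have h := hK.dist_le_mul (ξ / D) 0
    rw [Real.dist_eq, Real.dist_eq, sub_zero, h0, abs_div, abs_of_pos hD] at h
    rw [mul_div_assoc]
    exact h

section
variable {s δ : ℝ} {κ : ℝ → ℝ}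

lemma Hb_integrable (hκ : Ker s κ) : Integrable κ := by
  have := integrable_pow_of_decay hκ.cont hκ.decay 0
  simp only [pow_zero, one_mul] at this
  exact (integrable_norm_iff hκ.cont.aestronglyMeasurable).mp this

theorem continuous_win (hκ : Ker s κ) (hδ : 0 < δ) : Continuous (win κ δ) := by
  have hii : ∀ a b : ℝ, IntervalIntegrable κ volume a b := fun a b => hκ.cont.intervalIntegrable a b
  have hc := intervalIntegral.continuous_primitive hii 0
  have e : win κ δ = fun x => (∫ y in (0 : ℝ)..(x + δ / 2), κ y) - ∫ y in (0 : ℝ)..(x - δ / 2), κ y := by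
    funext x
    rw [intervalIntegral.integral_interval_sub_left (hii _ _) (hii _ _)]
    rfl
  rw [e]
  exact (hc.comp (continuous_id.add continuous_const)).sub (hc.comp (continuous_id.sub continuous_const))

theorem win_even (hκ : Ker s κ) (hδ : 0 < δ) (x : ℝ) : win κ δ (-x) = win κ δ x := by
  unfold win
  have h := intervalIntegral.integral_comp_neg (a := x - δ / 2) (b := x + δ / 2) (fun y => κ y)
  have e : (fun y => κ (-y)) = κ := funext hκ.even
  simp only [hκ.even] at h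
  rw [h]
  congr 1 <;> ring

theorem win_nonneg (hκ : Ker s κ) (hδ : 0 < δ) (x : ℝ) : 0 ≤ win κ δ x ∧ win κ δ x ≤ 1 := by
  constructor
  · exact intervalIntegral.integral_nonneg (by linarith) fun u _ => hκ.nonneg u
  · unfold win
    rw [intervalIntegral.integral_of_le (by linarith), ← hκ.one]
    exact setIntegral_le_integral (Hb_integrable hκ) (ae_of_all _ hκ.nonneg)

theorem win_decay (hκ : Ker s κ) (hδ : 0 < δ) (n : ℕ) : ∃ C, 0 ≤ C ∧ ∀ x, |win κ δ x| ≤ C / (1 + x ^ 2) ^ n := by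
  obtain ⟨C, hC0, hC⟩ := hκ.decay n
  refine ⟨C * (2 * (1 + δ ^ 2)) ^ n * δ, by positivity, fun x => ?_⟩
  have h1 : ∀ y ∈ Ι (x - δ / 2) (x + δ / 2), ‖κ y‖ ≤ C * (2 * (1 + δ ^ 2)) ^ n / (1 + x ^ 2) ^ n := by
    intro y hy
    rw [uIoc_of_le (by linarith)] at hy
    have hxy : (x - y) ^ 2 ≤ (δ / 2) ^ 2 := by
      apply sq_le_sq'
      · linarith [hy.2]
      · linarith [hy.1]
    have h2 : 1 + x ^ 2 ≤ 2 * (1 + δ ^ 2) * (1 + y ^ 2) := by
      nlinarith [sq_nonneg (x - 2 * y), sq_nonneg (δ * y), sq_nonneg y, sq_nonneg δ]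
    rw [Real.norm_eq_abs, le_div_iff₀ (by positivity)]
    calc |κ y| * (1 + x ^ 2) ^ n ≤ C / (1 + y ^ 2) ^ n * (2 * (1 + δ ^ 2) * (1 + y ^ 2)) ^ n :=
          mul_le_mul (hC y) (pow_le_pow_left₀ (by positivity) h2 n) (by positivity) (by positivity)
      _ = C * (2 * (1 + δ ^ 2)) ^ n := by
          rw [mul_pow]
          have : (1 + y ^ 2) ^ n ≠ 0 := by positivity
          field_simp
  have h3 := intervalIntegral.norm_integral_le_of_norm_le_const h1
  rw [Real.norm_eq_abs] at h3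
  have h4 : |x + δ / 2 - (x - δ / 2)| = δ := by
    rw [show x + δ / 2 - (x - δ / 2) = δ by ring, abs_of_pos hδ]
  rw [h4] at h3
  calc |win κ δ x| ≤ C * (2 * (1 + δ ^ 2)) ^ n / (1 + x ^ 2) ^ n * δ := h3
    _ = _ := by ring

lemma Hb_shift (κ : ℝ → ℝ) (δ x : ℝ) : win κ δ x = ∫ v in (-(δ / 2))..(δ / 2), κ (x + v) := by
  unfold win
  rw [intervalIntegral.integral_comp_add_left (fun y => κ y) x, ← sub_eq_add_neg]

lemma Hb_sin (hκ : Ker s κ) (ξ : ℝ) : ∫ y, κ y * Real.sin (2 * π * y * ξ) = 0 := by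
  have h := integral_neg_eq_self (fun y => κ y * Real.sin (2 * π * y * ξ)) volume
  have e : ∀ y : ℝ, κ (-y) * Real.sin (2 * π * (-y) * ξ) = -(κ y * Real.sin (2 * π * y * ξ)) := by
    intro y
    rw [hκ.even, show 2 * π * (-y) * ξ = -(2 * π * y * ξ) by ring, Real.sin_neg]
    ring
  simp only [e] at h
  rw [integral_neg] at h
  linarith

lemma Hb_inner (hκ : Ker s κ) (ξ v : ℝ) :
    ∫ x, κ (x + v) * Real.cos (2 * π * x * ξ) = cosT κ ξ * Real.cos (2 * π * v * ξ) := by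
  have hi := Hb_integrable hκ
  have h := integral_add_right_eq_self (μ := volume)
    (fun y => κ y * Real.cos (2 * π * (y - v) * ξ)) v
  simp only [add_sub_cancel_right] at h
  rw [h]
  have hc : Integrable (fun y => κ y * Real.cos (2 * π * y * ξ)) := integrable_mul_cos hi ξ
  have hs : Integrable (fun y => κ y * Real.sin (2 * π * y * ξ)) := by
    apply Integrable.mul_bdd (c := 1) hi
    · exact (by fun_prop : Continuous fun u : ℝ => Real.sin (2 * π * u * ξ)).aestronglyMeasurable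
    · exact ae_of_all _ fun u => by
        rw [Real.norm_eq_abs]
        exact Real.abs_sin_le_one _
  have e : ∀ y : ℝ, κ y * Real.cos (2 * π * (y - v) * ξ) =
      κ y * Real.cos (2 * π * y * ξ) * Real.cos (2 * π * v * ξ) +
        κ y * Real.sin (2 * π * y * ξ) * Real.sin (2 * π * v * ξ) := by
    intro y
    rw [show 2 * π * (y - v) * ξ = 2 * π * y * ξ - 2 * π * v * ξ by ring, Real.cos_sub]
    ring
  simp only [e]
  rw [integral_add (hc.mul_const _) (hs.mul_const _), integral_mul_const, integral_mul_const,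
    Hb_sin hκ, zero_mul, add_zero]
  rfl

lemma Hb_fub (hκ : Ker s κ) (hδ : 0 < δ) (ξ : ℝ) :
    cosT (win κ δ) ξ = cosT κ ξ * ∫ v in (-(δ / 2))..(δ / 2), Real.cos (2 * π * v * ξ) := by
  have hle : -(δ / 2) ≤ δ / 2 := by linarith
  obtain ⟨C, hC0, hC⟩ := hκ.decay 1
  have hint : Integrable (fun z : ℝ × ℝ => κ (z.1 + z.2) * Real.cos (2 * π * z.1 * ξ))
      (volume.prod (volume.restrict (Ioc (-(δ / 2)) (δ / 2)))) := by
    have hg : Integrable (fun x : ℝ => C * (2 * (1 + δ ^ 2)) * (1 + x ^ 2)⁻¹) volume :=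
      integrable_inv_one_add_sq.const_mul _
    have h1 : Integrable (fun _ : ℝ => (1 : ℝ)) (volume.restrict (Ioc (-(δ / 2)) (δ / 2))) :=
      integrable_const _
    have hgm := hg.mul_prod h1
    refine Integrable.mono' hgm ?_ ?_
    · exact (by
        have := hκ.cont
        fun_prop : Continuous fun z : ℝ × ℝ =>
          κ (z.1 + z.2) * Real.cos (2 * π * z.1 * ξ)).aestronglyMeasurable
    · have hr : volume.prod (volume.restrict (Ioc (-(δ / 2)) (δ / 2))) =
          (volume.prod volume).restrict ((univ : Set ℝ) ×ˢ Ioc (-(δ / 2)) (δ / 2)) := by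
        rw [← Measure.prod_restrict, Measure.restrict_univ]
      rw [hr]
      refine (ae_restrict_iff' (MeasurableSet.univ.prod measurableSet_Ioc)).2 (ae_of_all _ ?_)
      rintro ⟨x, v⟩ ⟨-, hv⟩
      have hv1 : -(δ / 2) < v := hv.1
      have hv2 : v ≤ δ / 2 := hv.2
      have hv3 : v ^ 2 ≤ (δ / 2) ^ 2 := sq_le_sq' (by linarith) hv2
      show ‖κ (x + v) * Real.cos (2 * π * x * ξ)‖ ≤ C * (2 * (1 + δ ^ 2)) * (1 + x ^ 2)⁻¹ * 1
      rw [norm_mul, Real.norm_eq_abs, Real.norm_eq_abs, mul_one]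
      have h2 : 1 + x ^ 2 ≤ 2 * (1 + δ ^ 2) * (1 + (x + v) ^ 2) := by
        nlinarith [sq_nonneg (x + 2 * v), sq_nonneg (δ * (x + v)), sq_nonneg (x + v), sq_nonneg δ]
      have h3 : |κ (x + v)| ≤ C * (2 * (1 + δ ^ 2)) * (1 + x ^ 2)⁻¹ := by
        have h4 := hC (x + v)
        rw [pow_one] at h4
        refine h4.trans ?_
        rw [← div_eq_mul_inv, div_le_div_iff₀ (by positivity) (by positivity)]
        calc C * (1 + x ^ 2) ≤ C * (2 * (1 + δ ^ 2) * (1 + (x + v) ^ 2)) :=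
              mul_le_mul_of_nonneg_left h2 hC0
          _ = _ := by ring
      calc |κ (x + v)| * |Real.cos (2 * π * x * ξ)| ≤ |κ (x + v)| * 1 :=
            mul_le_mul_of_nonneg_left (Real.abs_cos_le_one _) (abs_nonneg _)
        _ ≤ _ := by rw [mul_one]; exact h3
  have h1 : cosT (win κ δ) ξ = ∫ x, ∫ v in Ioc (-(δ / 2)) (δ / 2), κ (x + v) * Real.cos (2 * π * x * ξ) := by
    show ∫ x, win κ δ x * Real.cos (2 * π * x * ξ) = _
    refine integral_congr_ae (ae_of_all _ fun x => ?_)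
    show win κ δ x * Real.cos (2 * π * x * ξ) = _
    rw [Hb_shift, intervalIntegral.integral_of_le hle]
    exact (integral_mul_const _ _).symm
  rw [h1, integral_integral_swap hint]
  simp only [Hb_inner hκ]
  rw [integral_const_mul, intervalIntegral.integral_of_le hle]

theorem cosT_win (hκ : Ker s κ) (hδ : 0 < δ) {ξ : ℝ} (hξ : ξ ≠ 0) :
    cosT (win κ δ) ξ = cosT κ ξ * (Real.sin (π * δ * ξ) / (π * ξ)) := by
  rw [Hb_fub hκ hδ]
  congr 1
  have hne : 2 * π * ξ ≠ 0 := mul_ne_zero (mul_ne_zero two_ne_zero Real.pi_ne_zero) hξ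
  have e : ∀ v : ℝ, Real.cos (2 * π * v * ξ) = Real.cos (2 * π * ξ * v) := by
    intro v
    congr 1
    ring
  simp only [e]
  rw [intervalIntegral.integral_comp_mul_left (fun y => Real.cos y) hne, integral_cos, smul_eq_mul,
    show 2 * π * ξ * (δ / 2) = π * δ * ξ by ring, show 2 * π * ξ * -(δ / 2) = -(π * δ * ξ) by ring,
    Real.sin_neg]
  have hp : π ≠ 0 := Real.pi_ne_zero
  field_simp
  ring

theorem cosT_win_zero (hκ : Ker s κ) (hδ : 0 < δ) : cosT (win κ δ) 0 = δ := by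
  rw [Hb_fub hκ hδ, Hb_zero, hκ.one]
  simp

theorem nice_win (hκ : Ker s κ) (hs : 0 < s) (hδ : 0 < δ) :
    Nice (cosT (win κ δ)) ∧ (∀ u, cosT (cosT (win κ δ)) u = win κ δ u) ∧ (∀ ξ, s ≤ |ξ| → cosT (win κ δ) ξ = 0) := by
  have hsupp : ∀ ξ, s ≤ |ξ| → cosT (win κ δ) ξ = 0 := by
    intro ξ hξ
    have hne : ξ ≠ 0 := by
      rintro rfl
      rw [abs_zero] at hξ
      linarith
    rw [cosT_win hκ hδ hne, hκ.supp ξ hξ, zero_mul]
  obtain ⟨h1, h2⟩ := nice_cosT (continuous_win hκ hδ) (win_even hκ hδ) (win_decay hκ hδ) hs hsupp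
  exact ⟨h1, h2, hsupp⟩

end

end Pool.Agent.H98.HF
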