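import Mathlib
import Pool.Agent.H98.HF.D
import Pool.Agent.H98.GP.Mc
import Pool.Agent.H6.Final

/-!
# MP_103a5c_HF row Nc: prime powers in the explicit formula, any band

Let `χ` be Nice, `χ ξ = 0` for `|ξ| ≥ s`, `φ = cosT χ`, so `(hχ.reg hz).test : TestFn s φ`, `cosT φ = χ` (`Nice.inv`).
`WW φ L t = (2/L) Σ_{2 ≤ n ≤ exp (sL)} Λ n n^(-1/2) χ (log n / L) cos (t log n)` (`WW_eq_sum`), and for a prime `p`
`(2/L) bb φ L p = 2 (log p / L) χ (log p / L) p^(-1/2)`, so the prime part is `2 CPs s (fun x => x * χ x) L t`.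
PROOF of (1): `WW_sub_prime` (row Mc of H98/GP).
PROOF of (2).  Let `R t = WW - 2 CPs = Σ_{n ∈ Icc 2 ⌊exp(sL)⌋, n not prime} (2/L) Λ n n^(-1/2) χ (log n/L) cos (t log n)`, `|χ| ≤ B`, `L = log T`.
 Non-prime `n` with `Λ n ≠ 0` are `p^k`, `k ≥ 2` (`isPrimePow` API, `ArithmeticFunction.vonMangoldt_ne_zero_iff`).  `R = R2 + R3`:
 * `k ≥ 3`: `|R3| ≤ (2B/L) Σ_p Σ_{k ≥ 3} log p p^(-k/2) ≤ C/L` (`Σ_p log p p^(-3/2)` converges; `Σ_{k≥3} p^(-k/2) ≤ 4 p^(-3/2)`).
   EASIER: `R3` = sum over non-prime, non-square-of-prime `n`; such prime powers `p^k`, `k ≥ 3`.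
 * `k = 2`: `R2 t = Σ_{p ≤ P} b_p cos (2 t log p)`, `P = exp(sL/2)`, `b_p = (2/L) (log p / p) χ (2 log p / L)`.  Let `[a, b']` contain the support of
   `v`, `v ≤ V`; `EE v T (R2²) ≤ (V/T) ∫_0^{b'T} R2² = (V/(2T)) ∫_0^{2b'T} (Σ b_p cos (t log p))² dt` (substitution `t → 2t`).
   Split the primes in dyadic blocks `2^j ≤ p < 2^{j+1}`, `0 ≤ j ≤ J`, `J ≤ sL/(2 log 2) + 1 ≤ C L`; `(Σ_j f_j)² ≤ (J+1) Σ_j f_j²`; and by `PrimeInput.mean2`
   (`(exists_inputs RH)` is NOT needed: `PrimeInput` is a hypothesis `P` here) with `N = 2^{j+1}`, `T' = 2b'T`: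
   `∫_0^{T'} f_j² ≤ (T'/2 + C N (1 + log N)) Σ_block b_p²`, `Σ_block b_p² ≤ (4B²/L²) Σ_{2^j ≤ n < 2^{j+1}} (log n)²/n² ≤ (4B²/L²) ((j+1) log 2)² 2^{-j}`.
   So `∫_0^{T'} (Σ f_j)² ≤ (J+1) (C/L²) Σ_{j ≤ J} (T (j+1)² 2^{-j} + (j+1)^3) ≤ (C'/L) (T + L^4)`, and `EE v T (R2²) ≤ C'' (1/L + L³/T) → 0`.
 Finally `R² ≤ 2 R2² + 2 R3²`.  Integrals: all functions continuous, `v (·/T)` continuous with compact support.
-/

open MeasureTheory Set Filter Topology
open scoped Real Interval ContDiff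

namespace Pool.Agent.H98.HF

open Pool.Agent Pool.Agent.H6 Pool.Agent.H98.GP Pool.Agent.H14.GP

/-! ### cubes and higher powers -/

lemma Nc_geom {r : ℝ} (h0 : 0 ≤ r) (h1 : r ≤ 3 / 4) (m : ℕ) :
    ∑ k ∈ Finset.Ico 3 (3 + m), r ^ k ≤ 4 * (r ^ 3 - r ^ (3 + m)) := by
  induction m with
  | zero => simp
  | succ m ih =>
    have h2 : 0 ≤ r ^ (3 + m) := pow_nonneg h0 _
    have h3 : r ^ (3 + m + 1) = r ^ (3 + m) * r := pow_succ _ _
    rw [← add_assoc, Finset.sum_Ico_succ_top (by omega), h3]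
    nlinarith [mul_nonneg h2 (by linarith : (0 : ℝ) ≤ 3 / 4 - r)]

lemma Nc_geom' {r : ℝ} (h0 : 0 ≤ r) (h1 : r ≤ 3 / 4) (N : ℕ) :
    ∑ k ∈ Finset.Icc 3 N, r ^ k ≤ 4 * r ^ 3 := by
  have h2 : Finset.Icc 3 N ⊆ Finset.Ico 3 (3 + N) := by
    intro k hk
    rw [Finset.mem_Icc] at hk
    rw [Finset.mem_Ico]
    omega
  refine (Finset.sum_le_sum_of_subset_of_nonneg h2 fun k _ _ => pow_nonneg h0 k).trans ?_
  refine (Nc_geom h0 h1 N).trans ?_
  have h3 : 0 ≤ r ^ (3 + N) := pow_nonneg h0 _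
  linarith

lemma Nc_cubes : ∃ C : ℝ, 0 ≤ C ∧ ∀ N : ℕ, ∀ S : Finset ℕ, S ⊆ Finset.Icc 2 N →
    (∀ n ∈ S, ¬ n.Prime ∧ ¬ ∃ q : ℕ, q.Prime ∧ q ^ 2 = n) →
    ∑ n ∈ S, ArithmeticFunction.vonMangoldt n * (n : ℝ) ^ (-(1 / 2) : ℝ) ≤ C := by
  have hsum : Summable (fun n : ℕ => (n : ℝ) ^ (-(5 / 4) : ℝ)) :=
    Real.summable_nat_rpow.2 (by norm_num)
  refine ⟨16 * ∑' n : ℕ, (n : ℝ) ^ (-(5 / 4) : ℝ), ?_, ?_⟩
  · have : 0 ≤ ∑' n : ℕ, (n : ℝ) ^ (-(5 / 4) : ℝ) := tsum_nonneg fun n => Real.rpow_nonneg (Nat.cast_nonneg n) _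
    positivity
  intro N S hSN hS
  set g : ℕ → ℝ := fun n => ArithmeticFunction.vonMangoldt n * (n : ℝ) ^ (-(1 / 2) : ℝ) with hg
  have hg0 : ∀ n, 0 ≤ g n := fun n => mul_nonneg ArithmeticFunction.vonMangoldt_nonneg
    (Real.rpow_nonneg (Nat.cast_nonneg n) _)
  set Q : Finset (ℕ × ℕ) := ((Finset.Icc 2 N).filter Nat.Prime) ×ˢ Finset.Icc 3 N with hQ
  have key : ∀ n ∈ S.filter (fun n => ArithmeticFunction.vonMangoldt n ≠ 0),
      ∃ q ∈ Q, q.1 ^ q.2 = n := by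
    intro n hn
    rw [Finset.mem_filter] at hn
    obtain ⟨hnS, hΛ⟩ := hn
    have h1 := Finset.mem_Icc.1 (hSN hnS)
    obtain ⟨p, k, hp, hk, hpk⟩ := (isPrimePow_nat_iff n).1 (ArithmeticFunction.vonMangoldt_ne_zero_iff.1 hΛ)
    obtain ⟨hn1, hn2⟩ := hS n hnS
    have hk1 : k ≠ 1 := by
      rintro rfl
      rw [pow_one] at hpk
      exact hn1 (hpk ▸ hp)
    have hk2 : k ≠ 2 := by
      rintro rfl
      exact hn2 ⟨p, hp, hpk⟩
    have hk3 : 3 ≤ k := by omega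
    have hpn : p ≤ p ^ k := Nat.le_self_pow (by omega) p
    have hkn : k < p ^ k := Nat.lt_pow_self hp.one_lt
    refine ⟨(p, k), ?_, hpk⟩
    rw [hQ, Finset.mem_product, Finset.mem_filter, Finset.mem_Icc, Finset.mem_Icc]
    exact ⟨⟨⟨hp.two_le, by omega⟩, hp⟩, hk3, by omega⟩
  choose! φ hφQ hφ using key
  have hinj : Set.InjOn φ (S.filter (fun n => ArithmeticFunction.vonMangoldt n ≠ 0) : Set ℕ) := by
    intro a ha b hb hab
    rw [← hφ a ha, ← hφ b hb, hab]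
  have h1 : ∑ n ∈ S, g n = ∑ n ∈ S.filter (fun n => ArithmeticFunction.vonMangoldt n ≠ 0), g n := by
    symm
    apply Finset.sum_filter_of_ne
    intro n _ hn hΛ
    apply hn
    simp only [hg, hΛ, zero_mul]
  have h2 : ∑ n ∈ S.filter (fun n => ArithmeticFunction.vonMangoldt n ≠ 0), g n ≤
      ∑ q ∈ Q, g (q.1 ^ q.2) := by
    have h3 : ∑ n ∈ S.filter (fun n => ArithmeticFunction.vonMangoldt n ≠ 0), g n =
        ∑ q ∈ (S.filter (fun n => ArithmeticFunction.vonMangoldt n ≠ 0)).image φ, g (q.1 ^ q.2) := by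
      rw [Finset.sum_image hinj]
      exact Finset.sum_congr rfl fun n hn => by rw [hφ n hn]
    rw [h3]
    apply Finset.sum_le_sum_of_subset_of_nonneg
    · intro q hq
      rw [Finset.mem_image] at hq
      obtain ⟨n, hn, rfl⟩ := hq
      exact hφQ n hn
    · intro q _ _
      exact hg0 _
  have h3 : ∀ p ∈ (Finset.Icc 2 N).filter Nat.Prime, ∑ k ∈ Finset.Icc 3 N, g (p ^ k) ≤
      16 * (p : ℝ) ^ (-(5 / 4) : ℝ) := by
    intro p hp
    rw [Finset.mem_filter] at hp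
    have hpp := hp.2
    have hp2 : (2 : ℝ) ≤ p := by exact_mod_cast hpp.two_le
    have hp0 : (0 : ℝ) < p := by linarith
    set r : ℝ := (p : ℝ) ^ (-(1 / 2) : ℝ) with hr
    have hr0 : 0 ≤ r := Real.rpow_nonneg hp0.le _
    have hr2 : r ^ 2 = (p : ℝ)⁻¹ := by
      rw [hr, ← Real.rpow_natCast, ← Real.rpow_mul hp0.le, ← Real.rpow_neg_one]
      norm_num
    have hr1 : r ≤ 3 / 4 := by
      apply le_of_sq_le_sq _ (by norm_num)
      rw [hr2]
      have : (p : ℝ)⁻¹ ≤ 2⁻¹ := inv_anti₀ (by norm_num) hp2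
      norm_num at this ⊢
      linarith
    have h4 : ∀ k ∈ Finset.Icc 3 N, g (p ^ k) = Real.log p * r ^ k := by
      intro k hk
      rw [Finset.mem_Icc] at hk
      simp only [hg]
      rw [ArithmeticFunction.vonMangoldt_apply_pow (by omega), ArithmeticFunction.vonMangoldt_apply_prime hpp,
        Nat.cast_pow, hr, ← Real.rpow_natCast ((p : ℝ) ^ (-(1 / 2) : ℝ)), ← Real.rpow_mul hp0.le,
        ← Real.rpow_natCast (p : ℝ), ← Real.rpow_mul hp0.le]
      congr 2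
      ring
    rw [Finset.sum_congr rfl h4, ← Finset.mul_sum]
    have h5 := Nc_geom' hr0 hr1 N
    have hlog0 : 0 ≤ Real.log p := Real.log_nonneg (by linarith)
    have hlog : Real.log p ≤ 4 * (p : ℝ) ^ ((1 / 4 : ℝ)) := by
      have := Real.log_le_rpow_div hp0.le (by norm_num : (0 : ℝ) < 1 / 4)
      linarith
    have hr3 : r ^ 3 = (p : ℝ) ^ (-(3 / 2) : ℝ) := by
      rw [hr, ← Real.rpow_natCast, ← Real.rpow_mul hp0.le]
      norm_num
    calc Real.log p * ∑ k ∈ Finset.Icc 3 N, r ^ k ≤ Real.log p * (4 * r ^ 3) :=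
          mul_le_mul_of_nonneg_left h5 hlog0
      _ ≤ 4 * (p : ℝ) ^ ((1 / 4 : ℝ)) * (4 * r ^ 3) :=
          mul_le_mul_of_nonneg_right hlog (by positivity)
      _ = 16 * ((p : ℝ) ^ ((1 / 4 : ℝ)) * (p : ℝ) ^ (-(3 / 2) : ℝ)) := by rw [hr3]; ring
      _ = 16 * (p : ℝ) ^ (-(5 / 4) : ℝ) := by
          rw [← Real.rpow_add hp0]
          norm_num
  calc ∑ n ∈ S, g n = ∑ n ∈ S.filter (fun n => ArithmeticFunction.vonMangoldt n ≠ 0), g n := h1
    _ ≤ ∑ q ∈ Q, g (q.1 ^ q.2) := h2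
    _ = ∑ p ∈ (Finset.Icc 2 N).filter Nat.Prime, ∑ k ∈ Finset.Icc 3 N, g (p ^ k) := by
        rw [hQ, Finset.sum_product]
    _ ≤ ∑ p ∈ (Finset.Icc 2 N).filter Nat.Prime, 16 * (p : ℝ) ^ (-(5 / 4) : ℝ) := Finset.sum_le_sum h3
    _ = 16 * ∑ p ∈ (Finset.Icc 2 N).filter Nat.Prime, (p : ℝ) ^ (-(5 / 4) : ℝ) := by rw [Finset.mul_sum]
    _ ≤ 16 * ∑' n : ℕ, (n : ℝ) ^ (-(5 / 4) : ℝ) := by
        apply mul_le_mul_of_nonneg_left _ (by norm_num)
        exact hsum.sum_le_tsum _ fun n _ => Real.rpow_nonneg (Nat.cast_nonneg n) _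

/-! ### dyadic blocks of primes -/

/-- block -/
def Nc_blk (j : ℕ) : Finset ℕ := (Finset.Ico (2 ^ j) (2 ^ (j + 1))).filter Nat.Prime

lemma Nc_range (g : ℕ → ℝ) (J : ℕ) :
    ∑ p ∈ (Finset.range (2 ^ J)).filter Nat.Prime, g p = ∑ j ∈ Finset.range J, ∑ p ∈ Nc_blk j, g p := by
  induction J with
  | zero =>
    have : (Finset.range (2 ^ 0)).filter Nat.Prime = ∅ := by
      ext n
      simp only [Finset.mem_filter, Finset.mem_range, pow_zero, Finset.notMem_empty, iff_false, not_and]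
      intro h hp
      have := hp.two_le
      omega
    rw [this]
    simp
  | succ J ih =>
    rw [Finset.sum_range_succ, ← ih]
    have h1 : (Finset.range (2 ^ (J + 1))).filter Nat.Prime =
        (Finset.range (2 ^ J)).filter Nat.Prime ∪ Nc_blk J := by
      ext n
      unfold Nc_blk
      simp only [Finset.mem_union, Finset.mem_filter, Finset.mem_range, Finset.mem_Ico]
      have : 2 ^ J ≤ 2 ^ (J + 1) := Nat.pow_le_pow_right (by norm_num) (by omega)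
      constructor
      · rintro ⟨h, hp⟩
        rcases lt_or_ge n (2 ^ J) with h' | h'
        · exact Or.inl ⟨h', hp⟩
        · exact Or.inr ⟨⟨h', h⟩, hp⟩
      · rintro (⟨h, hp⟩ | ⟨⟨h, h'⟩, hp⟩)
        · exact ⟨lt_of_lt_of_le h this, hp⟩
        · exact ⟨h', hp⟩
    rw [h1, Finset.sum_union]
    rw [Finset.disjoint_left]
    intro n hn hn'
    unfold Nc_blk at hn'
    rw [Finset.mem_filter, Finset.mem_range] at hn
    rw [Finset.mem_filter, Finset.mem_Ico] at hn'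
    omega

lemma Nc_sum1 (J : ℕ) : ∑ j ∈ Finset.range J, ((j : ℝ) + 1) ^ 2 / 2 ^ j = 12 - (2 * (J : ℝ) ^ 2 + 8 * J + 12) / 2 ^ J := by
  induction J with
  | zero => norm_num
  | succ J ih =>
    rw [Finset.sum_range_succ, ih]
    push_cast
    field_simp
    ring

lemma Nc_sum1' (J : ℕ) : ∑ j ∈ Finset.range J, ((j : ℝ) + 1) ^ 2 / 2 ^ j ≤ 12 := by
  rw [Nc_sum1]
  have : 0 ≤ (2 * (J : ℝ) ^ 2 + 8 * J + 12) / 2 ^ J := by positivity
  linarith

lemma Nc_sum2 (J : ℕ) : ∑ j ∈ Finset.range J, ((j : ℝ) + 1) ^ 3 ≤ (J : ℝ) ^ 4 := by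
  calc ∑ j ∈ Finset.range J, ((j : ℝ) + 1) ^ 3 ≤ ∑ j ∈ Finset.range J, (J : ℝ) ^ 3 := by
        apply Finset.sum_le_sum
        intro j hj
        rw [Finset.mem_range] at hj
        apply pow_le_pow_left₀ (by positivity)
        exact_mod_cast hj
    _ = (J : ℝ) ^ 4 := by
        rw [Finset.sum_const, Finset.card_range, nsmul_eq_mul]
        ring

lemma Nc_block {C : ℝ} (hC0 : 0 ≤ C)
    (hC : ∀ (N : ℕ) (T : ℝ), 0 < T → ∀ b : ℕ → ℝ,
    |(∫ t in (0 : ℝ)..T, (∑ n ∈ Finset.Icc 2 N, b n * Real.cos (t * Real.log n)) ^ 2)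
      - (T / 2) * ∑ n ∈ Finset.Icc 2 N, b n ^ 2| ≤ C * (N * (1 + Real.log N)) * ∑ n ∈ Finset.Icc 2 N, b n ^ 2)
    {K : ℝ} (hK : 0 ≤ K) {b : ℕ → ℝ} (hb : ∀ p : ℕ, p.Prime → |b p| ≤ K * (Real.log p / p)) {u : ℝ} (hu : 0 < u) (j : ℕ) :
    ∫ t in (0 : ℝ)..u, (∑ p ∈ Nc_blk j, b p * Real.cos (t * Real.log p)) ^ 2 ≤
      K ^ 2 * (u / 2 * (((j : ℝ) + 1) ^ 2 / 2 ^ j) + 4 * C * ((j : ℝ) + 1) ^ 3) := by
  have hsub : Nc_blk j ⊆ Finset.Icc 2 (2 ^ (j + 1)) := by
    intro p hp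
    unfold Nc_blk at hp
    rw [Finset.mem_filter, Finset.mem_Ico] at hp
    rw [Finset.mem_Icc]
    exact ⟨hp.2.two_le, hp.1.2.le⟩
  have hl2 : Real.log 2 ≤ 1 := by
    have := Real.log_two_lt_d9
    linarith
  have hl20 : 0 ≤ Real.log 2 := Real.log_nonneg (by norm_num)
  set b' : ℕ → ℝ := fun n => if n ∈ Nc_blk j then b n else 0 with hb'
  have e1 : ∀ t : ℝ, ∑ n ∈ Finset.Icc 2 (2 ^ (j + 1)), b' n * Real.cos (t * Real.log n) =
      ∑ p ∈ Nc_blk j, b p * Real.cos (t * Real.log p) := by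
    intro t
    rw [← Finset.sum_subset hsub]
    · apply Finset.sum_congr rfl
      intro p hp
      simp only [hb', if_pos hp]
    · intro p _ hp
      simp only [hb', if_neg hp, zero_mul]
  have e2 : ∑ n ∈ Finset.Icc 2 (2 ^ (j + 1)), b' n ^ 2 = ∑ p ∈ Nc_blk j, b p ^ 2 := by
    rw [← Finset.sum_subset hsub]
    · apply Finset.sum_congr rfl
      intro p hp
      simp only [hb', if_pos hp]
    · intro p _ hp
      simp only [hb', if_neg hp]
      ring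
  have h1 := hC (2 ^ (j + 1)) u hu b'
  rw [e2] at h1
  simp only [e1] at h1
  have h2j : (0 : ℝ) < 2 ^ j := by positivity
  -- the sum of squares
  have h3 : ∑ p ∈ Nc_blk j, b p ^ 2 ≤ K ^ 2 * (((j : ℝ) + 1) ^ 2 / 2 ^ j) := by
    have h4 : ∀ p ∈ Nc_blk j, b p ^ 2 ≤ K ^ 2 * (((j : ℝ) + 1) ^ 2 / (2 ^ j) ^ 2) := by
      intro p hp
      unfold Nc_blk at hp
      rw [Finset.mem_filter, Finset.mem_Ico] at hp
      have hp1 : (2 : ℝ) ^ j ≤ p := by exact_mod_cast hp.1.1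
      have hp2 : (p : ℝ) ≤ 2 ^ (j + 1) := by exact_mod_cast hp.1.2.le
      have hp0 : (0 : ℝ) < p := by linarith
      have hlog : Real.log p ≤ (j : ℝ) + 1 := by
        have h5 := Real.log_le_log hp0 hp2
        rw [Real.log_pow] at h5
        push_cast at h5
        nlinarith
      have hlog0 : 0 ≤ Real.log p := Real.log_natCast_nonneg p
      have h6 : Real.log p / p ≤ ((j : ℝ) + 1) / 2 ^ j := div_le_div₀ (by positivity) hlog h2j hp1
      have h7 : |b p| ≤ K * (((j : ℝ) + 1) / 2 ^ j) := (hb p hp.2).trans (mul_le_mul_of_nonneg_left h6 hK)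
      calc b p ^ 2 = |b p| ^ 2 := (sq_abs _).symm
        _ ≤ (K * (((j : ℝ) + 1) / 2 ^ j)) ^ 2 := pow_le_pow_left₀ (abs_nonneg _) h7 2
        _ = K ^ 2 * (((j : ℝ) + 1) ^ 2 / (2 ^ j) ^ 2) := by rw [mul_pow, div_pow]
    have hcard : ((Nc_blk j).card : ℝ) ≤ 2 ^ j := by
      have h5 : (Nc_blk j).card ≤ 2 ^ j := by
        unfold Nc_blk
        refine (Finset.card_filter_le _ _).trans ?_
        rw [Nat.card_Ico, pow_succ]
        omega
      exact_mod_cast h5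
    calc ∑ p ∈ Nc_blk j, b p ^ 2 ≤ ∑ p ∈ Nc_blk j, K ^ 2 * (((j : ℝ) + 1) ^ 2 / (2 ^ j) ^ 2) := Finset.sum_le_sum h4
      _ = (Nc_blk j).card * (K ^ 2 * (((j : ℝ) + 1) ^ 2 / (2 ^ j) ^ 2)) := by rw [Finset.sum_const, nsmul_eq_mul]
      _ ≤ 2 ^ j * (K ^ 2 * (((j : ℝ) + 1) ^ 2 / (2 ^ j) ^ 2)) := mul_le_mul_of_nonneg_right hcard (by positivity)
      _ = K ^ 2 * (((j : ℝ) + 1) ^ 2 / 2 ^ j) := by field_simp
  have hB0 : 0 ≤ ∑ p ∈ Nc_blk j, b p ^ 2 := Finset.sum_nonneg fun p _ => sq_nonneg _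
  have h5 : ((2 ^ (j + 1) : ℕ) : ℝ) * (1 + Real.log ((2 ^ (j + 1) : ℕ) : ℝ)) ≤ 2 ^ j * (4 * ((j : ℝ) + 1)) := by
    have h6 : Real.log ((2 ^ (j + 1) : ℕ) : ℝ) ≤ (j : ℝ) + 1 := by
      push_cast
      rw [Real.log_pow]
      push_cast
      nlinarith
    push_cast
    push_cast at h6
    calc (2 : ℝ) ^ (j + 1) * (1 + Real.log (2 ^ (j + 1))) ≤ (2 : ℝ) ^ (j + 1) * (2 * ((j : ℝ) + 1)) := by
          apply mul_le_mul_of_nonneg_left _ (by positivity)
          have : (0 : ℝ) ≤ j := Nat.cast_nonneg j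
          linarith
      _ = 2 ^ j * (4 * ((j : ℝ) + 1)) := by rw [pow_succ]; ring
  have h6 : C * (((2 ^ (j + 1) : ℕ) : ℝ) * (1 + Real.log ((2 ^ (j + 1) : ℕ) : ℝ))) * ∑ p ∈ Nc_blk j, b p ^ 2 ≤
      K ^ 2 * (4 * C * ((j : ℝ) + 1) ^ 3) := by
    calc C * (((2 ^ (j + 1) : ℕ) : ℝ) * (1 + Real.log ((2 ^ (j + 1) : ℕ) : ℝ))) * ∑ p ∈ Nc_blk j, b p ^ 2
        ≤ C * (2 ^ j * (4 * ((j : ℝ) + 1))) * (K ^ 2 * (((j : ℝ) + 1) ^ 2 / 2 ^ j)) := by
          apply mul_le_mul (mul_le_mul_of_nonneg_left h5 hC0) h3 hB0 (by positivity)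
      _ = K ^ 2 * (4 * C * ((j : ℝ) + 1) ^ 3) := by field_simp
  have h7 := (abs_le.1 h1).2
  have h8 : u / 2 * ∑ p ∈ Nc_blk j, b p ^ 2 ≤ u / 2 * (K ^ 2 * (((j : ℝ) + 1) ^ 2 / 2 ^ j)) :=
    mul_le_mul_of_nonneg_left h3 (by positivity)
  have h9 : K ^ 2 * (u / 2 * (((j : ℝ) + 1) ^ 2 / 2 ^ j) + 4 * C * ((j : ℝ) + 1) ^ 3) =
      u / 2 * (K ^ 2 * (((j : ℝ) + 1) ^ 2 / 2 ^ j)) + K ^ 2 * (4 * C * ((j : ℝ) + 1) ^ 3) := by ring
  rw [h9]
  linarith

lemma Nc_all {C : ℝ} (hC0 : 0 ≤ C)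
    (hC : ∀ (N : ℕ) (T : ℝ), 0 < T → ∀ b : ℕ → ℝ,
    |(∫ t in (0 : ℝ)..T, (∑ n ∈ Finset.Icc 2 N, b n * Real.cos (t * Real.log n)) ^ 2)
      - (T / 2) * ∑ n ∈ Finset.Icc 2 N, b n ^ 2| ≤ C * (N * (1 + Real.log N)) * ∑ n ∈ Finset.Icc 2 N, b n ^ 2)
    {K : ℝ} (hK : 0 ≤ K) {b : ℕ → ℝ} (hb : ∀ p : ℕ, p.Prime → |b p| ≤ K * (Real.log p / p)) {u : ℝ} (hu : 0 < u) (J : ℕ) :
    ∫ t in (0 : ℝ)..u, (∑ p ∈ (Finset.range (2 ^ J)).filter Nat.Prime, b p * Real.cos (t * Real.log p)) ^ 2 ≤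
      K ^ 2 * J * (6 * u + 4 * C * (J : ℝ) ^ 4) := by
  have hcb : ∀ j, Continuous fun t : ℝ => (∑ p ∈ Nc_blk j, b p * Real.cos (t * Real.log p)) ^ 2 := by
    intro j
    fun_prop
  have h1 : ∀ t : ℝ, (∑ p ∈ (Finset.range (2 ^ J)).filter Nat.Prime, b p * Real.cos (t * Real.log p)) ^ 2 ≤
      J * ∑ j ∈ Finset.range J, (∑ p ∈ Nc_blk j, b p * Real.cos (t * Real.log p)) ^ 2 := by
    intro t
    rw [Nc_range (fun p => b p * Real.cos (t * Real.log p))]
    have h2 := sq_sum_le_card_mul_sum_sq (s := Finset.range J)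
      (f := fun j => ∑ p ∈ Nc_blk j, b p * Real.cos (t * Real.log p))
    rw [Finset.card_range] at h2
    exact h2
  have h2 : ∫ t in (0 : ℝ)..u, (∑ p ∈ (Finset.range (2 ^ J)).filter Nat.Prime, b p * Real.cos (t * Real.log p)) ^ 2 ≤
      ∫ t in (0 : ℝ)..u, J * ∑ j ∈ Finset.range J, (∑ p ∈ Nc_blk j, b p * Real.cos (t * Real.log p)) ^ 2 := by
    apply intervalIntegral.integral_mono_on hu.le
    · apply Continuous.intervalIntegrable
      fun_prop
    · apply Continuous.intervalIntegrable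
      exact continuous_const.mul (continuous_finsetSum _ fun j _ => hcb j)
    · intro t _
      exact h1 t
  rw [intervalIntegral.integral_const_mul, intervalIntegral.integral_finsetSum] at h2
  · refine h2.trans ?_
    have h3 : ∑ j ∈ Finset.range J, ∫ t in (0 : ℝ)..u, (∑ p ∈ Nc_blk j, b p * Real.cos (t * Real.log p)) ^ 2 ≤
        ∑ j ∈ Finset.range J, K ^ 2 * (u / 2 * (((j : ℝ) + 1) ^ 2 / 2 ^ j) + 4 * C * ((j : ℝ) + 1) ^ 3) :=
      Finset.sum_le_sum fun j _ => Nc_block hC0 hC hK hb hu j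
    have h4 : ∑ j ∈ Finset.range J, K ^ 2 * (u / 2 * (((j : ℝ) + 1) ^ 2 / 2 ^ j) + 4 * C * ((j : ℝ) + 1) ^ 3) =
        K ^ 2 * (u / 2 * ∑ j ∈ Finset.range J, (((j : ℝ) + 1) ^ 2 / 2 ^ j) +
          4 * C * ∑ j ∈ Finset.range J, ((j : ℝ) + 1) ^ 3) := by
      rw [← Finset.mul_sum, Finset.sum_add_distrib, Finset.mul_sum, Finset.mul_sum]
    have h5 : K ^ 2 * (u / 2 * ∑ j ∈ Finset.range J, (((j : ℝ) + 1) ^ 2 / 2 ^ j) +
          4 * C * ∑ j ∈ Finset.range J, ((j : ℝ) + 1) ^ 3) ≤ K ^ 2 * (6 * u + 4 * C * (J : ℝ) ^ 4) := by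
      apply mul_le_mul_of_nonneg_left _ (by positivity)
      have h6 := mul_le_mul_of_nonneg_left (Nc_sum1' J) (by positivity : 0 ≤ u / 2)
      have h7 := mul_le_mul_of_nonneg_left (Nc_sum2 J) (by positivity : 0 ≤ 4 * C)
      linarith
    calc (J : ℝ) * ∑ j ∈ Finset.range J, ∫ t in (0 : ℝ)..u, (∑ p ∈ Nc_blk j, b p * Real.cos (t * Real.log p)) ^ 2
        ≤ J * (K ^ 2 * (6 * u + 4 * C * (J : ℝ) ^ 4)) := by
          apply mul_le_mul_of_nonneg_left _ (Nat.cast_nonneg J)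
          linarith
      _ = K ^ 2 * J * (6 * u + 4 * C * (J : ℝ) ^ 4) := by ring
  · intro j _
    exact (hcb j).intervalIntegrable _ _

/-! ### weighted means -/

lemma Nc_EE_le {v : ℝ → ℝ} {a b V : ℝ} (hvc : Continuous v) (ha : 0 < a) (hab : a < b)
    (hsupp : ∀ x, x ∉ Icc a b → v x = 0) (hV : ∀ x, v x ≤ V) (hV0 : 0 ≤ V) {h : ℝ → ℝ} (hc : Continuous h)
    (h0 : ∀ t, 0 ≤ h t) {T : ℝ} (hT : 0 < T) :
    EE v T h ≤ V / T * ∫ t in (0 : ℝ)..(b * T), h t := by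
  unfold EE
  have hle : a * T ≤ b * T := mul_le_mul_of_nonneg_right hab.le hT.le
  have haT : 0 ≤ a * T := by positivity
  have h1 : (∫ t, v (t / T) * h t) = ∫ t in (a * T)..(b * T), v (t / T) * h t := by
    rw [intervalIntegral.integral_of_le hle, ← integral_Icc_eq_integral_Ioc]
    symm
    apply setIntegral_eq_integral_of_forall_compl_eq_zero
    intro t ht
    have h2 : t / T ∉ Icc a b := by
      intro h3
      apply ht
      rw [Set.mem_Icc, le_div_iff₀ hT, div_le_iff₀ hT] at h3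
      exact h3
    rw [hsupp _ h2, zero_mul]
  have hc1 : Continuous (fun t => v (t / T) * h t) := (hvc.comp (continuous_id.div_const T)).mul hc
  have hc2 : Continuous (fun t => V * h t) := continuous_const.mul hc
  have h2 : (∫ t in (a * T)..(b * T), v (t / T) * h t) ≤ ∫ t in (a * T)..(b * T), V * h t := by
    apply intervalIntegral.integral_mono_on hle (hc1.intervalIntegrable _ _) (hc2.intervalIntegrable _ _)
    intro t _
    exact mul_le_mul_of_nonneg_right (hV _) (h0 t)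
  rw [intervalIntegral.integral_const_mul] at h2
  have h3 : (∫ t in (a * T)..(b * T), h t) ≤ ∫ t in (0 : ℝ)..(b * T), h t := by
    have h4 := intervalIntegral.integral_add_adjacent_intervals (hc.intervalIntegrable 0 (a * T))
      (hc.intervalIntegrable (a * T) (b * T)) (μ := volume)
    have h5 : 0 ≤ ∫ t in (0 : ℝ)..(a * T), h t := intervalIntegral.integral_nonneg haT fun t _ => h0 t
    linarith
  calc 1 / T * ∫ t, v (t / T) * h t ≤ 1 / T * (V * ∫ t in (0 : ℝ)..(b * T), h t) := by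
        apply mul_le_mul_of_nonneg_left _ (by positivity)
        rw [h1]
        exact h2.trans (mul_le_mul_of_nonneg_left h3 hV0)
    _ = V / T * ∫ t in (0 : ℝ)..(b * T), h t := by ring

lemma Nc_prime_part {χ : ℝ → ℝ} (hχ : Nice χ) (s L t : ℝ) :
    ∑ p ∈ PS s L, (2 / L * Pool.Agent.H6.bb (cosT χ) L p) * Real.cos (t * Real.log p) =
      2 * CPs s (fun x => x * χ x) L t := by
  unfold CPs
  rw [Finset.mul_sum]
  apply Finset.sum_congr rfl
  intro p hp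
  have hpp : p.Prime := (Finset.mem_filter.1 hp).2
  unfold Pool.Agent.H6.bb
  rw [hχ.inv, ArithmeticFunction.vonMangoldt_apply_prime hpp]
  ring

/-- (1) -/
theorem WW_sub_CPs {χ : ℝ → ℝ} (hχ : Nice χ) {s : ℝ} (hs : 0 < s) (hz : ∀ ξ, s ≤ |ξ| → χ ξ = 0) :
    ∃ C : ℝ, 0 ≤ C ∧ ∀ L : ℝ, 1 ≤ L → ∀ t : ℝ, |WW (cosT χ) L t - 2 * CPs s (fun x => x * χ x) L t| ≤ C := by
  obtain ⟨C, hC0, hC⟩ := WW_sub_prime (hχ.reg hz).test hs
  refine ⟨C, hC0, fun L hL t => ?_⟩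
  have h := hC L hL t
  rw [Nc_prime_part hχ] at h
  exact h

lemma Nc_decomp {χ : ℝ → ℝ} (hχ : Nice χ) {s : ℝ} (hz : ∀ ξ, s ≤ |ξ| → χ ξ = 0)
    {B : ℝ} (hB0 : 0 ≤ B) (hB : ∀ x, |χ x| ≤ B) {C0 : ℝ}
    (hC0 : ∀ N : ℕ, ∀ S : Finset ℕ, S ⊆ Finset.Icc 2 N →
      (∀ n ∈ S, ¬ n.Prime ∧ ¬ ∃ q : ℕ, q.Prime ∧ q ^ 2 = n) →
      ∑ n ∈ S, ArithmeticFunction.vonMangoldt n * (n : ℝ) ^ (-(1 / 2) : ℝ) ≤ C0)
    {L : ℝ} (hL : 1 ≤ L) {J : ℕ} (hJ : Real.exp (s * L) < (2 ^ J) ^ 2) (t : ℝ) :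
    |WW (cosT χ) L t - 2 * CPs s (fun x => x * χ x) L t -
      ∑ p ∈ (Finset.range (2 ^ J)).filter Nat.Prime,
        (2 / L * (Real.log p / p) * χ (2 * Real.log p / L)) * Real.cos (2 * t * Real.log p)| ≤ 2 / L * (B * C0) := by
  have hL0 : 0 < L := by linarith
  have hφ := (hχ.reg hz).test
  obtain ⟨N, hN⟩ : ∃ N : ℕ, N = ⌊Real.exp (s * L)⌋₊ := ⟨_, rfl⟩
  have hNle : (N : ℝ) ≤ Real.exp (s * L) := by
    rw [hN]
    exact Nat.floor_le (Real.exp_pos _).le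
  have hPS : PS s L = (Finset.Icc 2 N).filter Nat.Prime := by rw [hN]; rfl
  set G : ℕ → ℝ := fun n => Pool.Agent.H6.bb (cosT χ) L n * Real.cos (t * Real.log n) with hG
  have e1 : WW (cosT χ) L t - 2 * CPs s (fun x => x * χ x) L t =
      (2 / L) * ∑ n ∈ (Finset.Icc 2 N).filter (fun n => ¬ n.Prime), G n := by
    rw [← Nc_prime_part hχ, WW_eq_sum hφ hL0, ← hN, hPS,
      ← Finset.sum_filter_add_sum_filter_not (Finset.Icc 2 N) Nat.Prime, mul_add,
      Finset.mul_sum ((Finset.Icc 2 N).filter Nat.Prime)]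
    have e2 : ∑ p ∈ (Finset.Icc 2 N).filter Nat.Prime,
        (2 / L * Pool.Agent.H6.bb (cosT χ) L p) * Real.cos (t * Real.log p) =
        ∑ p ∈ (Finset.Icc 2 N).filter Nat.Prime,
          2 / L * (Pool.Agent.H6.bb (cosT χ) L p * Real.cos (t * Real.log p)) :=
      Finset.sum_congr rfl fun p _ => mul_assoc _ _ _
    rw [e2]
    ring
  classical
  -- the squares of primes
  set A : Finset ℕ := (Finset.range (2 ^ J)).filter (fun p => p.Prime ∧ p ^ 2 ≤ N) with hA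
  have e3 : ((Finset.Icc 2 N).filter (fun n => ¬ n.Prime)).filter (fun n => ∃ q : ℕ, q.Prime ∧ q ^ 2 = n) =
      A.image (fun p => p ^ 2) := by
    ext n
    simp only [hA, Finset.mem_filter, Finset.mem_Icc, Finset.mem_image, Finset.mem_range]
    constructor
    · rintro ⟨⟨⟨h1, h2⟩, h3⟩, q, hq, rfl⟩
      refine ⟨q, ⟨?_, hq, h2⟩, rfl⟩
      have h4 : ((q : ℝ)) ^ 2 < ((2 : ℝ) ^ J) ^ 2 := by
        have h5 : ((q ^ 2 : ℕ) : ℝ) ≤ N := by exact_mod_cast h2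
        push_cast at h5
        linarith
      have h5 : (q : ℝ) < (2 : ℝ) ^ J := lt_of_pow_lt_pow_left₀ 2 (by positivity) h4
      exact_mod_cast h5
    · rintro ⟨q, ⟨h1, hq, h2⟩, rfl⟩
      refine ⟨⟨⟨?_, h2⟩, ?_⟩, q, hq, rfl⟩
      · have := hq.two_le
        nlinarith
      · exact Nat.Prime.not_prime_pow (by norm_num)
  have e4 : (2 / L) * ∑ n ∈ ((Finset.Icc 2 N).filter (fun n => ¬ n.Prime)).filter
        (fun n => ∃ q : ℕ, q.Prime ∧ q ^ 2 = n), G n =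
      ∑ p ∈ (Finset.range (2 ^ J)).filter Nat.Prime,
        (2 / L * (Real.log p / p) * χ (2 * Real.log p / L)) * Real.cos (2 * t * Real.log p) := by
    rw [e3, Finset.sum_image (by
      intro a _ b _ hab
      exact Nat.pow_left_injective (two_ne_zero) hab), Finset.mul_sum]
    have h1 : A ⊆ (Finset.range (2 ^ J)).filter Nat.Prime := by
      intro p hp
      rw [hA, Finset.mem_filter] at hp
      rw [Finset.mem_filter]
      exact ⟨hp.1, hp.2.1⟩
    rw [← Finset.sum_subset h1]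
    · apply Finset.sum_congr rfl
      intro p hp
      rw [hA, Finset.mem_filter] at hp
      have hpp := hp.2.1
      have hp0 : (0 : ℝ) < p := by exact_mod_cast hpp.pos
      simp only [hG]
      unfold Pool.Agent.H6.bb
      rw [hχ.inv, ArithmeticFunction.vonMangoldt_apply_pow (by norm_num), ArithmeticFunction.vonMangoldt_apply_prime hpp,
        Nat.cast_pow, Real.log_pow]
      have h2 : ((p : ℝ) ^ 2) ^ (-(1 / 2) : ℝ) = (p : ℝ)⁻¹ := by
        rw [← Real.rpow_natCast, ← Real.rpow_mul hp0.le, ← Real.rpow_neg_one]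
        norm_num
      rw [h2]
      have h3 : t * (((2 : ℕ) : ℝ) * Real.log p) = 2 * t * Real.log p := by
        push_cast
        ring
      rw [h3]
      push_cast
      ring
    · intro p hp hpA
      rw [Finset.mem_filter] at hp
      have h2 : N < p ^ 2 := by
        by_contra hcon
        rw [not_lt] at hcon
        apply hpA
        rw [hA, Finset.mem_filter]
        exact ⟨hp.1, hp.2, hcon⟩
      have hp0 : (0 : ℝ) < p := by exact_mod_cast hp.2.pos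
      have h3 : Real.exp (s * L) < ((p ^ 2 : ℕ) : ℝ) := by
        rw [hN] at h2
        exact Nat.lt_of_floor_lt h2
      have h4 : s * L < 2 * Real.log p := by
        push_cast at h3
        have h5 := (Real.lt_log_iff_exp_lt (by positivity)).2 h3
        rw [Real.log_pow] at h5
        push_cast at h5
        exact h5
      have h5 : χ (2 * Real.log p / L) = 0 := by
        apply hz
        have h6 : s ≤ 2 * Real.log p / L := by
          rw [le_div_iff₀ hL0]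
          exact h4.le
        exact h6.trans (le_abs_self _)
      rw [h5]
      ring
  have e5 : WW (cosT χ) L t - 2 * CPs s (fun x => x * χ x) L t -
      ∑ p ∈ (Finset.range (2 ^ J)).filter Nat.Prime,
        (2 / L * (Real.log p / p) * χ (2 * Real.log p / L)) * Real.cos (2 * t * Real.log p) =
      (2 / L) * ∑ n ∈ ((Finset.Icc 2 N).filter (fun n => ¬ n.Prime)).filter
        (fun n => ¬ ∃ q : ℕ, q.Prime ∧ q ^ 2 = n), G n := by
    rw [e1, ← e4, ← Finset.sum_filter_add_sum_filter_not ((Finset.Icc 2 N).filter (fun n => ¬ n.Prime))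
      (fun n => ∃ q : ℕ, q.Prime ∧ q ^ 2 = n)]
    ring
  rw [e5, abs_mul, abs_of_nonneg (by positivity : (0 : ℝ) ≤ 2 / L)]
  apply mul_le_mul_of_nonneg_left _ (by positivity)
  refine (Finset.abs_sum_le_sum_abs _ _).trans ?_
  have h1 := hC0 N (((Finset.Icc 2 N).filter (fun n => ¬ n.Prime)).filter
        (fun n => ¬ ∃ q : ℕ, q.Prime ∧ q ^ 2 = n))
      ((Finset.filter_subset _ _).trans (Finset.filter_subset _ _)) (by
        intro n hn
        rw [Finset.mem_filter, Finset.mem_filter] at hn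
        exact ⟨hn.1.2, hn.2⟩)
  refine le_trans ?_ (mul_le_mul_of_nonneg_left h1 hB0)
  rw [Finset.mul_sum]
  apply Finset.sum_le_sum
  intro n _
  have hn0 : 0 ≤ ArithmeticFunction.vonMangoldt n * (n : ℝ) ^ (-(1 / 2) : ℝ) :=
    mul_nonneg ArithmeticFunction.vonMangoldt_nonneg (Real.rpow_nonneg (Nat.cast_nonneg n) _)
  simp only [hG]
  unfold Pool.Agent.H6.bb
  rw [hχ.inv, abs_mul, abs_mul, abs_of_nonneg hn0]
  have hc := Real.abs_cos_le_one (t * Real.log n)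
  have hb := hB (Real.log n / L)
  calc ArithmeticFunction.vonMangoldt n * (n : ℝ) ^ (-(1 / 2) : ℝ) * |χ (Real.log n / L)| *
        |Real.cos (t * Real.log n)|
      ≤ ArithmeticFunction.vonMangoldt n * (n : ℝ) ^ (-(1 / 2) : ℝ) * B * 1 := by
        refine mul_le_mul (mul_le_mul_of_nonneg_left hb hn0) hc (abs_nonneg _)
          (mul_nonneg hn0 hB0)
    _ = B * (ArithmeticFunction.vonMangoldt n * (n : ℝ) ^ (-(1 / 2) : ℝ)) := by ring

/-- (2) -/
theorem pp_mean (P : PrimeInput) {v : ℝ → ℝ} (hv : Wgt v) {χ : ℝ → ℝ} (hχ : Nice χ) {s : ℝ} (hs : 0 < s)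
    (hz : ∀ ξ, s ≤ |ξ| → χ ξ = 0) :
    Tendsto (fun T => EE v T (fun t => (WW (cosT χ) (Real.log T) t - 2 * CPs s (fun x => x * χ x) (Real.log T) t) ^ 2))
      atTop (𝓝 0) := by
  obtain ⟨C, hC0, hC⟩ := P.mean2
  obtain ⟨C3, hC30, hC3⟩ := Nc_cubes
  obtain ⟨B, hB0, hB⟩ := hχ.bounded
  obtain ⟨a, b, ha, hab, hsupp⟩ := hv.supp
  have hvc : Continuous v := hv.smooth.continuous
  have hφ := (hχ.reg hz).test
  obtain ⟨V', hV'⟩ := (isCompact_Icc (a := a) (b := b)).exists_bound_of_continuousOn hvc.continuousOn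
  have hV0 : 0 ≤ V' := (norm_nonneg _).trans (hV' a ⟨le_refl _, hab.le⟩)
  have hV : ∀ x, v x ≤ V' := by
    intro x
    by_cases hx : x ∈ Icc a b
    · exact (le_abs_self _).trans (hV' x hx)
    · rw [hsupp x hx]
      exact hV0
  have hb0 : 0 < b := by linarith
  set D : ℝ → ℝ := fun T => V' * (4 * B ^ 2 * (s + 1) * (12 * b * (1 / Real.log T) +
    4 * C * (s + 1) ^ 4 * (Real.log T ^ 3 / T)) + 8 * B ^ 2 * C3 ^ 2 * b * (1 / Real.log T) ^ 2) with hD
  have hlog := Real.tendsto_log_atTop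
  have hD0 : Tendsto D atTop (𝓝 0) := by
    have h1 : Tendsto (fun T : ℝ => 1 / Real.log T) atTop (𝓝 0) := by
      simp only [one_div]
      exact tendsto_inv_atTop_zero.comp hlog
    have h2 : Tendsto (fun T : ℝ => Real.log T ^ 3 / T) atTop (𝓝 0) :=
      (Real.isLittleO_pow_log_id_atTop (n := 3)).tendsto_div_nhds_zero
    have h3 := ((((h1.const_mul (12 * b)).add (h2.const_mul (4 * C * (s + 1) ^ 4))).const_mul
      (4 * B ^ 2 * (s + 1))).add ((h1.pow 2).const_mul (8 * B ^ 2 * C3 ^ 2 * b))).const_mul V'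
    simp only [mul_zero, add_zero, zero_pow (two_ne_zero)] at h3
    exact h3
  apply squeeze_zero' _ _ hD0
  · filter_upwards [eventually_gt_atTop (0 : ℝ)] with T hT
    unfold EE
    apply mul_nonneg (by positivity)
    apply integral_nonneg
    intro t
    exact mul_nonneg (hv.nonneg _) (sq_nonneg _)
  · filter_upwards [eventually_gt_atTop (0 : ℝ), hlog.eventually_ge_atTop 1] with T hT hL
    obtain ⟨L, hLdef⟩ : ∃ L, L = Real.log T := ⟨_, rfl⟩
    rw [← hLdef] at hL ⊢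
    have hL0 : 0 < L := by linarith
    obtain ⟨J, hJdef⟩ : ∃ J : ℕ, J = ⌊s * L⌋₊ + 1 := ⟨_, rfl⟩
    have hJ1 : (J : ℝ) ≤ (s + 1) * L := by
      rw [hJdef]
      push_cast
      have := Nat.floor_le (by positivity : 0 ≤ s * L)
      nlinarith
    have hJ2 : s * L < J := by
      rw [hJdef]
      push_cast
      exact Nat.lt_floor_add_one _
    have hJ : Real.exp (s * L) < (2 ^ J) ^ 2 := by
      have h1 : Real.exp (s * L) < Real.exp (J : ℝ) := Real.exp_lt_exp.2 hJ2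
      have h2 : Real.exp (J : ℝ) ≤ (2 ^ J) ^ 2 := by
        have h3 : ((2 : ℝ) ^ J) ^ 2 = Real.exp ((J : ℝ) * (2 * Real.log 2)) := by
          rw [← pow_mul, mul_comm J 2, pow_mul, ← Real.exp_log (by positivity : (0 : ℝ) < (2 ^ 2) ^ J), Real.log_pow,
            Real.log_pow]
          push_cast
          ring_nf
        rw [h3]
        apply Real.exp_le_exp.2
        have h4 := Real.log_two_gt_d9
        have h5 : (0 : ℝ) ≤ J := Nat.cast_nonneg J
        nlinarith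
      linarith
    set bf : ℕ → ℝ := fun p => 2 / L * (Real.log p / p) * χ (2 * Real.log p / L) with hbf
    have hK0 : (0 : ℝ) ≤ 2 / L * B := by positivity
    have hbfK : ∀ p : ℕ, p.Prime → |bf p| ≤ 2 / L * B * (Real.log p / p) := by
      intro p hp
      have h1 : 0 ≤ Real.log p / p := div_nonneg (Real.log_natCast_nonneg p) (Nat.cast_nonneg p)
      simp only [hbf]
      rw [abs_mul, abs_of_nonneg (by positivity : 0 ≤ 2 / L * (Real.log p / p))]
      calc 2 / L * (Real.log p / p) * |χ (2 * Real.log p / L)| ≤ 2 / L * (Real.log p / p) * B :=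
            mul_le_mul_of_nonneg_left (hB _) (by positivity)
        _ = 2 / L * B * (Real.log p / p) := by ring
    set f : ℝ → ℝ := fun t => ∑ p ∈ (Finset.range (2 ^ J)).filter Nat.Prime, bf p * Real.cos (t * Real.log p) with hf
    have hfc : Continuous f := by
      rw [hf]
      fun_prop
    have hR : ∀ t, |WW (cosT χ) L t - 2 * CPs s (fun x => x * χ x) L t - f (2 * t)| ≤ 2 / L * (B * C3) :=
      fun t => Nc_decomp hχ hz hB0 hB hC3 hL hJ t
    have hRc : Continuous fun t => WW (cosT χ) L t - 2 * CPs s (fun x => x * χ x) L t := by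
      have h1 := continuous_WW hφ hL0
      have h2 : Continuous (CPs s (fun x => x * χ x) L) := by
        unfold CPs
        fun_prop
      exact h1.sub (continuous_const.mul h2)
    have h1 := Nc_EE_le hvc ha hab hsupp hV hV0 (hRc.pow 2) (fun t => sq_nonneg _) hT
    refine h1.trans ?_
    have hbT : 0 < b * T := by positivity
    have h2 : ∫ t in (0 : ℝ)..(b * T), (WW (cosT χ) L t - 2 * CPs s (fun x => x * χ x) L t) ^ 2 ≤
        ∫ t in (0 : ℝ)..(b * T), (2 * f (2 * t) ^ 2 + 2 * (2 / L * (B * C3)) ^ 2) := by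
      apply intervalIntegral.integral_mono_on hbT.le
      · exact (hRc.pow 2).intervalIntegrable _ _
      · apply Continuous.intervalIntegrable
        exact (continuous_const.mul ((hfc.comp (continuous_const.mul continuous_id)).pow 2)).add continuous_const
      · intro t _
        have h3 := hR t
        have h4 : (WW (cosT χ) L t - 2 * CPs s (fun x => x * χ x) L t - f (2 * t)) ^ 2 ≤ (2 / L * (B * C3)) ^ 2 := by
          rw [← sq_abs (WW (cosT χ) L t - 2 * CPs s (fun x => x * χ x) L t - f (2 * t))]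
          exact pow_le_pow_left₀ (abs_nonneg _) h3 2
        nlinarith [sq_nonneg (WW (cosT χ) L t - 2 * CPs s (fun x => x * χ x) L t - 2 * f (2 * t))]
    have hcf2 : Continuous fun t : ℝ => 2 * f (2 * t) ^ 2 :=
      continuous_const.mul ((hfc.comp (continuous_const.mul continuous_id)).pow 2)
    rw [intervalIntegral.integral_add (hcf2.intervalIntegrable _ _) (continuous_const.intervalIntegrable _ _),
      intervalIntegral.integral_const_mul, intervalIntegral.integral_const] at h2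
    have h3 : ∫ t in (0 : ℝ)..(b * T), f (2 * t) ^ 2 = 1 / 2 * ∫ t in (0 : ℝ)..(2 * (b * T)), f t ^ 2 := by
      have h4 := intervalIntegral.integral_comp_mul_left (a := (0 : ℝ)) (b := b * T) (fun t => f t ^ 2)
        (two_ne_zero : (2 : ℝ) ≠ 0)
      rw [h4, mul_zero, smul_eq_mul]
      norm_num
    rw [h3] at h2
    have h4 := Nc_all hC0 hC hK0 hbfK (by positivity : 0 < 2 * (b * T)) J
    have h5 : ∫ t in (0 : ℝ)..(2 * (b * T)), f t ^ 2 ≤
        (2 / L * B) ^ 2 * ((s + 1) * L) * (6 * (2 * (b * T)) + 4 * C * ((s + 1) * L) ^ 4) := by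
      refine h4.trans ?_
      have h6 : (J : ℝ) ^ 4 ≤ ((s + 1) * L) ^ 4 := pow_le_pow_left₀ (Nat.cast_nonneg J) hJ1 4
      apply mul_le_mul
      · exact mul_le_mul_of_nonneg_left hJ1 (by positivity)
      · have := mul_le_mul_of_nonneg_left h6 (by positivity : 0 ≤ 4 * C)
        linarith
      · positivity
      · positivity
    have h6 : ∫ t in (0 : ℝ)..(b * T), (WW (cosT χ) L t - 2 * CPs s (fun x => x * χ x) L t) ^ 2 ≤
        (2 / L * B) ^ 2 * ((s + 1) * L) * (6 * (2 * (b * T)) + 4 * C * ((s + 1) * L) ^ 4) +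
          b * T * (2 * (2 / L * (B * C3)) ^ 2) := by
      refine h2.trans ?_
      rw [smul_eq_mul, sub_zero]
      linarith
    calc V' / T * ∫ t in (0 : ℝ)..(b * T), (WW (cosT χ) L t - 2 * CPs s (fun x => x * χ x) L t) ^ 2
        ≤ V' / T * ((2 / L * B) ^ 2 * ((s + 1) * L) * (6 * (2 * (b * T)) + 4 * C * ((s + 1) * L) ^ 4) +
          b * T * (2 * (2 / L * (B * C3)) ^ 2)) := mul_le_mul_of_nonneg_left h6 (by positivity)
      _ = D T := by
          simp only [hD, ← hLdef]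
          field_simp
          ring

end Pool.Agent.H98.HF
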