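import Mathlib
import Pool.Agent.H98.HF.D
import Pool.Agent.H98.HF.Nb
import Pool.Agent.H98.HF.Nc
import Pool.Agent.H98.GP.Mh
import Pool.Agent.H98.GP.Mn

/-!
# MP_103a5c_HF row Nd: moments of long prime sums away from 0

Here `G` is smooth and vanishes outside `[α, s]`, `0 < α < s`, `s` arbitrary.
PROOF of (1).  `χ x = G |x| / |x|` is Nice and vanishes for `|x| ≥ s` (`nice_ext`, row Mh of H98/GP).  `x * χ x = G x` for `x > 0` (all `log p / L > 0`), so
`CPs s (fun x => x * χ x) L t = CPs s G L t` for `L > 0`.  `WW_sub_CPs`: `|WW (cosT χ) L t - 2 CPs s G L t| ≤ C`; `mom_WW_long` and `Mom.of_le` (continuity: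
finite sum of continuous functions).
PROOF of (2).  Let `τ = 1/s`, so `0 < τ x ≤ 1 < π` for `x ∈ (0, s]`, `sin (τ x) > 0`.  As in row Mj of H98/GP, for `L > 0`:
`SPs s G L t = CPs s (fun x => G x * (cos (τ x) / sin (τ x))) L t - CPs s (fun x => G x * (sin (τ x))⁻¹) L (t + τ / L)`
(`(t + τ/L) log p = t log p + τ x`, addition formula; both sides vanish when `G x = 0`).  `G x * (cos (τ x)/sin (τ x))` and `G x * (sin (τ x))⁻¹` are smooth
(`contDiff_mul_of_supp` with `M = π/τ = π s > s`, row Mh) and vanish where `G` does; (1), `Mom.shift τ`, `Mom.add`, `Mom.const_mul (-1)`, `Mom.of_le`.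
-/

open MeasureTheory Set Filter Topology
open scoped Real Interval ContDiff

namespace Pool.Agent.H98.HF

open Pool.Agent Pool.Agent.H6 Pool.Agent.H98.GP

variable {F : ℝ → Finset PC.Z} {CR : ℝ} {γ w : PC.Z → ℝ} [Countable PC.Z]

omit [Countable PC.Z] in
theorem Nd_CPs_congr {G : ℝ → ℝ} {s L : ℝ} (hL : 0 < L) (t : ℝ) :
    CPs s (fun x => x * (G |x| / |x|)) L t = CPs s G L t := by
  unfold CPs
  refine Finset.sum_congr rfl fun p hp => ?_
  unfold PS at hp
  rw [Finset.mem_filter, Finset.mem_Icc] at hp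
  have hp2 : (1 : ℝ) < (p : ℝ) := by
    have : (2 : ℝ) ≤ (p : ℝ) := by exact_mod_cast hp.1.1
    linarith
  have hx : 0 < Real.log p / L := div_pos (Real.log_pos hp2) hL
  have e : (Real.log p / L) * (G |Real.log p / L| / |Real.log p / L|) = G (Real.log p / L) := by
    rw [abs_of_pos hx]
    exact mul_div_cancel₀ _ hx.ne'
  dsimp only
  rw [e]

omit [Countable PC.Z] in
theorem Nd_cont_CPs (s : ℝ) (G : ℝ → ℝ) (L : ℝ) : Continuous (CPs s G L) := by
  unfold CPs
  fun_prop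

omit [Countable PC.Z] in
theorem Nd_cont_SPs (s : ℝ) (G : ℝ → ℝ) (L : ℝ) : Continuous (SPs s G L) := by
  unfold SPs
  fun_prop

omit [Countable PC.Z] in
theorem Nd_SPs_eq {G : ℝ → ℝ} {α s : ℝ} (hα : 0 < α) (hs : α < s) (hsupp : ∀ x, x ≤ α ∨ s ≤ x → G x = 0)
    {L : ℝ} (hL : 0 < L) (t : ℝ) :
    SPs s G L t = CPs s (fun x => G x * (Real.cos (x / s) / Real.sin (x / s))) L t
      + (-1) * CPs s (fun x => G x * (Real.sin (x / s))⁻¹) L (t + (1 / s) / L) := by
  have hs0 : 0 < s := hα.trans hs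
  unfold SPs CPs
  rw [Finset.mul_sum, ← Finset.sum_add_distrib]
  refine Finset.sum_congr rfl fun p _ => ?_
  have e1 : (t + (1 / s) / L) * Real.log p = t * Real.log p + (Real.log p / L) / s := by
    field_simp
  rw [e1]
  generalize (p : ℝ) ^ (-(1 / 2) : ℝ) = P
  generalize t * Real.log p = y
  generalize Real.log p / L = x
  dsimp only
  by_cases hG : G x = 0
  · rw [hG]; simp
  have hx1 : α < x := by
    by_contra h
    exact hG (hsupp x (Or.inl (not_lt.1 h)))
  have hx2 : x < s := by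
    by_contra h
    exact hG (hsupp x (Or.inr (not_lt.1 h)))
  have hxs1 : 0 < x / s := div_pos (hα.trans hx1) hs0
  have hxs2 : x / s < 1 := (div_lt_one hs0).2 hx2
  have hsin : Real.sin (x / s) ≠ 0 :=
    (Real.sin_pos_of_pos_of_lt_pi hxs1 (by linarith [Real.pi_gt_three])).ne'
  rw [Real.cos_add]
  field_simp
  ring

/-- (1) -/
theorem mom_CPs_high (I : Inputs γ w F CR) {a : ℝ} (ha : 1 / 2 < a) (hP : PoissonInput γ w a (PC.arch a))
    {G : ℝ → ℝ} (hG : ContDiff ℝ ∞ G) {α s : ℝ} (hα : 0 < α) (hs : α < s)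
    (hsupp : ∀ x, x ≤ α ∨ s ≤ x → G x = 0) : Mom (fun T t => CPs s G (Real.log T) t) := by
  obtain ⟨hN, hz⟩ := nice_ext hG hα hs hsupp
  obtain ⟨C0, hC0, hC⟩ := WW_sub_CPs hN (hα.trans hs) hz
  have hW := mom_WW_long I ha hP hN
  refine Mom.of_le (Eventually.of_forall fun T => Nd_cont_CPs s G (Real.log T)) hW ?_
  intro c C _ _
  refine ⟨1 + C0, ?_⟩
  filter_upwards [eventually_ge_atTop (Real.exp 1)] with T hT t _
  have hT0 : 0 < T := lt_of_lt_of_le (Real.exp_pos 1) hT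
  have hL : 1 ≤ Real.log T := by
    rw [Real.le_log_iff_exp_le hT0]
    exact hT
  have h1 := hC (Real.log T) hL t
  rw [Nd_CPs_congr (by linarith) t] at h1
  have h2 : |2 * CPs s G (Real.log T) t| ≤ |WW (cosT fun x => G |x| / |x|) (Real.log T) t| + C0 := by
    have e : 2 * CPs s G (Real.log T) t = WW (cosT fun x => G |x| / |x|) (Real.log T) t -
      (WW (cosT fun x => G |x| / |x|) (Real.log T) t - 2 * CPs s G (Real.log T) t) := by ring
    rw [e]
    refine (abs_sub _ _).trans ?_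
    linarith
  rw [abs_mul, abs_of_pos (by norm_num : (0 : ℝ) < 2)] at h2
  have h3 := abs_nonneg (WW (cosT fun x => G |x| / |x|) (Real.log T) t)
  have h4 := abs_nonneg (CPs s G (Real.log T) t)
  nlinarith [mul_nonneg hC0 h3]

/-- (2) -/
theorem mom_SPs_high (I : Inputs γ w F CR) {a : ℝ} (ha : 1 / 2 < a) (hP : PoissonInput γ w a (PC.arch a))
    {G : ℝ → ℝ} (hG : ContDiff ℝ ∞ G) {α s : ℝ} (hα : 0 < α) (hs : α < s)
    (hsupp : ∀ x, x ≤ α ∨ s ≤ x → G x = 0) : Mom (fun T t => SPs s G (Real.log T) t) := by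
  have hs0 : 0 < s := hα.trans hs
  have hpi := Real.pi_gt_three
  have hM : s < π * s := by nlinarith
  have hsin : ∀ x ∈ Ioo (0 : ℝ) (π * s), Real.sin (x / s) ≠ 0 := by
    intro x hx
    refine (Real.sin_pos_of_pos_of_lt_pi (div_pos hx.1 hs0) ?_).ne'
    rw [div_lt_iff₀ hs0]
    exact hx.2
  have hdiv : ContDiff ℝ ∞ (fun x : ℝ => x / s) := contDiff_id.div_const s
  have h1 : ContDiff ℝ ∞ (fun x => G x * (Real.cos (x / s) / Real.sin (x / s))) :=
    contDiff_mul_of_supp hG hα hM hsupp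
      ((Real.contDiff_cos.comp hdiv).contDiffOn.div (Real.contDiff_sin.comp hdiv).contDiffOn hsin)
  have h2 : ContDiff ℝ ∞ (fun x => G x * (Real.sin (x / s))⁻¹) :=
    contDiff_mul_of_supp hG hα hM hsupp ((Real.contDiff_sin.comp hdiv).contDiffOn.inv hsin)
  have hC1 := mom_CPs_high I ha hP h1 hα hs (fun x hx => by rw [hsupp x hx, zero_mul])
  have hC2 := mom_CPs_high I ha hP h2 hα hs (fun x hx => by rw [hsupp x hx, zero_mul])
  have hC3 := hC2.shift (1 / s)
  have hC4 := hC1.add (hC3.const_mul (-1))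
  refine Mom.of_le (Eventually.of_forall fun T => Nd_cont_SPs s G (Real.log T)) hC4 ?_
  intro c C _ _
  refine ⟨1, ?_⟩
  filter_upwards [eventually_gt_atTop (1 : ℝ)] with T hT t _
  rw [Nd_SPs_eq hα hs hsupp (Real.log_pos hT) t]
  linarith

end Pool.Agent.H98.HF
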