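import Mathlib
import Pool.Agent.H98.HF.D
import Pool.Agent.H98.GP.Mb
import Pool.Agent.H98.GP.Mc
import Pool.Agent.H6.Nice

/-!
# MP_103a5c_HF row Ne: moments of short prime sums whose weight vanishes at 0

Here `|G x| ≤ D x` for `0 ≤ x` and `G x = 0` for `x ≥ e`, `e > 0` small: `2 k e < 1`, `e ≤ s`.
PROOF.  For `L = log T ≥ 1`: in `CPs s G L t` only the primes `p ≤ exp (e L) = T^e` contribute (`p > exp (e L)` gives `log p / L > e`, `G = 0`), i.e.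
`CPs s G L t = Σ_{p ∈ PS e L} b_p cos (t log p)`, `b_p = G (log p / L) p^(-1/2)` (`PS e L ⊆ PS s L`, `Finset.sum_subset`); same for `SPs`.
`Σ_{p ∈ PS e L} b_p² ≤ D² (1/L²) Σ_{p ∈ PS e L} (log p)² / p ≤ B` eventually: take a nice plateau `g` with `g = 1` for `|x| ≤ e`, `g = 0` for `|x| ≥ 2e`
(`exists_nice_plateau`), `φ = cosT g` (`TestFn (2e) φ`, `cosT φ = g`), then `(log p)²/p / L² = (bb φ L p / L)²` for `p ∈ PS e L ⊆ PS (2e) L`, and `sum_coeff_sq`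
(row Mc of H98/GP, with `2/L * bb`) bounds the sum.
`prime_moment` (row Mb) with `S = PS e L`, `N = ⌊exp (e L)⌋₊ ≤ T^e` (`floor_exp_le`), `T1 = c T`, `T2 = C T`: `N^(2k) ≤ T^(2 k e) ≤ (C - c) T` eventually because
`2 k e < 1`.  `|cos sum|, |sin sum| ≤ ‖Σ b_p exp (-i t log p)‖` (real and imaginary part), so both `2k`-th moments are
`≤ (k! + 2) (C - c) T B^k`.
-/

set_option linter.unusedVariables false

open MeasureTheory Set Filter Topology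
open scoped Real Interval ContDiff

namespace Pool.Agent.H98.HF

open Pool.Agent Pool.Agent.H6 Pool.Agent.H98.GP

theorem Ne_mem {e L : ℝ} {p : ℕ} : p ∈ PS e L ↔ (2 ≤ p ∧ (p : ℝ) ≤ Real.exp (e * L)) ∧ p.Prime := by
  unfold PS
  rw [Finset.mem_filter, Finset.mem_Icc, Nat.le_floor_iff (Real.exp_pos _).le]

theorem Ne_sub {e s L : ℝ} (hes : e ≤ s) (hL : 0 < L) : PS e L ⊆ PS s L := by
  intro p hp
  rw [Ne_mem] at hp ⊢
  exact ⟨⟨hp.1.1, hp.1.2.trans (Real.exp_le_exp.2 (mul_le_mul_of_nonneg_right hes hL.le))⟩, hp.2⟩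

theorem Ne_zero {G : ℝ → ℝ} {e L : ℝ} (hL : 0 < L) (hz : ∀ x, e ≤ x → G x = 0) {p : ℕ}
    (hp : p.Prime) (hn : p ∉ PS e L) : G (Real.log p / L) = 0 := by
  apply hz
  rw [le_div_iff₀ hL]
  by_contra h
  rw [not_le] at h
  apply hn
  rw [Ne_mem]
  have hp0 : (0 : ℝ) < p := by exact_mod_cast hp.pos
  exact ⟨⟨hp.two_le, (Real.log_le_iff_le_exp hp0).1 h.le⟩, hp⟩

theorem Ne_C {G : ℝ → ℝ} {s e L : ℝ} (hL : 0 < L) (hes : e ≤ s) (hz : ∀ x, e ≤ x → G x = 0) (t : ℝ) :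
    CPs s G L t = ∑ p ∈ PS e L, G (Real.log p / L) * (p : ℝ) ^ (-(1 / 2) : ℝ) * Real.cos (t * Real.log p) := by
  unfold CPs
  symm
  apply Finset.sum_subset (Ne_sub hes hL)
  intro p hp hn
  rw [Ne_zero hL hz (Ne_mem.1 hp).2 hn]
  ring

theorem Ne_S {G : ℝ → ℝ} {s e L : ℝ} (hL : 0 < L) (hes : e ≤ s) (hz : ∀ x, e ≤ x → G x = 0) (t : ℝ) :
    SPs s G L t = ∑ p ∈ PS e L, G (Real.log p / L) * (p : ℝ) ^ (-(1 / 2) : ℝ) * Real.sin (t * Real.log p) := by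
  unfold SPs
  symm
  apply Finset.sum_subset (Ne_sub hes hL)
  intro p hp hn
  rw [Ne_zero hL hz (Ne_mem.1 hp).2 hn]
  ring

theorem Ne_sin (k : ℕ) (S : Finset ℕ) (hS : ∀ p ∈ S, p.Prime) (N : ℕ) (hN : ∀ p ∈ S, p ≤ N)
    (b : ℕ → ℝ) {T1 T2 : ℝ} (hT : T1 ≤ T2) (hN2 : (N : ℝ) ^ (2 * k) ≤ T2 - T1) :
    ∫ t in T1..T2, (∑ p ∈ S, b p * Real.sin (t * Real.log p)) ^ (2 * k)
      ≤ (k.factorial + 2) * (T2 - T1) * (∑ p ∈ S, b p ^ 2) ^ k := by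
  refine le_trans ?_ (prime_moment k S hS N hN b hN2)
  refine intervalIntegral.integral_mono_on hT ?_ ?_ ?_
  · refine Continuous.intervalIntegrable ?_ _ _
    fun_prop
  · refine Continuous.intervalIntegrable ?_ _ _
    fun_prop
  · intro t _
    have him : (∑ p ∈ S, (b p : ℂ) * Complex.exp (-((t * Real.log p : ℝ) : ℂ) * Complex.I)).im =
        -∑ p ∈ S, b p * Real.sin (t * Real.log p) := by
      rw [Complex.im_sum, ← Finset.sum_neg_distrib]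
      refine Finset.sum_congr rfl fun f _ => ?_
      have : -((t * Real.log f : ℝ) : ℂ) = ((-(t * Real.log f) : ℝ) : ℂ) := by push_cast; ring
      rw [this, Complex.im_ofReal_mul, Complex.exp_ofReal_mul_I_im, Real.sin_neg]
      ring
    rw [pow_mul, pow_mul]
    refine pow_le_pow_left₀ (sq_nonneg _) ?_ k
    have h1 := Complex.abs_im_le_norm (∑ p ∈ S, (b p : ℂ) * Complex.exp (-((t * Real.log p : ℝ) : ℂ) * Complex.I))
    rw [him, abs_neg] at h1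
    calc _ = |∑ p ∈ S, b p * Real.sin (t * Real.log p)| ^ 2 := (sq_abs _).symm
      _ ≤ _ := pow_le_pow_left₀ (abs_nonneg _) h1 2

theorem Ne_coef {D : ℝ} {G : ℝ → ℝ} (hG : ∀ x, 0 ≤ x → |G x| ≤ D * x) {e L : ℝ} (hL : 0 < L)
    {φ : ℝ → ℝ} (hφ1 : ∀ x, |x| ≤ e → cosT φ x = 1) {p : ℕ} (hp : p ∈ PS e L) :
    (G (Real.log p / L) * (p : ℝ) ^ (-(1 / 2) : ℝ)) ^ 2 ≤ (D / 2) ^ 2 * (2 / L * bb φ L p) ^ 2 := by
  rw [Ne_mem] at hp
  have hp0 : (0 : ℝ) < p := by exact_mod_cast hp.2.pos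
  have hp1 : (1 : ℝ) ≤ p := by exact_mod_cast hp.2.one_le
  have h0 : 0 ≤ Real.log p / L := div_nonneg (Real.log_nonneg hp1) hL.le
  have h1 : Real.log p / L ≤ e := by
    rw [div_le_iff₀ hL]
    exact (Real.log_le_iff_le_exp hp0).2 hp.1.2
  have h2 : cosT φ (Real.log p / L) = 1 := hφ1 _ (by rw [abs_of_nonneg h0]; exact h1)
  have h3 : bb φ L p = Real.log p * (p : ℝ) ^ (-(1 / 2) : ℝ) := by
    unfold bb
    rw [h2, mul_one, ArithmeticFunction.vonMangoldt_apply_prime hp.2]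
  rw [h3]
  have h4 := hG _ h0
  have h5 : G (Real.log p / L) ^ 2 ≤ (D * (Real.log p / L)) ^ 2 := by
    rw [← sq_abs]
    exact pow_le_pow_left₀ (abs_nonneg _) h4 2
  calc (G (Real.log p / L) * (p : ℝ) ^ (-(1 / 2) : ℝ)) ^ 2
      = G (Real.log p / L) ^ 2 * ((p : ℝ) ^ (-(1 / 2) : ℝ)) ^ 2 := by rw [mul_pow]
    _ ≤ (D * (Real.log p / L)) ^ 2 * ((p : ℝ) ^ (-(1 / 2) : ℝ)) ^ 2 :=
        mul_le_mul_of_nonneg_right h5 (sq_nonneg _)
    _ = _ := by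
        field_simp

theorem short_moment (P : PrimeInput) {G : ℝ → ℝ} (hGc : Continuous G) {D : ℝ} (hD : 0 ≤ D) (hG : ∀ x, 0 ≤ x → |G x| ≤ D * x)
    {s e : ℝ} (he : 0 < e) (hes : e ≤ s) (hz : ∀ x, e ≤ x → G x = 0) (k : ℕ) (hk : 2 * (k : ℝ) * e < 1)
    (c C : ℝ) (hc : 0 < c) (hcC : c < C) :
    ∃ K : ℝ, ∀ᶠ T in atTop, ∫ t in (c * T)..(C * T), CPs s G (Real.log T) t ^ (2 * k) ≤ K * T ∧
      ∫ t in (c * T)..(C * T), SPs s G (Real.log T) t ^ (2 * k) ≤ K * T := by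
  obtain ⟨g, hg, hg0, hg1, hgp, hgl⟩ := exists_nice_plateau he (by linarith : e < 2 * e)
  have hφ : TestFn (2 * e) (cosT g) := (hg.reg hg0).test
  have hφ1 : ∀ x, |x| ≤ e → cosT (cosT g) x = 1 := fun x hx => by rw [hg.inv, hg1 x hx]
  obtain ⟨B, hB, h2⟩ := sum_coeff_sq P hφ
  have hCc : 0 < C - c := by linarith
  have h3 : ∀ᶠ T : ℝ in atTop, T ^ (2 * (k : ℝ) * e) ≤ (C - c) * T := by
    have h4 : ∀ᶠ T : ℝ in atTop, T ^ (-(1 - 2 * (k : ℝ) * e)) < C - c :=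
      (tendsto_rpow_neg_atTop (by linarith : 0 < 1 - 2 * (k : ℝ) * e)).eventually_lt_const hCc
    filter_upwards [h4, eventually_gt_atTop 0] with T hT hT0
    have h5 : T ^ (2 * (k : ℝ) * e) = T ^ (-(1 - 2 * (k : ℝ) * e)) * T := by
      nth_rewrite 3 [← Real.rpow_one T]
      rw [← Real.rpow_add hT0]
      congr 1
      ring
    rw [h5]
    exact mul_le_mul_of_nonneg_right hT.le hT0.le
  refine ⟨((k.factorial : ℝ) + 2) * (C - c) * ((D / 2) ^ 2 * B) ^ k, ?_⟩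
  filter_upwards [h3, Real.tendsto_log_atTop.eventually h2, eventually_ge_atTop (Real.exp 1),
    eventually_gt_atTop 0] with T hT hT2 hT3 hT0
  have hL : 1 ≤ Real.log T := by
    rw [← Real.log_exp 1]
    exact Real.log_le_log (Real.exp_pos 1) hT3
  set L := Real.log T with hLdef
  have hL0 : 0 < L := by linarith
  have hcC' : c * T ≤ C * T := mul_le_mul_of_nonneg_right hcC.le hT0.le
  have hlen : C * T - c * T = (C - c) * T := by ring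
  have hS : ∀ p ∈ PS e L, p.Prime := fun p hp => (Ne_mem.1 hp).2
  have hN : ∀ p ∈ PS e L, p ≤ ⌊Real.exp (e * L)⌋₊ := fun p hp =>
    (Finset.mem_Icc.1 (Finset.mem_filter.1 hp).1).2
  have hN2 : ((⌊Real.exp (e * L)⌋₊ : ℕ) : ℝ) ^ (2 * k) ≤ C * T - c * T := by
    rw [hlen]
    refine le_trans ?_ hT
    have h4 : ((⌊Real.exp (e * L)⌋₊ : ℕ) : ℝ) ≤ T ^ e := floor_exp_le hT0
    refine (pow_le_pow_left₀ (Nat.cast_nonneg _) h4 _).trans (le_of_eq ?_)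
    rw [← Real.rpow_natCast, ← Real.rpow_mul hT0.le]
    congr 1
    push_cast
    ring
  have hb : ∑ p ∈ PS e L, (G (Real.log p / L) * (p : ℝ) ^ (-(1 / 2) : ℝ)) ^ 2 ≤ (D / 2) ^ 2 * B := by
    calc ∑ p ∈ PS e L, (G (Real.log p / L) * (p : ℝ) ^ (-(1 / 2) : ℝ)) ^ 2
        ≤ ∑ p ∈ PS e L, (D / 2) ^ 2 * (2 / L * bb (cosT g) L p) ^ 2 :=
          Finset.sum_le_sum fun p hp => Ne_coef hG hL0 hφ1 hp
      _ = (D / 2) ^ 2 * ∑ p ∈ PS e L, (2 / L * bb (cosT g) L p) ^ 2 := by rw [Finset.mul_sum]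
      _ ≤ (D / 2) ^ 2 * ∑ p ∈ PS (2 * e) L, (2 / L * bb (cosT g) L p) ^ 2 :=
          mul_le_mul_of_nonneg_left (Finset.sum_le_sum_of_subset_of_nonneg
            (Ne_sub (by linarith) hL0) fun _ _ _ => sq_nonneg _) (sq_nonneg _)
      _ ≤ _ := mul_le_mul_of_nonneg_left hT2 (sq_nonneg _)
  have hfin : ((k.factorial : ℝ) + 2) * (C * T - c * T) *
      (∑ p ∈ PS e L, (G (Real.log p / L) * (p : ℝ) ^ (-(1 / 2) : ℝ)) ^ 2) ^ k ≤
      ((k.factorial : ℝ) + 2) * (C - c) * ((D / 2) ^ 2 * B) ^ k * T := by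
    rw [hlen]
    have h7 := pow_le_pow_left₀ (Finset.sum_nonneg fun _ _ => sq_nonneg _) hb k
    calc _ ≤ ((k.factorial : ℝ) + 2) * ((C - c) * T) * ((D / 2) ^ 2 * B) ^ k :=
          mul_le_mul_of_nonneg_left h7 (by positivity)
      _ = _ := by ring
  constructor
  · simp only [Ne_C hL0 hes hz]
    exact (prime_moment_cos k (PS e L) hS _ hN
      (fun p => G (Real.log p / L) * (p : ℝ) ^ (-(1 / 2) : ℝ)) hcC' hN2).trans hfin
  · simp only [Ne_S hL0 hes hz]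
    exact (Ne_sin k (PS e L) hS _ hN
      (fun p => G (Real.log p / L) * (p : ℝ) ^ (-(1 / 2) : ℝ)) hcC' hN2).trans hfin

end Pool.Agent.H98.HF
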