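import Mathlib
import Pool.Agent.H98.HF.D
import Pool.Agent.H98.HF.Nd
import Pool.Agent.H98.HF.Ne
import Pool.Agent.H98.HF.Hb

/-!
# MP_103a5c_HF row Nf: all moments of long prime sums with weight vanishing at 0; the approximation of the averaged count

PROOF of (1), (2).  Continuity: finite sums of continuous functions.  Given `k, c, C`, let `e = min s (1/(4 (k+1)))`, so `2 k e < 1`, and let `ρ` be a nice plateau
with `ρ = 1` on `|x| ≤ e/4`, `0` for `|x| ≥ e/2` (`exists_nice_plateau`).  `G = G ρ + G (1 - ρ)`.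
 * `G ρ` vanishes for `x ≥ e`, `|G ρ x| ≤ |G x| ≤ D x` for `x ≥ 0`: `G` is `C¹` with `G 0 = 0`, so `|G x| ≤ D |x|` on `[0, s]` with `D = sup |G'|` over `[0, s]` (mean value
   inequality, `Convex.norm_image_sub_le_of_norm_deriv_le` or so), and `G = 0` beyond `s`.  `short_moment`.
 * `G (1 - ρ)` is smooth; it need not vanish for negative `x`, but only its values at `x > 0` matter (`log p / L > 0`); so replace it by `G₂ x = G x * (1 - ρ x) * θ x`
   with a smooth step `θ`, `θ = 0` for `x ≤ e/8`, `θ = 1` for `x ≥ e/4` (`Real.smoothTransition`), which has the same values for `x > 0`: `G₂ = 0` for `x ≤ e/8`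
   (and for `x ≥ s`).  `mom_CPs_high`, `mom_SPs_high` with `α = e/8`.  (If `s ≤ e/8`... not possible since `e ≤ s`.)
 `(x + y)^(2k) ≤ 2^(2k) (x^(2k) + y^(2k))`, integrate.
PROOF of (3).  `nice_win` (row Hb): `χ = cosT (win κ δ)` is Nice, vanishes for `|ξ| ≥ s`, `cosT χ = win κ δ`, `χ 0 = δ` (`cosT_win_zero`), and for `x > 0`
`x * χ x = cosT κ x * sin (π δ x) / π` (`cosT_win`), so `CPs s (fun x => x * χ x) = CPs s G₀` for `L > 0`.
`δ - 2 CPs s G₀ - SS win = -(SS win - (δ - WW)) + (WW - 2 CPs)`: square, `EE v T` of the square of the first bracket is `≤ ε² EE v T 1` eventually by `delta_long`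
(uniform on `[aT, bT] ⊇ supp v(·/T)`), of the second tends to 0 by `pp_mean`; `(x + y)² ≤ 2x² + 2y²`.
-/

open MeasureTheory Set Filter Topology
open scoped Real Interval ContDiff

namespace Pool.Agent.H98.HF

open Pool.Agent Pool.Agent.H6 Pool.Agent.H98.GP Pool.Agent.H14.GP

/-- A general prime sum. -/
noncomputable def Nf_S (f : ℝ → ℝ) (s : ℝ) (G : ℝ → ℝ) (L t : ℝ) : ℝ :=
  ∑ p ∈ PS s L, G (Real.log p / L) * (p : ℝ) ^ (-(1 / 2) : ℝ) * f (t * Real.log p)

theorem Nf_S_cont {f : ℝ → ℝ} (hf : Continuous f) (s : ℝ) (G : ℝ → ℝ) (L : ℝ) :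
    Continuous (Nf_S f s G L) := by
  unfold Nf_S
  refine continuous_finsetSum _ fun p _ => ?_
  exact continuous_const.mul (hf.comp (continuous_id.mul continuous_const))

theorem Nf_CPs_cont (s : ℝ) (G : ℝ → ℝ) (L : ℝ) : Continuous (CPs s G L) := by
  unfold CPs
  refine continuous_finsetSum _ fun p _ => ?_
  exact continuous_const.mul (Real.continuous_cos.comp (continuous_id.mul continuous_const))

theorem Nf_S_add (f : ℝ → ℝ) (s : ℝ) {G G1 G2 : ℝ → ℝ} (h : ∀ x, 0 < x → G x = G1 x + G2 x)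
    {L : ℝ} (hL : 0 < L) (t : ℝ) : Nf_S f s G L t = Nf_S f s G1 L t + Nf_S f s G2 L t := by
  unfold Nf_S
  rw [← Finset.sum_add_distrib]
  refine Finset.sum_congr rfl fun p hp => ?_
  have hp2 : 2 ≤ p := by
    unfold PS at hp
    exact (Finset.mem_Icc.1 (Finset.mem_filter.1 hp).1).1
  have hp3 : (1 : ℝ) < p := by exact_mod_cast hp2
  rw [h _ (div_pos (Real.log_pos hp3) hL)]
  ring

theorem Nf_add_pow {x y : ℝ} (k : ℕ) :
    (x + y) ^ (2 * k) ≤ 2 ^ (2 * k) * (x ^ (2 * k) + y ^ (2 * k)) := by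
  calc (x + y) ^ (2 * k) = |x + y| ^ (2 * k) := ((even_two_mul k).pow_abs _).symm
    _ ≤ (|x| + |y|) ^ (2 * k) := pow_le_pow_left₀ (abs_nonneg _) (abs_add_le _ _) _
    _ ≤ 2 ^ (2 * k) * (|x| ^ (2 * k) + |y| ^ (2 * k)) :=
        Mg_add_pow (abs_nonneg _) (abs_nonneg _) _
    _ = 2 ^ (2 * k) * (x ^ (2 * k) + y ^ (2 * k)) := by
        rw [(even_two_mul k).pow_abs, (even_two_mul k).pow_abs]

/-- A `C¹` function vanishing at `0` and beyond `s` is at most `D x` for `x ≥ 0`. -/
theorem Nf_lin {G : ℝ → ℝ} (hG : ContDiff ℝ ∞ G) (hG0 : G 0 = 0) {s : ℝ}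
    (hsupp : ∀ x, s ≤ x → G x = 0) : ∃ D, 0 ≤ D ∧ ∀ x, 0 ≤ x → |G x| ≤ D * x := by
  have hd : Continuous (deriv G) := hG.continuous_deriv (by simp)
  obtain ⟨D, hD⟩ := (isCompact_Icc (a := (0 : ℝ)) (b := max s 0)).exists_bound_of_continuousOn
    hd.continuousOn
  refine ⟨|D|, abs_nonneg _, fun x hx => ?_⟩
  rcases le_or_gt s x with h | h
  · rw [hsupp x h, abs_zero]
    positivity
  · have h1 : x ∈ Icc (0 : ℝ) (max s 0) := ⟨hx, h.le.trans (le_max_left _ _)⟩
    have h0 : (0 : ℝ) ∈ Icc (0 : ℝ) (max s 0) := ⟨le_refl _, le_max_right _ _⟩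
    have h2 := Convex.norm_image_sub_le_of_norm_deriv_le (f := G) (C := |D|)
      (s := Icc (0 : ℝ) (max s 0)) (x := 0) (y := x)
      (fun y _ => (hG.differentiable (by simp)).differentiableAt)
      (fun y hy => (hD y hy).trans (le_abs_self D)) (convex_Icc _ _) h0 h1
    rw [hG0, sub_zero, sub_zero, Real.norm_eq_abs, Real.norm_eq_abs, abs_of_nonneg hx] at h2
    exact h2

theorem Nf_gen {f : ℝ → ℝ} (hf : Continuous f)
    (hshort : ∀ {G : ℝ → ℝ}, Continuous G → ∀ {D : ℝ}, 0 ≤ D → (∀ x, 0 ≤ x → |G x| ≤ D * x) →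
      ∀ {s e : ℝ}, 0 < e → e ≤ s → (∀ x, e ≤ x → G x = 0) → ∀ k : ℕ, 2 * (k : ℝ) * e < 1 →
      ∀ c C : ℝ, 0 < c → c < C → ∃ K : ℝ, ∀ᶠ T in atTop,
        ∫ t in (c * T)..(C * T), Nf_S f s G (Real.log T) t ^ (2 * k) ≤ K * T)
    (hhigh : ∀ {G : ℝ → ℝ}, ContDiff ℝ ∞ G → ∀ {α s : ℝ}, 0 < α → α < s →
      (∀ x, x ≤ α ∨ s ≤ x → G x = 0) → Mom (fun T t => Nf_S f s G (Real.log T) t))
    {G : ℝ → ℝ} (hG : ContDiff ℝ ∞ G) (hG0 : G 0 = 0) {s : ℝ} (hs : 0 < s)
    (hsupp : ∀ x, s ≤ x → G x = 0) : Mom (fun T t => Nf_S f s G (Real.log T) t) := by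
  refine ⟨Eventually.of_forall fun T => Nf_S_cont hf _ _ _, fun k c C hc hcC => ?_⟩
  obtain ⟨D, hD0, hD⟩ := Nf_lin hG hG0 hsupp
  obtain ⟨e, he⟩ : ∃ e : ℝ, e = min s (1 / (4 * ((k : ℝ) + 1))) := ⟨_, rfl⟩
  have hk0 : (0 : ℝ) ≤ k := Nat.cast_nonneg k
  have hk1 : (0 : ℝ) < 4 * ((k : ℝ) + 1) := by positivity
  have he0 : 0 < e := by
    rw [he]
    exact lt_min hs (by positivity)
  have hes : e ≤ s := by
    rw [he]
    exact min_le_left _ _
  have hek : 2 * (k : ℝ) * e < 1 := by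
    have h1 : e ≤ 1 / (4 * ((k : ℝ) + 1)) := by
      rw [he]
      exact min_le_right _ _
    have h2 : 2 * (k : ℝ) * e ≤ 2 * (k : ℝ) * (1 / (4 * ((k : ℝ) + 1))) :=
      mul_le_mul_of_nonneg_left h1 (by positivity)
    have h3 : 2 * (k : ℝ) * (1 / (4 * ((k : ℝ) + 1))) < 1 := by
      rw [mul_one_div, div_lt_one hk1]
      linarith
    linarith
  obtain ⟨ρ, hρ, hρ0, hρ1, hρn, hρl⟩ := exists_nice_plateau (s := e / 4) (s' := e / 2)
    (by positivity) (by linarith)
  obtain ⟨K1, hK1⟩ := hshort (G := fun x => G x * ρ x) (hG.continuous.mul hρ.continuous) hD0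
    (fun x hx => by
      rw [abs_mul, abs_of_nonneg (hρn x)]
      calc |G x| * ρ x ≤ |G x| * 1 := mul_le_mul_of_nonneg_left (hρl x) (abs_nonneg _)
        _ = |G x| := mul_one _
        _ ≤ D * x := hD x hx) he0 hes
    (fun x hx => by
      have h1 : ρ x = 0 := hρ0 x (by
        have := le_abs_self x
        linarith)
      rw [h1, mul_zero]) k hek c C hc hcC
  have hθ : ContDiff ℝ ∞ (fun x : ℝ => Real.smoothTransition (8 / e * x - 1)) :=
    Real.smoothTransition.contDiff.comp ((contDiff_const.mul contDiff_id).sub contDiff_const)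
  have hG2 : ContDiff ℝ ∞ (fun x => G x * (1 - ρ x) * Real.smoothTransition (8 / e * x - 1)) :=
    (hG.mul (contDiff_const.sub hρ.smooth)).mul hθ
  have hM2 := hhigh hG2 (α := e / 8) (s := s) (by positivity) (by linarith) (by
    rintro x (hx | hx)
    · have h1 : 8 / e * x - 1 ≤ 0 := by
        have h2 : 8 / e * x ≤ 8 / e * (e / 8) := mul_le_mul_of_nonneg_left hx (by positivity)
        have h3 : 8 / e * (e / 8) = 1 := by field_simp
        linarith
      rw [Real.smoothTransition.zero_of_nonpos h1, mul_zero]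
    · rw [hsupp x hx, zero_mul, zero_mul])
  obtain ⟨K2, hK2⟩ := hM2.bdd k c C hc hcC
  refine ⟨2 ^ (2 * k) * (K1 + K2), ?_⟩
  filter_upwards [hK1, hK2, Real.tendsto_log_atTop.eventually_ge_atTop 1, eventually_ge_atTop 1]
    with T h1 h2 hL hT
  have hT0 : 0 < T := by linarith
  have hab : c * T ≤ C * T := mul_le_mul_of_nonneg_right hcC.le hT0.le
  have hL0 : 0 < Real.log T := by linarith
  have hdec : ∀ x, 0 < x → G x = G x * ρ x +
      G x * (1 - ρ x) * Real.smoothTransition (8 / e * x - 1) := by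
    intro x hx
    rcases le_or_gt x (e / 4) with h | h
    · have h3 : ρ x = 1 := hρ1 x (by rwa [abs_of_pos hx])
      rw [h3]
      ring
    · have h3 : (1 : ℝ) ≤ 8 / e * x - 1 := by
        have h4 : 8 / e * (e / 4) ≤ 8 / e * x := mul_le_mul_of_nonneg_left h.le (by positivity)
        have h5 : 8 / e * (e / 4) = 2 := by field_simp; norm_num
        linarith
      rw [Real.smoothTransition.one_of_one_le h3]
      ring
  have hc1 : Continuous (Nf_S f s (fun x => G x * ρ x) (Real.log T)) := Nf_S_cont hf _ _ _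
  have hc2 : Continuous (Nf_S f s (fun x => G x * (1 - ρ x) *
      Real.smoothTransition (8 / e * x - 1)) (Real.log T)) := Nf_S_cont hf _ _ _
  have hpt : ∀ t ∈ Icc (c * T) (C * T), Nf_S f s G (Real.log T) t ^ (2 * k) ≤
      2 ^ (2 * k) * (Nf_S f s (fun x => G x * ρ x) (Real.log T) t ^ (2 * k) +
        Nf_S f s (fun x => G x * (1 - ρ x) * Real.smoothTransition (8 / e * x - 1))
          (Real.log T) t ^ (2 * k)) := by
    intro t _
    rw [Nf_S_add f s hdec hL0 t]
    exact Nf_add_pow k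
  have hi1 : Continuous (fun t => Nf_S f s (fun x => G x * ρ x) (Real.log T) t ^ (2 * k)) :=
    hc1.pow (2 * k)
  have hi2 : Continuous (fun t => Nf_S f s (fun x => G x * (1 - ρ x) *
      Real.smoothTransition (8 / e * x - 1)) (Real.log T) t ^ (2 * k)) := hc2.pow (2 * k)
  have hi3 : Continuous (fun t => 2 ^ (2 * k) * (Nf_S f s (fun x => G x * ρ x) (Real.log T) t ^ (2 * k)
      + Nf_S f s (fun x => G x * (1 - ρ x) * Real.smoothTransition (8 / e * x - 1))
          (Real.log T) t ^ (2 * k))) := (hi1.add hi2).const_mul (2 ^ (2 * k))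
  have hmono := intervalIntegral.integral_mono_on (μ := volume) hab
    (((Nf_S_cont hf s G (Real.log T)).pow (2 * k)).intervalIntegrable _ _)
    (hi3.intervalIntegrable _ _) hpt
  refine hmono.trans ?_
  rw [intervalIntegral.integral_const_mul, intervalIntegral.integral_add
    (hi1.intervalIntegrable _ _) (hi2.intervalIntegrable _ _)]
  have e1 : 2 ^ (2 * k) * (K1 + K2) * T = 2 ^ (2 * k) * (K1 * T + K2 * T) := by ring
  rw [e1]
  exact mul_le_mul_of_nonneg_left (add_le_add h1 h2) (by positivity)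

section
variable {F : ℝ → Finset PC.Z} {CR : ℝ} {γ w : PC.Z → ℝ} [Countable PC.Z]

/-- (1) -/
theorem mom_CPs (I : Inputs γ w F CR) {a : ℝ} (ha : 1 / 2 < a) (hP : PoissonInput γ w a (PC.arch a))
    {G : ℝ → ℝ} (hG : ContDiff ℝ ∞ G) (hG0 : G 0 = 0) {s : ℝ} (hs : 0 < s) (hsupp : ∀ x, s ≤ x → G x = 0) :
    Mom (fun T t => CPs s G (Real.log T) t) := by
  refine Nf_gen Real.continuous_cos ?_ ?_ hG hG0 hs hsupp
  · intro G hGc D hD hGD s e he hes hz k hk c C hc hcC
    obtain ⟨K, hK⟩ := short_moment I.prime hGc hD hGD he hes hz k hk c C hc hcC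
    exact ⟨K, hK.mono fun T h => h.1⟩
  · intro G hG α s hα hαs hsupp
    exact mom_CPs_high I ha hP hG hα hαs hsupp

/-- (2) -/
theorem mom_SPs (I : Inputs γ w F CR) {a : ℝ} (ha : 1 / 2 < a) (hP : PoissonInput γ w a (PC.arch a))
    {G : ℝ → ℝ} (hG : ContDiff ℝ ∞ G) (hG0 : G 0 = 0) {s : ℝ} (hs : 0 < s) (hsupp : ∀ x, s ≤ x → G x = 0) :
    Mom (fun T t => SPs s G (Real.log T) t) := by
  refine Nf_gen Real.continuous_sin ?_ ?_ hG hG0 hs hsupp
  · intro G hGc D hD hGD s e he hes hz k hk c C hc hcC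
    obtain ⟨K, hK⟩ := short_moment I.prime hGc hD hGD he hes hz k hk c C hc hcC
    exact ⟨K, hK.mono fun T h => h.2⟩
  · intro G hG α s hα hαs hsupp
    exact mom_SPs_high I ha hP hG hα hαs hsupp

/-- (3) -/
theorem win_approx (I : Inputs γ w F CR) {a : ℝ} (ha : 1 / 2 < a) (hP : PoissonInput γ w a (PC.arch a))
    {v : ℝ → ℝ} (hv : Wgt v) {s δ : ℝ} {κ : ℝ → ℝ} (hκ : Ker s κ) (hs : 0 < s) (hδ : 0 < δ) :
    Tendsto (fun T => EE v T (fun t => (δ - 2 * CPs s (fun x => cosT κ x * (Real.sin (π * δ * x) / π)) (Real.log T) t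
      - SS γ w (win κ δ) (Real.log T) t) ^ 2)) atTop (𝓝 0) := by
  obtain ⟨hN, hinv, hz⟩ := nice_win hκ hs hδ
  have hinv' : cosT (cosT (win κ δ)) = win κ δ := funext hinv
  have hfun : (fun x => cosT κ x * (Real.sin (π * δ * x) / π)) =
      fun x => x * cosT (win κ δ) x := by
    funext x
    by_cases hx : x = 0
    · rw [hx]
      simp
    · rw [cosT_win hκ hδ hx]
      field_simp
  have hχ0 := cosT_win_zero hκ hδ
  rw [hfun]
  have hpp := pp_mean I.prime hv hN hs hz
  rw [hinv'] at hpp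
  have htest : TestFn s (win κ δ) := by
    have h1 := (hN.reg hz).test
    rwa [hinv'] at h1
  obtain ⟨a', b', ha', hab', hsup⟩ := hv.supp
  obtain ⟨V, hV⟩ : ∃ V : ℝ, V = ∫ x, v x := ⟨_, rfl⟩
  have hV0 : 0 ≤ V := by
    rw [hV]
    exact integral_nonneg hv.nonneg
  rw [Metric.tendsto_nhds]
  intro ε' hε'
  obtain ⟨ε, hε⟩ : ∃ ε : ℝ, ε = √(ε' / (4 * (V + 1))) := ⟨_, rfl⟩
  have hε0 : 0 < ε := by
    rw [hε]
    apply Real.sqrt_pos.2
    positivity
  have hε2 : ε ^ 2 = ε' / (4 * (V + 1)) := by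
    rw [hε, Real.sq_sqrt (by positivity)]
  have hεV : 2 * ε ^ 2 * V ≤ ε' / 2 := by
    rw [hε2]
    have h1 : 2 * (ε' / (4 * (V + 1))) * V = ε' / 2 * (V / (V + 1)) := by
      field_simp
      ring
    rw [h1]
    have h2 : V / (V + 1) ≤ 1 := by
      rw [div_le_one (by positivity)]
      linarith
    calc ε' / 2 * (V / (V + 1)) ≤ ε' / 2 * 1 := mul_le_mul_of_nonneg_left h2 (by positivity)
      _ = ε' / 2 := mul_one _
  have hpp2 : ∀ᶠ T in atTop, EE v T (fun t => (WW (win κ δ) (Real.log T) t -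
      2 * CPs s (fun x => x * cosT (win κ δ) x) (Real.log T) t) ^ 2) < ε' / 8 := by
    have := (tendsto_order.1 hpp).2 (ε' / 8) (by positivity)
    exact this
  have hdel := delta_long I ha hP hN ha' hab' hε0
  rw [hinv', hχ0] at hdel
  filter_upwards [hpp2, hdel, Real.tendsto_log_atTop.eventually_ge_atTop (2 * π),
    eventually_gt_atTop 0] with T h1 h2 hL hT
  have hπ := Real.pi_pos
  have hL0 : 0 < Real.log T := lt_of_lt_of_le (by positivity) hL
  have hWc : Continuous (WW (win κ δ) (Real.log T)) := continuous_WW htest hL0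
  have hCc : Continuous (CPs s (fun x => x * cosT (win κ δ) x) (Real.log T)) :=
    Nf_CPs_cont _ _ _
  have hvc : Continuous (fun t => v (t / T)) := hv.smooth.continuous.comp (continuous_id.div_const T)
  have hvs : HasCompactSupport (fun t => v (t / T)) := by
    refine HasCompactSupport.intro (K := Icc (a' * T) (b' * T)) isCompact_Icc fun t ht => ?_
    apply hsup
    intro h
    apply ht
    rw [mem_Icc, le_div_iff₀ hT, div_le_iff₀ hT] at h
    exact h
  rw [Real.dist_eq, sub_zero]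
  have hnn : 0 ≤ EE v T (fun t => (δ - 2 * CPs s (fun x => x * cosT (win κ δ) x) (Real.log T) t
      - SS γ w (win κ δ) (Real.log T) t) ^ 2) := by
    unfold EE
    apply mul_nonneg (by positivity)
    exact integral_nonneg fun t => mul_nonneg (hv.nonneg _) (sq_nonneg _)
  rw [abs_of_nonneg hnn]
  have hle : ∫ t, v (t / T) * (δ - 2 * CPs s (fun x => x * cosT (win κ δ) x) (Real.log T) t
      - SS γ w (win κ δ) (Real.log T) t) ^ 2 ≤
      ∫ t, (v (t / T) * (2 * ε ^ 2) + 2 * (v (t / T) * (WW (win κ δ) (Real.log T) t -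
        2 * CPs s (fun x => x * cosT (win κ δ) x) (Real.log T) t) ^ 2)) := by
    refine integral_mono_of_nonneg ?_ ?_ ?_
    · exact Eventually.of_forall fun t => mul_nonneg (hv.nonneg _) (sq_nonneg _)
    · have c1 : Continuous (fun t => v (t / T) * (2 * ε ^ 2)) := hvc.mul continuous_const
      have c2 : Continuous (fun t => v (t / T) * (WW (win κ δ) (Real.log T) t -
        2 * CPs s (fun x => x * cosT (win κ δ) x) (Real.log T) t) ^ 2) :=
        hvc.mul ((hWc.sub (continuous_const.mul hCc)).pow 2)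
      have i1 : Integrable (fun t => v (t / T) * (2 * ε ^ 2)) :=
        c1.integrable_of_hasCompactSupport hvs.mul_right
      have i2 : Integrable (fun t => v (t / T) * (WW (win κ δ) (Real.log T) t -
        2 * CPs s (fun x => x * cosT (win κ δ) x) (Real.log T) t) ^ 2) :=
        c2.integrable_of_hasCompactSupport hvs.mul_right
      exact i1.add (i2.const_mul 2)
    · refine Eventually.of_forall fun t => ?_
      beta_reduce
      by_cases ht : t / T ∈ Icc a' b'
      · have ht' : t ∈ Icc (a' * T) (b' * T) := by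
          rw [mem_Icc, le_div_iff₀ hT, div_le_iff₀ hT] at ht
          exact ht
        have h3 := h2 t ht'
        obtain ⟨x, hx⟩ : ∃ x, x = SS γ w (win κ δ) (Real.log T) t -
          (δ - WW (win κ δ) (Real.log T) t) := ⟨_, rfl⟩
        obtain ⟨y, hy⟩ : ∃ y, y = WW (win κ δ) (Real.log T) t -
          2 * CPs s (fun x => x * cosT (win κ δ) x) (Real.log T) t := ⟨_, rfl⟩
        rw [← hx] at h3
        have h4 : x ^ 2 ≤ ε ^ 2 := by
          rw [← sq_abs x]
          exact pow_le_pow_left₀ (abs_nonneg _) h3 2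
        have h5 : δ - 2 * CPs s (fun x => x * cosT (win κ δ) x) (Real.log T) t
            - SS γ w (win κ δ) (Real.log T) t = y - x := by
          rw [hx, hy]
          ring
        rw [h5, ← hy]
        have h6 : (y - x) ^ 2 ≤ 2 * ε ^ 2 + 2 * y ^ 2 := by
          nlinarith [sq_nonneg (y + x)]
        have h7 := mul_le_mul_of_nonneg_left h6 (hv.nonneg (t / T))
        calc v (t / T) * (y - x) ^ 2 ≤ v (t / T) * (2 * ε ^ 2 + 2 * y ^ 2) := h7
          _ = v (t / T) * (2 * ε ^ 2) + 2 * (v (t / T) * y ^ 2) := by ring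
      · rw [hsup _ ht]
        simp
  have hsplit : ∫ t, (v (t / T) * (2 * ε ^ 2) + 2 * (v (t / T) * (WW (win κ δ) (Real.log T) t -
        2 * CPs s (fun x => x * cosT (win κ δ) x) (Real.log T) t) ^ 2)) =
      T * V * (2 * ε ^ 2) + 2 * ∫ t, v (t / T) * (WW (win κ δ) (Real.log T) t -
        2 * CPs s (fun x => x * cosT (win κ δ) x) (Real.log T) t) ^ 2 := by
    have c1 : Continuous (fun t => v (t / T) * (2 * ε ^ 2)) := hvc.mul continuous_const
    have c2 : Continuous (fun t => v (t / T) * (WW (win κ δ) (Real.log T) t -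
      2 * CPs s (fun x => x * cosT (win κ δ) x) (Real.log T) t) ^ 2) :=
      hvc.mul ((hWc.sub (continuous_const.mul hCc)).pow 2)
    have i1 : Integrable (fun t => v (t / T) * (2 * ε ^ 2)) :=
      c1.integrable_of_hasCompactSupport hvs.mul_right
    have i2 : Integrable (fun t => v (t / T) * (WW (win κ δ) (Real.log T) t -
      2 * CPs s (fun x => x * cosT (win κ δ) x) (Real.log T) t) ^ 2) :=
      c2.integrable_of_hasCompactSupport hvs.mul_right
    rw [integral_add i1 (i2.const_mul 2), integral_const_mul, integral_mul_const]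
    have h8 : ∫ t, v (t / T) = T * V := by
      rw [MeasureTheory.Measure.integral_comp_div, smul_eq_mul, abs_of_pos hT, hV]
    rw [h8]
  have hfin : EE v T (fun t => (δ - 2 * CPs s (fun x => x * cosT (win κ δ) x) (Real.log T) t
      - SS γ w (win κ δ) (Real.log T) t) ^ 2) ≤ 2 * ε ^ 2 * V +
      2 * EE v T (fun t => (WW (win κ δ) (Real.log T) t -
        2 * CPs s (fun x => x * cosT (win κ δ) x) (Real.log T) t) ^ 2) := by
    unfold EE
    rw [hsplit] at hle
    have h9 := mul_le_mul_of_nonneg_left hle (show 0 ≤ 1 / T by positivity)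
    refine h9.trans (le_of_eq ?_)
    field_simp
  linarith

end

end Pool.Agent.H98.HF
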