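import Mathlib
import Pool.Agent.H98.GP.Mk
import Pool.Agent.H67.HF.Defs2

/-!
# MP_103a5c_HF: moments of the coefficients `h_k` (short prime sums)
-/

open MeasureTheory Set Filter Topology
open scoped Real Interval ContDiff

namespace Pool.Agent.H98.HF

open Pool.Agent.H6 Pool.Agent.H14.GP Pool.Agent.H98.GP Pool.Agent.H24.HF Pool.Agent.H67.HF

variable {ι : Type*} [Countable ι] {γ w : ι → ℝ} {F : ℝ → Finset ι} {CR : ℝ}

theorem Ph_cell (I : Inputs γ w F CR) {M : ℕ} {θ : ℝ} {Gc : ℕ → ℝ → ℝ} (hG : Cells1 M θ Gc) (j : ℕ) :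
    Mom (fun T t => ‖ev t (bb (Gc j) T : DPoly)‖) := by
  obtain ⟨a, ha, hlow⟩ := hG.low
  have hM : (0 : ℝ) < M := by
    have := hG.M_pos
    exact_mod_cast (by omega : 0 < M)
  have hθ := hG.θ_lt
  have hθ0 := hG.θ_pos
  refine mom_norm_bb I (hG.smooth j) (α := min a (θ / 2)) (β := θ) (lt_min ha (by linarith)) ?_ hθ ?_
  · exact (min_le_right _ _).trans_lt (by linarith)
  · rintro x (hx | hx)
    · exact hlow j x (hx.trans (min_le_left _ _))
    · by_contra hne
      have h1 := (hG.cell j x hne).2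
      by_cases hj : j < 1 ∨ M ≤ j
      · exact hne (hG.out j hj x)
      · push Not at hj
        have h2 : (j : ℝ) ≤ M := by exact_mod_cast hj.2.le
        have h3 : θ * j / M ≤ θ := by
          rw [div_le_iff₀ hM]
          exact mul_le_mul_of_nonneg_left h2 hθ0.le
        linarith

theorem Ph_cont (Gc : ℕ → ℝ → ℝ) {T : ℝ} (hT : 0 < T) (k : ℕ) : Continuous (fun t => hh Gc T t k) := by
  unfold hh
  induction k using Nat.strong_induction_on with
  | _ k ih =>
    rcases k with _ | k
    · simp only [cf]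
      exact continuous_const
    · simp only [cf]
      have hj : ∀ j : Fin (k + 1), Continuous (fun t => (((j : ℕ) : ℝ) + 1) • (ev t (bb (Gc ((j : ℕ) + 1)) T) *
          cf (-1) (fun j => ev t (bb (Gc j) T)) (k - j))) := fun j =>
        ((Mk_continuous_ev _ hT).mul (ih _ (by omega))).const_smul (((j : ℕ) : ℝ) + 1)
      exact (continuous_finsetSum _ fun j _ => hj j).const_smul ((-1 : ℝ) / ((k : ℝ) + 1))

theorem mom_h (I : Inputs γ w F CR) {M : ℕ} {θ : ℝ} {Gc : ℕ → ℝ → ℝ} (hG : Cells1 M θ Gc) (k : ℕ) :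
    Mom (fun T t => ‖hh Gc T t k‖) := by
  induction k using Nat.strong_induction_on with
  | _ k ih =>
    rcases k with _ | k
    · have : (fun T t => ‖hh Gc T t 0‖) = fun _ _ => (1 : ℝ) := by
        funext T t
        simp only [hh, cf, norm_one]
      rw [this]
      exact Mom.const 1
    · have hm : Mom (fun T t => ∑ j : Fin (k + 1), (((j : ℕ) : ℝ) + 1) *
          (‖ev t (bb (Gc ((j : ℕ) + 1)) T : DPoly)‖ * ‖hh Gc T t (k - j)‖)) :=
        Mom.sum Finset.univ fun j _ => ((Ph_cell I hG _).mul (ih _ (by omega))).const_mul _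
      refine Mom.of_le ?_ hm fun c C _ _ => ⟨1, Eventually.of_forall fun T t _ => ?_⟩
      · filter_upwards [eventually_gt_atTop (0 : ℝ)] with T hT
        exact (Ph_cont Gc hT (k + 1)).norm
      · rw [abs_of_nonneg (norm_nonneg _), one_mul]
        refine le_trans ?_ ((le_abs_self _).trans (le_add_of_nonneg_right zero_le_one))
        have h0 : hh Gc T t (k + 1) = ((-1 : ℝ) / ((k : ℝ) + 1)) • ∑ j : Fin (k + 1), (((j : ℕ) : ℝ) + 1) •
            (ev t (bb (Gc ((j : ℕ) + 1)) T) * hh Gc T t (k - j)) := by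
          simp only [hh, cf]
        rw [h0, norm_smul]
        have h1 : ‖(-1 : ℝ) / ((k : ℝ) + 1)‖ ≤ 1 := by
          rw [Real.norm_eq_abs, abs_div, abs_neg, abs_one, abs_of_pos (by positivity)]
          rw [div_le_one (by positivity)]
          have : (0 : ℝ) ≤ k := Nat.cast_nonneg k
          linarith
        refine (mul_le_of_le_one_left (norm_nonneg _) h1).trans ?_
        refine (norm_sum_le _ _).trans (Finset.sum_le_sum fun j _ => ?_)
        rw [norm_smul, norm_mul, Real.norm_eq_abs, abs_of_nonneg (by positivity)]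

end Pool.Agent.H98.HF
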