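import Mathlib
import Pool.Agent.H98.HF.D
import Pool.Agent.H98.HF.Nb
import Pool.Agent.H98.HF.Nf
import Pool.Agent.H98.HF.Ph
import Pool.Agent.H6.Final

/-!
# MP_103a5c_HF: moments of the long prime sum `P(t)`
-/

open MeasureTheory Set Filter Topology
open scoped Real Interval ContDiff

namespace Pool.Agent.H98.HF

open Pool.Agent Pool.Agent.H6 Pool.Agent.H14.GP Pool.Agent.H98.GP Pool.Agent.H24.HF Pool.Agent.H67.HF

theorem Pp_PS (W L : ℝ) : PS 1 (W * L) = PS W L := by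
  unfold PS
  rw [one_mul]

theorem Pp_ev (H : ℝ → ℝ) {W T : ℝ} (hW : 0 < W) (hT : 1 < T) (t : ℝ) :
    ev t (bbW H W T) = (CPs W H (Real.log T) t : ℂ) - (SPs W H (Real.log T) t : ℂ) * Complex.I := by
  have hT0 : 0 < T := by linarith
  unfold bbW
  rw [ev_bb _ (Real.rpow_pos_of_pos hT0 W), Real.log_rpow hT0]
  unfold CP SP CPs SPs
  rw [Pp_PS]
  have h : ∀ p : ℕ, W * (Real.log p / (W * Real.log T)) = Real.log p / Real.log T := by
    intro p
    field_simp
  simp only [h]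

theorem Pp_contW (H : ℝ → ℝ) {W T : ℝ} (hT : 0 < T) : Continuous (fun t => ev t (bbW H W T)) := by
  unfold bbW
  exact Mk_continuous_ev _ (Real.rpow_pos_of_pos hT W)

theorem Gd_eq (χ : ℝ → ℝ) {δ : ℝ} (hδ : 0 < δ) : Gd χ δ = fun u => χ u * (Real.sin (π * δ * u) / π) := by
  funext u
  unfold Gd hd
  by_cases hu : u = 0
  · subst hu
    simp
  · have hπ := Real.pi_pos
    rw [Real.sinc_of_ne_zero (by positivity)]
    field_simp

theorem contDiff_Gd {χ : ℝ → ℝ} (hχ : ContDiff ℝ ∞ χ) {δ : ℝ} (hδ : 0 < δ) : ContDiff ℝ ∞ (Gd χ δ) := by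
  rw [Gd_eq χ hδ]
  refine hχ.mul (ContDiff.div_const ?_ _)
  exact Real.contDiff_sin.comp (contDiff_const.mul contDiff_id)

/-- `P(t)` in terms of real prime sums -/
theorem PP1_eq {χ : ℝ → ℝ} {D δ : ℝ} (hW : Win2 χ D) {T : ℝ} (hT : 1 < T) (t : ℝ) :
    PP1 χ δ D T t = (CPs D (Gd χ δ) (Real.log T) t : ℂ) - (SPs D (Gd χ δ) (Real.log T) t : ℂ) * Complex.I :=
  Pp_ev _ (by linarith [hW.D_pos]) hT t

theorem mom_P (RH : RiemannHypothesis) {χ : ℝ → ℝ} {D δ : ℝ} (hW : Win2 χ D) (hδ : 0 < δ) :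
    Mom (fun T t => ‖PP1 χ δ D T t‖) := by
  obtain ⟨CR, I⟩ := exists_inputs RH
  obtain ⟨a, ha, hP⟩ := zeta_poisson RH
  have hD : 0 < D := by linarith [hW.D_pos]
  have hG := contDiff_Gd hW.smooth hδ
  have hG0 : Gd χ δ 0 = 0 := by simp [Gd]
  have hsupp : ∀ x, D ≤ x → Gd χ δ x = 0 := by
    intro x hx
    unfold Gd hd
    rw [hW.supp x (hx.trans (le_abs_self x))]
    ring
  have h1 := mom_CPs I ha hP hG hG0 hD hsupp
  have h2 := mom_SPs I ha hP hG hG0 hD hsupp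
  refine Mom.of_le ?_ ((h1.mul h1).add (h2.mul h2)) ?_
  · filter_upwards [eventually_gt_atTop (0 : ℝ)] with T hT
    unfold PP1
    exact (Pp_contW _ hT).norm
  · intro c C _ _
    refine ⟨1, ?_⟩
    filter_upwards [eventually_gt_atTop (1 : ℝ)] with T hT
    intro t _
    rw [abs_of_nonneg (norm_nonneg _), PP1_eq hW hT t]
    set x := CPs D (Gd χ δ) (Real.log T) t
    set y := SPs D (Gd χ δ) (Real.log T) t
    have h3 : ‖(x : ℂ) - (y : ℂ) * Complex.I‖ ≤ |x| + |y| := by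
      refine (norm_sub_le _ _).trans ?_
      rw [norm_mul, Complex.norm_I, mul_one, Complex.norm_real, Complex.norm_real, Real.norm_eq_abs, Real.norm_eq_abs]
    refine h3.trans ?_
    have h4 : 0 ≤ x * x + y * y := by nlinarith [mul_self_nonneg x, mul_self_nonneg y]
    rw [one_mul, abs_of_nonneg h4]
    have h5 : |x| * |x| = x * x := abs_mul_abs_self _
    have h6 : |y| * |y| = y * y := abs_mul_abs_self _
    nlinarith [mul_self_nonneg (|x| - 1 / 2), mul_self_nonneg (|y| - 1 / 2)]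

end Pool.Agent.H98.HF
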