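import Mathlib
import Pool.Agent.H5.HF.Psi
import Pool.Agent.H98.GP.D
import Pool.Agent.H6.Local

/-!
# MP_103a5c_HF: the averaged count at a separated point
-/

open MeasureTheory Set Filter Topology
open scoped Real Interval ContDiff

namespace Pool.Agent.H98.HF

open Pool.Agent.H6 Pool.Agent.H98.GP Pool.Agent.H67.HF Pool.Agent.H5.HF

section
variable {χ : ℝ → ℝ} {D δ : ℝ}

theorem Pc_k (hW : Win2 χ D) : Continuous (cosT χ) ∧ Integrable (cosT χ) ∧ ∫ y, cosT χ y = 1 := by
  obtain ⟨hc, C, hC0, hC⟩ := nice_decay (nice_chi hW)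
  have hi : Integrable (cosT χ) := by
    apply Integrable.mono' (integrable_inv_one_add_sq.const_mul C) hc.aestronglyMeasurable
    refine ae_of_all _ fun x => ?_
    rw [Real.norm_eq_abs]
    refine (hC x).trans ?_
    rw [div_eq_mul_inv]
    refine mul_le_mul_of_nonneg_left ?_ hC0
    apply inv_anti₀ (by positivity)
    have h1 : (1 : ℝ) ≤ 1 + x ^ 2 := by nlinarith [sq_nonneg x]
    exact le_self_pow₀ h1 (by norm_num)
  refine ⟨hc, hi, ?_⟩
  have := (nice_chi hW).inv 0
  rw [cosT_zero_eq] at this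
  rw [this, hW.zero]

/-- the window is the average of the indicator function -/
theorem psi_eq (hW : Win2 χ D) (hδ : 0 < δ) (x : ℝ) :
    psi χ δ x = ∫ y in Ioc (x - δ / 2) (x + δ / 2), cosT χ y := by
  have hχi := (nice_chi hW).integrable
  obtain ⟨hkc, hki, hk1⟩ := Pc_k hW
  set μ := (volume : Measure ℝ).restrict (Ioc (-(δ / 2)) (δ / 2)) with hμ
  have h1 : psi χ δ x = ∫ u, ∫ y, χ u * Real.cos (2 * π * u * x) * Real.cos (2 * π * u * y) ∂μ := by
    unfold psi
    unfold cosT hd
    refine integral_congr_ae (ae_of_all _ fun u => ?_)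
    simp only
    rw [sinc_int, intervalIntegral.integral_of_le (by linarith), ← hμ, integral_const_mul]
    ring
  have hint : Integrable (Function.uncurry fun u y : ℝ =>
      χ u * Real.cos (2 * π * u * x) * Real.cos (2 * π * u * y)) (volume.prod μ) := by
    have h2 : Integrable (fun z : ℝ × ℝ => χ z.1 * (1 : ℝ)) (volume.prod μ) :=
      hχi.mul_prod (integrable_const (1 : ℝ))
    refine h2.mono' ?_ (ae_of_all _ fun z => ?_)
    · have hχc := hW.smooth.continuous
      exact (by fun_prop : Continuous (Function.uncurry fun u y : ℝ =>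
        χ u * Real.cos (2 * π * u * x) * Real.cos (2 * π * u * y))).aestronglyMeasurable
    · simp only [Function.uncurry]
      rw [Real.norm_eq_abs, abs_mul, abs_mul, abs_of_nonneg (hW.nonneg z.1)]
      have h3 := Real.abs_cos_le_one (2 * π * z.1 * x)
      have h4 := Real.abs_cos_le_one (2 * π * z.1 * z.2)
      have h5 := hW.nonneg z.1
      have h6 : χ z.1 * |Real.cos (2 * π * z.1 * x)| ≤ χ z.1 * 1 := mul_le_mul_of_nonneg_left h3 h5
      calc _ ≤ (χ z.1 * 1) * 1 := mul_le_mul h6 h4 (abs_nonneg _) (by linarith)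
        _ = _ := by ring
  rw [h1, integral_integral_swap hint]
  have h7 : ∀ y, ∫ u, χ u * Real.cos (2 * π * u * x) * Real.cos (2 * π * u * y) =
      (1 / 2) * cosT χ (x + y) + (1 / 2) * cosT χ (x - y) := by
    intro y
    unfold cosT
    rw [← integral_const_mul, ← integral_const_mul,
      ← integral_add ((integrable_mul_cos hχi _).const_mul _) ((integrable_mul_cos hχi _).const_mul _)]
    refine integral_congr_ae (ae_of_all _ fun u => ?_)
    simp only
    rw [mul_add, mul_sub, Real.cos_add, Real.cos_sub]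
    ring
  simp only [h7]
  have e1 : ∫ y, (1 / 2 * cosT χ (x + y) + 1 / 2 * cosT χ (x - y)) ∂μ =
      ∫ y in (-(δ / 2))..(δ / 2), (1 / 2 * cosT χ (x + y) + 1 / 2 * cosT χ (x - y)) := by
    rw [intervalIntegral.integral_of_le (by linarith)]
  have c1 : Continuous fun y => cosT χ (x + y) := hkc.comp (continuous_const.add continuous_id)
  have c2 : Continuous fun y => cosT χ (x - y) := hkc.comp (continuous_const.sub continuous_id)
  rw [e1, intervalIntegral.integral_add ((c1.intervalIntegrable _ _).const_mul _)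
    ((c2.intervalIntegrable _ _).const_mul _), intervalIntegral.integral_const_mul,
    intervalIntegral.integral_const_mul, intervalIntegral.integral_comp_add_left,
    intervalIntegral.integral_comp_sub_left, ← intervalIntegral.integral_of_le (by linarith)]
  have e2 : x - -(δ / 2) = x + δ / 2 := by ring
  have e3 : x + -(δ / 2) = x - δ / 2 := by ring
  rw [e2, e3]
  ring

end

variable {ι : Type*} [Countable ι] {γ w : ι → ℝ} {F : ℝ → Finset ι} {CR : ℝ}

theorem count_good (I : Inputs γ w F CR) {χ : ℝ → ℝ} {D δ : ℝ} (hW : Win2 χ D) (hδ : 0 < δ) :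
    ∃ C : ℝ, 0 ≤ C ∧ ∀ Q : ℝ, 1 ≤ Q → ∀ L : ℝ, 2 * π ≤ L → ∀ t : ℝ, Sep γ w δ Q L t →
      0 ≤ SS γ w (psi χ δ) L t ∧ SS γ w (psi χ δ) L t ≤ 1 + C / (1 + Q ^ 2) * SS γ w ph0 L t := by
  classical
  obtain ⟨hc, he, hn, C, hC0, hC⟩ := psi_facts hW hδ
  obtain ⟨hkc, hki, hk1⟩ := Pc_k hW
  refine ⟨C, hC0, fun Q hQ L hL t hS => ?_⟩
  have hw := I.ord.w_nonneg
  have hph0 : ∀ u, 0 ≤ ph0 u := fun u => by unfold ph0; positivity
  have hph : Summable fun i => w i * ph0 (xx γ L t i) :=
    (I.ord.summable_phi (C := 1) zero_le_one (φ := ph0)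
      (fun u => by rw [abs_of_nonneg (hph0 u)]; unfold ph0; exact le_rfl) hL t).of_abs
  have hps : Summable fun i => w i * psi χ δ (xx γ L t i) := by
    refine (I.ord.summable_phi (C := C) hC0 (φ := psi χ δ) (fun u => ?_) hL t).of_abs
    rw [abs_of_nonneg (hn u)]
    refine (hC u).trans (div_le_div_of_nonneg_left hC0 (by positivity) ?_)
    exact pow_le_pow_right₀ (by nlinarith [sq_nonneg u]) (by norm_num)
  refine ⟨tsum_nonneg fun i => mul_nonneg (hw i) (hn _), ?_⟩
  have hSS : SS γ w (psi χ δ) L t = ∑' i, w i * psi χ δ (xx γ L t i) := rfl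
  have hSP : SS γ w ph0 L t = ∑' i, w i * ph0 (xx γ L t i) := rfl
  rw [hSS, hSP]
  refine hps.tsum_le_of_sum_le fun s => ?_
  rw [← Finset.sum_filter_add_sum_filter_not s (fun i => |xx γ L t i| ≤ Q)]
  refine add_le_add ?_ ?_
  · set A := s.filter fun i => |xx γ L t i| ≤ Q with hA
    have hAQ : ∀ i ∈ A, |xx γ L t i| ≤ Q := fun i hi => (Finset.mem_filter.1 hi).2
    calc ∑ i ∈ A, w i * psi χ δ (xx γ L t i)
        ≤ ∑ i ∈ A, ∫ y in Ioc (xx γ L t i - δ / 2) (xx γ L t i + δ / 2), cosT χ y := by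
          refine Finset.sum_le_sum fun i hi => ?_
          rw [← psi_eq hW hδ]
          exact mul_le_of_le_one_left (hn _) (hS.simple i (hAQ i hi))
      _ = ∫ y in ⋃ i ∈ A, Ioc (xx γ L t i - δ / 2) (xx γ L t i + δ / 2), cosT χ y := by
          rw [integral_biUnion_finset A (fun i _ => measurableSet_Ioc) ?_ fun i _ => hki.integrableOn]
          intro i hi j hj hij
          have h1 := hS.sep i j hij (hAQ i hi) (hAQ j hj)
          rw [Function.onFun, Set.disjoint_left]
          rintro y ⟨hy1, hy2⟩ ⟨hy3, hy4⟩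
          rcases le_abs.1 h1 with h2 | h2 <;> linarith
      _ ≤ ∫ y, cosT χ y := setIntegral_le_integral hki (ae_of_all _ fun y => hW.pos y)
      _ = 1 := hk1
  · calc ∑ i ∈ s.filter (fun i => ¬ |xx γ L t i| ≤ Q), w i * psi χ δ (xx γ L t i)
        ≤ ∑ i ∈ s.filter (fun i => ¬ |xx γ L t i| ≤ Q), C / (1 + Q ^ 2) * (w i * ph0 (xx γ L t i)) := by
          refine Finset.sum_le_sum fun i hi => ?_
          have hi2 : Q < |xx γ L t i| := not_le.1 (Finset.mem_filter.1 hi).2
          set x := xx γ L t i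
          have h1 : Q ^ 2 ≤ x ^ 2 := by
            rw [← sq_abs x]
            exact pow_le_pow_left₀ (by linarith) hi2.le 2
          have h2 : psi χ δ x ≤ C / (1 + Q ^ 2) * ph0 x := by
            refine (hC x).trans ?_
            unfold ph0
            rw [div_mul_div_comm, mul_one]
            refine div_le_div_of_nonneg_left hC0 (by positivity) ?_
            calc (1 + Q ^ 2) * (1 + x ^ 2) ^ 2 ≤ (1 + x ^ 2) * (1 + x ^ 2) ^ 2 :=
                  mul_le_mul_of_nonneg_right (by linarith) (by positivity)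
              _ = _ := by ring
          calc w i * psi χ δ x ≤ w i * (C / (1 + Q ^ 2) * ph0 x) := mul_le_mul_of_nonneg_left h2 (hw i)
            _ = _ := by ring
      _ = C / (1 + Q ^ 2) * ∑ i ∈ s.filter (fun i => ¬ |xx γ L t i| ≤ Q), w i * ph0 (xx γ L t i) := by
          rw [Finset.mul_sum]
      _ ≤ C / (1 + Q ^ 2) * ∑' i, w i * ph0 (xx γ L t i) := by
          refine mul_le_mul_of_nonneg_left ?_ (by positivity)
          exact hph.sum_le_tsum _ fun i _ => mul_nonneg (hw i) (hph0 _)

end Pool.Agent.H98.HF
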