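import Mathlib
import Pool.Agent.H98.HF.D

/-!
# MP_103a5c_HF row Ha: the strip inequality

PROOF of (1).  Let `n ≥ 2` be even, `θ = π/(2n) ∈ (0, π/4]`, `z = x + i y`, `0 ≤ x ≤ 1`.  Then
`1 + iπ(z - 1/2)/n = a + i b` with `a = 1 - π y / n`, `b = π (x - 1/2)/n`, `|b| ≤ θ`.  Since `n` is even and
conjugation does not change the real part we may replace `(a, b)` by `(|a|, |b|)`: `(-a + ib)^n = (a - ib)^n`
(`Even.neg_pow`), `Re conj = Re`.  So let `a, b ≥ 0`, `b ≤ θ`, `ρ = |a + ib|`.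
 * If `a = 0`: `Re (ib)^n ≥ -b^n ≥ -θ^n ≥ -θ ≥ -2/n` (`θ ≤ 1`).
 * If `a > 0` let `ψ = arctan (b/a) ∈ [0, π/2)`, `a + ib = ρ e^{iψ}`, `Re (a+ib)^n = ρ^n cos (nψ)`.
   If `n ψ ≤ π/2` this is `≥ 0`.  Otherwise `ψ > θ`, `-cos (nψ) ≤ nψ - π/2` (since `cos u ≥ π/2 - u`... for
   `u ≥ π/2`: `cos u = -sin (u - π/2) ≥ -(u - π/2)`), `nψ ≤ n b/a ≤ (π/2)/a`, so `-cos (nψ) ≤ (π/2)(1 - a)/a` and also
   `-cos ≤ 1`; moreover `nψ ≤ (π/2)/a` and `nψ > π/2` force `a < 1`.
   - If `a ≥ 1/2`: `ρ^n = (a² + b²)^{n/2} ≤ (a² + θ²)^{n/2}`; with `a² ≤ exp (-2(1-a))` (`a ≤ e^{-(1-a)}`) and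
     `a² + θ² ≤ a² (1 + 4 θ²) ≤ exp(-2(1-a)) exp(4θ²)`: `ρ^n ≤ exp (-n(1-a)) exp(2 n θ²) ≤ e^{5} exp (-n(1-a))`
     (`2nθ² = π²/(2n) ≤ π²/4 ≤ 5`).  So `-Re ≤ e^5 π (1-a) e^{-n(1-a)} ≤ e^5 π / n` (`u e^{-u} ≤ 1`).
   - If `a < 1/2`: `ρ² ≤ 1/4 + θ²`.  For `n ≥ 4`: `θ² ≤ π²/64 ≤ 1/4`... (`π² < 10`), so `ρ² ≤ 1/2`, `-Re ≤ ρ^n ≤ (1/2)^{n/2} ≤ 4/n`
     (`n ≤ 4 * 2^{n/2}`).  For `n = 2`: `-Re ≤ ρ² ≤ 1/4 + π²/16 ≤ 1 ≤ 2/n`.
   So `C = e^5 π` (or any larger number, e.g. `1000`) works.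
   ALTERNATIVE without arctan: any proof is fine; the constant is irrelevant.
PROOF of (2).  Let `z'` be `z` with real part clamped to `[0, 1]`; `|z - z'| = dist ≤ d` (hypothesis), `‖z'‖ ≤ ‖z‖ + 1`.
`Vn n z - Vn n z' = (A^n - B^n)` with `A = 1 + iπ(z-1/2)/n`, `B` similarly; `‖A^n - B^n‖ ≤ n ‖A - B‖ max(‖A‖,‖B‖)^(n-1)`
(`‖A^n - B^n‖ ≤ ‖A - B‖ Σ ‖A‖^i ‖B‖^(n-1-i)`, geometric sum `Commute.geom_sum₂_mul` or induction), `‖A - B‖ = π |z - z'| / n`,
`‖A‖, ‖B‖ ≤ 1 + π (‖z‖ + 2)`.  So the difference is at most `π d (1 + π (‖z‖ + 2))^n`, and (1) applies to `z'`.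
PROOF of (3).  `‖A‖ ≤ 1 + π(‖z‖ + 1)/n ≤ 1 + π (‖z‖ + 2)`.
-/

open MeasureTheory Set Filter Topology
open scoped Real Interval ContDiff

namespace Pool.Agent.H98.HF

open Pool.Agent.H6 Pool.Agent.H98.GP

lemma Ha_arg {w : ℂ} (hw : 0 < w.re) : |w.arg| ≤ |w.im| / w.re := by
  have h1 : |w.arg| < π / 2 := Complex.abs_arg_lt_pi_div_two_iff.2 (Or.inl hw)
  have h2 : |w.im| / w.re = |Real.tan w.arg| := by
    rw [Complex.tan_arg, abs_div, abs_of_pos hw]
  rw [h2]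
  rcases le_total 0 w.arg with h | h
  · rw [abs_of_nonneg h] at h1 ⊢
    exact (Real.le_tan h h1).trans (le_abs_self _)
  · rw [abs_of_nonpos h] at h1 ⊢
    have h3 := Real.le_tan (neg_nonneg.2 h) h1
    rw [Real.tan_neg] at h3
    exact h3.trans (neg_le_abs _)

lemma Ha_re_pow (w : ℂ) (n : ℕ) : (w ^ n).re = ‖w‖ ^ n * Real.cos (n * |w.arg|) := by
  have h1 : w ^ n = ((‖w‖ ^ n : ℝ) : ℂ) * Complex.exp (((n * w.arg : ℝ) : ℂ) * Complex.I) := by
    conv_lhs => rw [← Complex.norm_mul_exp_arg_mul_I w]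
    rw [mul_pow, ← Complex.exp_nat_mul]
    push_cast
    ring_nf
  rw [h1, Complex.re_ofReal_mul, Complex.exp_ofReal_mul_I_re]
  congr 1
  rw [← Real.cos_abs, abs_mul, Nat.abs_cast]

lemma Ha_pi_sq : π ^ 2 ≤ 10 := by
  have h1 := Real.pi_lt_d2
  have h2 := Real.pi_pos
  nlinarith

/-- the core estimate -/
lemma Ha_core {n : ℕ} (hn : Even n) (hn0 : 0 < n) {w : ℂ} (hw : 0 ≤ w.re) (hb : |w.im| ≤ π / (2 * n)) :
    -((π * Real.exp 5 + 3) / n) ≤ (w ^ n).re := by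
  have hn2 : 2 ≤ n := by
    obtain ⟨k, hk⟩ := hn
    omega
  have hnR : (2 : ℝ) ≤ n := by exact_mod_cast hn2
  have hnpos : (0 : ℝ) < n := by linarith
  have hpi := Real.pi_pos
  have hsq : ‖w‖ ^ 2 = w.re ^ 2 + w.im ^ 2 := by
    rw [← Complex.normSq_eq_norm_sq, Complex.normSq_apply]
    ring
  have him : w.im ^ 2 ≤ (π / (2 * n)) ^ 2 := by
    rw [← sq_abs]
    exact pow_le_pow_left₀ (abs_nonneg _) hb 2
  have hC : (0 : ℝ) ≤ π * Real.exp 5 := by positivity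
  rcases lt_or_ge w.re (1 / 2) with hcase | hcase
  · -- small real part
    have h1 : |(w ^ n).re| ≤ ‖w‖ ^ n := (Complex.abs_re_le_norm _).trans (norm_pow w n).le
    have h2 : -(‖w‖ ^ n) ≤ (w ^ n).re := (abs_le.1 h1).1
    refine le_trans (neg_le_neg ?_) h2
    have h3 : w.re ^ 2 ≤ 1 / 4 := by nlinarith
    have h4 : ‖w‖ ^ n ≤ 3 / n := by
      rcases Nat.lt_or_ge n 4 with h5 | h5
      · have h6 : n = 2 := by
          obtain ⟨k, hk⟩ := hn
          omega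
        subst h6
        rw [hsq]
        have h7 : (π / (2 * ((2 : ℕ) : ℝ))) ^ 2 = π ^ 2 / 16 := by
          push_cast
          ring
        rw [h7] at him
        have := Ha_pi_sq
        push_cast
        linarith
      · have h6 : (4 : ℝ) ≤ n := by exact_mod_cast h5
        have h7 : (π / (2 * n)) ^ 2 ≤ 1 / 4 := by
          rw [div_pow, div_le_iff₀ (by positivity)]
          have := Ha_pi_sq
          nlinarith
        have h8 : ‖w‖ ≤ 3 / 4 := by
          have h9 : ‖w‖ ^ 2 ≤ (3 / 4) ^ 2 := by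
            rw [hsq]
            linarith
          exact le_of_sq_le_sq h9 (by norm_num)
        have h9 : ‖w‖ ^ n ≤ (3 / 4) ^ n := pow_le_pow_left₀ (norm_nonneg _) h8 n
        refine h9.trans ?_
        rw [le_div_iff₀ hnpos]
        have h10 : 1 + (n : ℝ) * (1 / 3) ≤ (1 + 1 / 3) ^ n := one_add_mul_le_pow (by norm_num) n
        have h11 : ((3 : ℝ) / 4) ^ n * (1 + 1 / 3) ^ n = 1 := by
          rw [← mul_pow]
          norm_num
        have h12 : (0 : ℝ) < (3 / 4) ^ n := by positivity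
        nlinarith
    refine h4.trans ?_
    rw [div_le_div_iff_of_pos_right hnpos]
    linarith
  · -- real part at least 1/2
    have hw0 : 0 < w.re := by linarith
    rw [Ha_re_pow]
    have harg := Ha_arg hw0
    rcases le_or_gt ((n : ℝ) * |w.arg|) (π / 2) with h1 | h1
    · have h2 : 0 ≤ Real.cos (n * |w.arg|) :=
        Real.cos_nonneg_of_mem_Icc ⟨by have : 0 ≤ (n : ℝ) * |w.arg| := by positivity
                                       linarith, h1⟩
      have h3 : 0 ≤ ‖w‖ ^ n * Real.cos (n * |w.arg|) := by positivity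
      have h4 : 0 ≤ (π * Real.exp 5 + 3) / n := by positivity
      linarith
    · have h2 : -((n : ℝ) * |w.arg| - π / 2) ≤ Real.cos (n * |w.arg|) := by
        have h3 : Real.cos (n * |w.arg|) = -Real.sin (n * |w.arg| - π / 2) := by
          rw [Real.sin_sub_pi_div_two, neg_neg]
        rw [h3]
        exact neg_le_neg (Real.sin_le (by linarith))
      have h3 : (n : ℝ) * |w.arg| ≤ π / 2 / w.re := by
        have h4 : (n : ℝ) * |w.arg| ≤ n * (π / (2 * n) / w.re) := by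
          refine mul_le_mul_of_nonneg_left (harg.trans ?_) hnpos.le
          exact div_le_div_of_nonneg_right hb hw0.le
        refine h4.trans (le_of_eq ?_)
        field_simp
      set a := w.re with ha
      have ha1 : a < 1 := by
        have h4 : π / 2 < π / 2 / a := lt_of_lt_of_le h1 h3
        rw [lt_div_iff₀ hw0] at h4
        nlinarith
      have h4 : (n : ℝ) * |w.arg| - π / 2 ≤ π * (1 - a) := by
        have h5 : π / 2 / a ≤ π / 2 + π * (1 - a) := by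
          rw [div_le_iff₀ hw0]
          nlinarith [mul_nonneg (mul_nonneg hpi.le (sub_nonneg.2 ha1.le)) (sub_nonneg.2 hcase)]
        linarith
      have h5 : ‖w‖ ≤ Real.exp (-(1 - a) + 2 * (π / (2 * n)) ^ 2) := by
        have h6 : ‖w‖ ^ 2 ≤ (Real.exp (-(1 - a) + 2 * (π / (2 * n)) ^ 2)) ^ 2 := by
          rw [Real.exp_add, mul_pow, hsq]
          have h7 : a ≤ Real.exp (-(1 - a)) := by
            have := Real.add_one_le_exp (-(1 - a))
            linarith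
          have h8 : 1 + 4 * (π / (2 * n)) ^ 2 ≤ Real.exp (2 * (π / (2 * n)) ^ 2) ^ 2 := by
            rw [← Real.exp_nat_mul]
            have := Real.add_one_le_exp (((2 : ℕ) : ℝ) * (2 * (π / (2 * n)) ^ 2))
            push_cast at this ⊢
            linarith
          have h9 : a ^ 2 ≤ Real.exp (-(1 - a)) ^ 2 := pow_le_pow_left₀ hw0.le h7 2
          have h10 : a ^ 2 + w.im ^ 2 ≤ a ^ 2 * (1 + 4 * (π / (2 * n)) ^ 2) := by
            have h11 : 1 / 4 ≤ a ^ 2 := by nlinarith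
            have h12 : (0 : ℝ) ≤ (π / (2 * n)) ^ 2 := by positivity
            nlinarith
          refine h10.trans ?_
          exact mul_le_mul h9 h8 (by positivity) (by positivity)
        exact le_of_sq_le_sq h6 (Real.exp_pos _).le
      have h6 : ‖w‖ ^ n ≤ Real.exp (-(n * (1 - a))) * Real.exp 5 := by
        have h7 := pow_le_pow_left₀ (norm_nonneg w) h5 n
        refine h7.trans ?_
        rw [← Real.exp_nat_mul, ← Real.exp_add]
        refine Real.exp_le_exp.2 ?_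
        have h8 : (n : ℝ) * (2 * (π / (2 * n)) ^ 2) ≤ 5 := by
          have h9 : (n : ℝ) * (2 * (π / (2 * n)) ^ 2) = π ^ 2 / (2 * n) := by
            field_simp
          rw [h9, div_le_iff₀ (by positivity)]
          have := Ha_pi_sq
          nlinarith
        nlinarith
      have h7 : 0 ≤ π * (1 - a) := mul_nonneg hpi.le (by linarith)
      have h8 : -(‖w‖ ^ n * (π * (1 - a))) ≤ ‖w‖ ^ n * Real.cos (n * |w.arg|) := by
        have h9 : 0 ≤ ‖w‖ ^ n := by positivity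
        have h10 : -(π * (1 - a)) ≤ Real.cos (n * |w.arg|) := by linarith
        calc -(‖w‖ ^ n * (π * (1 - a))) = ‖w‖ ^ n * (-(π * (1 - a))) := by ring
          _ ≤ _ := mul_le_mul_of_nonneg_left h10 h9
      refine le_trans (neg_le_neg ?_) h8
      have h9 : (n : ℝ) * (1 - a) * Real.exp (-(n * (1 - a))) ≤ 1 := by
        have h10 := Real.add_one_le_exp ((n : ℝ) * (1 - a))
        have h11 : Real.exp (n * (1 - a)) * Real.exp (-(n * (1 - a))) = 1 := by
          rw [← Real.exp_add]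
          simp
        have h12 := Real.exp_pos (-((n : ℝ) * (1 - a)))
        nlinarith
      calc ‖w‖ ^ n * (π * (1 - a)) ≤ (Real.exp (-(n * (1 - a))) * Real.exp 5) * (π * (1 - a)) :=
            mul_le_mul_of_nonneg_right h6 h7
        _ = (n * (1 - a) * Real.exp (-(n * (1 - a)))) * (π * Real.exp 5) / n := by
            field_simp
        _ ≤ 1 * (π * Real.exp 5) / n := by
            gcongr
        _ ≤ (π * Real.exp 5 + 3) / n := by
            rw [one_mul, div_le_div_iff_of_pos_right hnpos]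
            linarith

/-- (1) -/
theorem strip : ∃ C : ℝ, 0 ≤ C ∧ ∀ n : ℕ, Even n → 0 < n → ∀ z : ℂ, 0 ≤ z.re → z.re ≤ 1 →
    -(C / n) ≤ (Vn n z).re := by
  refine ⟨π * Real.exp 5 + 3, by positivity, fun n hn hn0 z h0 h1 => ?_⟩
  have hnR : (0 : ℝ) < n := by exact_mod_cast hn0
  have hpi := Real.pi_pos
  set w : ℂ := 1 + Complex.I * (π : ℂ) * (z - 1 / 2) / (n : ℂ) with hw
  have him : w.im = π * (z.re - 1 / 2) / n := by
    have h2 : w = 1 + Complex.I * (((π / n : ℝ) : ℂ) * (z - ((1 / 2 : ℝ) : ℂ))) := by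
      rw [hw]
      push_cast
      ring
    rw [h2, Complex.add_im, Complex.one_im, zero_add, Complex.I_mul_im, Complex.re_ofReal_mul, Complex.sub_re, Complex.ofReal_re]
    ring
  have hb : |w.im| ≤ π / (2 * n) := by
    rw [him, abs_div, abs_mul, abs_of_pos hpi, abs_of_pos hnR, div_le_div_iff₀ hnR (by positivity)]
    have h2 : |z.re - 1 / 2| ≤ 1 / 2 := abs_le.2 ⟨by linarith, by linarith⟩
    have h3 : π * |z.re - 1 / 2| ≤ π * (1 / 2) := mul_le_mul_of_nonneg_left h2 hpi.le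
    nlinarith
  unfold Vn
  rw [← hw]
  rcases le_total 0 w.re with h2 | h2
  · exact Ha_core hn hn0 h2 hb
  · have h3 : (-w) ^ n = w ^ n := hn.neg_pow w
    rw [← h3]
    refine Ha_core hn hn0 ?_ ?_
    · rw [Complex.neg_re]
      linarith
    · rw [Complex.neg_im, abs_neg]
      exact hb

lemma Ha_norm {n : ℕ} (hn : 0 < n) (z : ℂ) {K : ℝ} (hK : ‖z - 1 / 2‖ ≤ K) :
    ‖1 + Complex.I * (π : ℂ) * (z - 1 / 2) / (n : ℂ)‖ ≤ 1 + π * K := by
  have hnR : (1 : ℝ) ≤ n := by exact_mod_cast hn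
  have hpi := Real.pi_pos
  refine (norm_add_le _ _).trans ?_
  rw [norm_one]
  have h1 : ‖Complex.I * (π : ℂ) * (z - 1 / 2) / (n : ℂ)‖ = π * ‖z - 1 / 2‖ / n := by
    rw [norm_div, norm_mul, norm_mul, Complex.norm_I, one_mul, Complex.norm_real, Real.norm_eq_abs, abs_of_pos hpi,
      Complex.norm_natCast]
  rw [h1]
  have h2 : π * ‖z - 1 / 2‖ / n ≤ π * ‖z - 1 / 2‖ := div_le_self (by positivity) hnR
  have h3 : π * ‖z - 1 / 2‖ ≤ π * K := mul_le_mul_of_nonneg_left hK hpi.le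
  linarith

lemma Ha_pow_sub {A B : ℂ} {K : ℝ} (hK : 1 ≤ K) (hA : ‖A‖ ≤ K) (hB : ‖B‖ ≤ K) (n : ℕ) :
    ‖A ^ n - B ^ n‖ ≤ n * ‖A - B‖ * K ^ n := by
  induction n with
  | zero => simp
  | succ n ih =>
    have h1 : A ^ (n + 1) - B ^ (n + 1) = A * (A ^ n - B ^ n) + (A - B) * B ^ n := by ring
    rw [h1]
    refine (norm_add_le _ _).trans ?_
    rw [norm_mul, norm_mul, norm_pow]
    have h2 : ‖A‖ * ‖A ^ n - B ^ n‖ ≤ K * (n * ‖A - B‖ * K ^ n) :=
      mul_le_mul hA ih (norm_nonneg _) (by linarith)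
    have h3 : ‖A - B‖ * ‖B‖ ^ n ≤ ‖A - B‖ * (K * K ^ n) := by
      refine mul_le_mul_of_nonneg_left ?_ (norm_nonneg _)
      have h4 : ‖B‖ ^ n ≤ K ^ n := pow_le_pow_left₀ (norm_nonneg _) hB n
      have h5 : (0 : ℝ) ≤ K ^ n := by positivity
      nlinarith
    push_cast
    calc ‖A‖ * ‖A ^ n - B ^ n‖ + ‖A - B‖ * ‖B‖ ^ n
        ≤ K * (n * ‖A - B‖ * K ^ n) + ‖A - B‖ * (K * K ^ n) := add_le_add h2 h3
      _ = _ := by ring

lemma Ha_half (z : ℂ) : ‖z - 1 / 2‖ ≤ ‖z‖ + 2 := by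
  refine (norm_sub_le _ _).trans ?_
  have : ‖(1 / 2 : ℂ)‖ ≤ 2 := by
    rw [norm_div, norm_one, Complex.norm_ofNat]
    norm_num
  linarith

/-- (2) -/
theorem strip_near : ∃ C : ℝ, 0 ≤ C ∧ ∀ n : ℕ, Even n → 0 < n → ∀ (z : ℂ) (d : ℝ), 0 ≤ d → -d ≤ z.re → z.re ≤ 1 + d →
    -(C / n) - π * d * (1 + π * (‖z‖ + 2)) ^ n ≤ (Vn n z).re := by
  obtain ⟨C, hC, hstrip⟩ := strip
  refine ⟨C, hC, fun n hn hn0 z d hd h0 h1 => ?_⟩
  have hnR : (0 : ℝ) < n := by exact_mod_cast hn0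
  have hpi := Real.pi_pos
  set z' : ℂ := ⟨max 0 (min 1 z.re), z.im⟩ with hz'
  have hre : z'.re = max 0 (min 1 z.re) := rfl
  have him : z'.im = z.im := rfl
  have hdist : ‖z - z'‖ ≤ d := by
    have h2 : z - z' = ((z.re - max 0 (min 1 z.re) : ℝ) : ℂ) := by
      apply Complex.ext
      · rw [Complex.sub_re, hre, Complex.ofReal_re]
      · rw [Complex.sub_im, him, Complex.ofReal_im, sub_self]
    rw [h2, Complex.norm_real, Real.norm_eq_abs]
    rcases le_total z.re 0 with h3 | h3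
    · rw [min_eq_right (by linarith), max_eq_left h3, sub_zero, abs_of_nonpos h3]
      linarith
    · rcases le_total z.re 1 with h4 | h4
      · rw [min_eq_right h4, max_eq_right h3, sub_self, abs_zero]
        exact hd
      · rw [min_eq_left h4, max_eq_right zero_le_one, abs_of_nonneg (by linarith)]
        linarith
  have hV' : -(C / n) ≤ (Vn n z').re := by
    refine hstrip n hn hn0 z' ?_ ?_
    · rw [hre]
      exact le_max_left _ _
    · rw [hre]
      exact max_le zero_le_one (min_le_left _ _)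
  have hK : 1 ≤ 1 + π * (‖z‖ + 2) := by
    have : 0 ≤ π * (‖z‖ + 2) := by positivity
    linarith
  have hA := Ha_norm hn0 z (Ha_half z)
  have hz'n : ‖z' - 1 / 2‖ ≤ ‖z‖ + 2 := by
    refine (Complex.norm_le_abs_re_add_abs_im _).trans ?_
    have h2 : (z' - 1 / 2).re = max 0 (min 1 z.re) - 1 / 2 := by
      rw [Complex.sub_re, hre]
      norm_num
    have h3 : (z' - 1 / 2).im = z.im := by
      rw [Complex.sub_im, him]
      norm_num
    rw [h2, h3]
    have h4 : |max 0 (min 1 z.re) - 1 / 2| ≤ 1 / 2 := by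
      rw [abs_le]
      constructor
      · have := le_max_left 0 (min 1 z.re)
        linarith
      · have : max 0 (min 1 z.re) ≤ 1 := max_le zero_le_one (min_le_left _ _)
        linarith
    have h5 := Complex.abs_im_le_norm z
    linarith
  have hB := Ha_norm hn0 z' hz'n
  have hsub := Ha_pow_sub hK hA hB n
  have hAB : ‖(1 + Complex.I * (π : ℂ) * (z - 1 / 2) / (n : ℂ)) - (1 + Complex.I * (π : ℂ) * (z' - 1 / 2) / (n : ℂ))‖ ≤ π * d / n := by
    have h2 : (1 + Complex.I * (π : ℂ) * (z - 1 / 2) / (n : ℂ)) - (1 + Complex.I * (π : ℂ) * (z' - 1 / 2) / (n : ℂ))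
        = Complex.I * (π : ℂ) * (z - z') / (n : ℂ) := by ring
    rw [h2, norm_div, norm_mul, norm_mul, Complex.norm_I, one_mul, Complex.norm_real, Real.norm_eq_abs, abs_of_pos hpi,
      Complex.norm_natCast]
    gcongr
  have hfin : ‖Vn n z - Vn n z'‖ ≤ π * d * (1 + π * (‖z‖ + 2)) ^ n := by
    unfold Vn
    refine hsub.trans ?_
    have h2 : (n : ℝ) * ‖(1 + Complex.I * (π : ℂ) * (z - 1 / 2) / (n : ℂ)) - (1 + Complex.I * (π : ℂ) * (z' - 1 / 2) / (n : ℂ))‖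
        ≤ π * d := by
      calc _ ≤ (n : ℝ) * (π * d / n) := mul_le_mul_of_nonneg_left hAB hnR.le
        _ = π * d := by field_simp
    exact mul_le_mul_of_nonneg_right h2 (by positivity)
  have h2 : |(Vn n z - Vn n z').re| ≤ π * d * (1 + π * (‖z‖ + 2)) ^ n := (Complex.abs_re_le_norm _).trans hfin
  rw [Complex.sub_re] at h2
  have h3 := (abs_le.1 h2).1
  linarith

/-- (3) -/
theorem norm_Vn_le {n : ℕ} (hn : 0 < n) (z : ℂ) : ‖Vn n z‖ ≤ (1 + π * (‖z‖ + 2)) ^ n := by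
  unfold Vn
  rw [norm_pow]
  exact pow_le_pow_left₀ (norm_nonneg _) (Ha_norm hn z (Ha_half z)) n

end Pool.Agent.H98.HF
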