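import Mathlib
import Pool.Agent.H98.HF.D
import Pool.Agent.H98.HF.Hb

/-!
# MP_103a5c_HF row Hc: on good t the averaged count is at most 1 + small

Notation `u i = L (t - γ i)/(2π)`.  `SS γ w (win κ δ) L t = Σ w i ∫ y, κ y 1[|y - u i| ≤ δ/2] dy`.
PROOF.  Fix `Q ≥ 1`.  Split the `y` integral at `|y| = Q`: `win κ δ = A_Q + B_Q`,
`A_Q u = ∫ y in [-Q, Q], κ y 1[|y - u| ≤ δ/2]`, `B_Q u` the rest.
 * `B_Q u ≤ ε ph0 u` for `Q` large: `B_Q u ≤ ∫_{|y - u| ≤ δ/2, |y| > Q} C_3 / (1 + y²)^3 dy ≤ δ C_3 / (1 + Q²) * sup (1 + y²)^(-2)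
   ≤ δ C_3 (2 (1 + δ²))² / (1 + Q²) * ph0 u` (as in `win_decay`), with `C_3` from `Ker.decay 3`.
 * `Σ w i A_Q (u i) = ∫_{-Q}^{Q} κ y (Σ w i 1[|u i - y| ≤ δ/2]) dy` by Tonelli for the nonnegative functions
   (`lintegral_tsum` or `hasSum_integral_of_summable_integral_norm`; summability of the left side from `O.summable_phi` for `win κ δ`
   and `0 ≤ A_Q ≤ win`), and the inner sum is at most `1` for `|y| ≤ Q` by `Good`, so `≤ ∫ κ = 1`.
   (`Countable ι` is available.  All terms are measurable in `y`.)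
Hence `SS (win κ δ) ≤ 1 + ε Σ w i ph0 (u i) = 1 + ε SS ph0` (`O.summable_phi` for `ph0` with `C = 1`, `L ≥ 2π`).
The lower bound `0 ≤ SS (win κ δ)` is `tsum_nonneg`.
-/

open MeasureTheory Set Filter Topology
open scoped Real Interval ContDiff

namespace Pool.Agent.H98.HF

open Pool.Agent.H6 Pool.Agent.H98.GP

/-- the window as a set integral -/
theorem Hc_win {κ : ℝ → ℝ} {δ : ℝ} (hδ : 0 < δ) (x : ℝ) :
    win κ δ x = ∫ y in Icc (x - δ / 2) (x + δ / 2), κ y := by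
  unfold win
  rw [intervalIntegral.integral_of_le (by linarith), integral_Icc_eq_integral_Ioc]

theorem Hc_int {s : ℝ} {κ : ℝ → ℝ} (hκ : Ker s κ) : Integrable κ := by
  by_contra h
  have h1 := hκ.one
  rw [integral_undef h] at h1
  norm_num at h1

/-- the far part is small -/
theorem Hc_far {δ : ℝ} {κ : ℝ → ℝ} (hδ : 0 < δ) {C : ℝ} (hC : 0 ≤ C)
    (hd : ∀ u, |κ u| ≤ C / (1 + u ^ 2) ^ 3) {Q : ℝ} (hQ : 0 < Q) (x : ℝ) :
    ∫ y in Icc (x - δ / 2) (x + δ / 2) \ Icc (-Q) Q, κ y ≤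
      δ * C * (2 * (1 + δ ^ 2)) ^ 2 / (1 + Q ^ 2) * ph0 x := by
  set K : ℝ := C * (2 * (1 + δ ^ 2)) ^ 2 / (1 + Q ^ 2) * ph0 x with hK
  have hK0 : 0 ≤ K := by rw [hK]; unfold ph0; positivity
  have h1 : ∀ y ∈ Icc (x - δ / 2) (x + δ / 2) \ Icc (-Q) Q, ‖κ y‖ ≤ K := by
    rintro y ⟨hy1, hy2⟩
    rw [Real.norm_eq_abs]
    refine (hd y).trans ?_
    have hyQ : Q ^ 2 ≤ y ^ 2 := by
      rw [mem_Icc, not_and_or, not_le, not_le] at hy2
      rcases hy2 with h | h <;> nlinarith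
    have hxy : 1 + x ^ 2 ≤ 2 * (1 + δ ^ 2) * (1 + y ^ 2) := by
      have h3 : (x - y) ^ 2 ≤ δ ^ 2 / 4 := by
        have h4 : |x - y| ≤ δ / 2 := by
          rw [abs_le]; constructor <;> linarith [hy1.1, hy1.2]
        have := sq_le_sq' (abs_le.1 h4).1 (abs_le.1 h4).2
        nlinarith
      nlinarith [sq_nonneg (x - 2 * y), sq_nonneg (δ * y)]
    rw [hK]
    unfold ph0
    rw [mul_one_div, div_div, div_le_div_iff₀ (by positivity) (by positivity)]
    have h5 : (1 + x ^ 2) ^ 2 ≤ (2 * (1 + δ ^ 2) * (1 + y ^ 2)) ^ 2 :=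
      pow_le_pow_left₀ (by positivity) hxy 2
    have h6 : (1 + Q ^ 2) * (1 + x ^ 2) ^ 2 ≤ (1 + y ^ 2) * (2 * (1 + δ ^ 2) * (1 + y ^ 2)) ^ 2 :=
      mul_le_mul (by linarith) h5 (by positivity) (by positivity)
    calc C * ((1 + Q ^ 2) * (1 + x ^ 2) ^ 2)
        ≤ C * ((1 + y ^ 2) * (2 * (1 + δ ^ 2) * (1 + y ^ 2)) ^ 2) := mul_le_mul_of_nonneg_left h6 hC
      _ = C * (2 * (1 + δ ^ 2)) ^ 2 * (1 + y ^ 2) ^ 3 := by ring
  have hvol : volume (Icc (x - δ / 2) (x + δ / 2) \ Icc (-Q) Q) ≤ ENNReal.ofReal δ := by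
    refine (measure_mono sdiff_subset).trans ?_
    rw [Real.volume_Icc]
    apply ENNReal.ofReal_le_ofReal
    linarith
  have hlt : volume (Icc (x - δ / 2) (x + δ / 2) \ Icc (-Q) Q) < ⊤ := hvol.trans_lt ENNReal.ofReal_lt_top
  have h2 := norm_setIntegral_le_of_norm_le_const hlt h1
  have h3 : (volume.real (Icc (x - δ / 2) (x + δ / 2) \ Icc (-Q) Q)) ≤ δ := by
    rw [Measure.real]
    exact (ENNReal.toReal_le_of_le_ofReal hδ.le hvol)
  calc ∫ y in Icc (x - δ / 2) (x + δ / 2) \ Icc (-Q) Q, κ y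
      ≤ ‖∫ y in Icc (x - δ / 2) (x + δ / 2) \ Icc (-Q) Q, κ y‖ := Real.le_norm_self _
    _ ≤ K * volume.real (Icc (x - δ / 2) (x + δ / 2) \ Icc (-Q) Q) := h2
    _ ≤ K * δ := mul_le_mul_of_nonneg_left h3 hK0
    _ = δ * C * (2 * (1 + δ ^ 2)) ^ 2 / (1 + Q ^ 2) * ph0 x := by rw [hK]; ring

variable {ι : Type*} [Countable ι] {γ w : ι → ℝ} {F : ℝ → Finset ι} {CR : ℝ}

omit [Countable ι] in
/-- the counting sums are summable -/
theorem Hc_summable (O : Ordinates ι γ w F CR) {δ L : ℝ} (hL : 2 * π ≤ L) (t x : ℝ) :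
    Summable fun i => if |L * (t - γ i) / (2 * π) - x| ≤ δ / 2 then w i else 0 := by
  set B : ℝ := δ / 2 + |x| with hB
  have hs := (O.summable t).mul_left (1 + B ^ 2)
  refine Summable.of_nonneg_of_le (fun i => ?_) (fun i => ?_) hs
  · split_ifs
    · exact O.w_nonneg i
    · exact le_rfl
  · have hw := O.w_nonneg i
    split_ifs with h
    · have h1 : |L * (t - γ i) / (2 * π)| ≤ B := by
        have : |L * (t - γ i) / (2 * π)| ≤ |L * (t - γ i) / (2 * π) - x| + |x| := by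
          have := abs_add_le (L * (t - γ i) / (2 * π) - x) x
          simpa using this
        linarith
      have h2 : |t - γ i| ≤ |L * (t - γ i) / (2 * π)| := by
        have e : L * (t - γ i) / (2 * π) = (L / (2 * π)) * (t - γ i) := by ring
        have hc : 1 ≤ L / (2 * π) := by rw [le_div_iff₀ (by positivity)]; linarith
        rw [e, abs_mul, abs_of_nonneg (by linarith : (0 : ℝ) ≤ L / (2 * π))]
        nlinarith [abs_nonneg (t - γ i)]
      have h3 : (t - γ i) ^ 2 ≤ B ^ 2 := by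
        rw [← sq_abs (t - γ i)]
        exact pow_le_pow_left₀ (abs_nonneg _) (h2.trans h1) 2
      rw [mul_div_assoc', le_div_iff₀ (by positivity)]
      nlinarith
    · positivity

omit [Countable ι] in
/-- the near part: finite sums -/
theorem Hc_near (O : Ordinates ι γ w F CR) {s δ : ℝ} {κ : ℝ → ℝ} (hκ : Ker s κ) {L : ℝ}
    (hL : 2 * π ≤ L) {t Q : ℝ} (hg : Good γ w δ Q L t) (S : Finset ι) :
    ∑ i ∈ S, w i * ∫ y in Icc (L * (t - γ i) / (2 * π) - δ / 2) (L * (t - γ i) / (2 * π) + δ / 2) ∩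
      Icc (-Q) Q, κ y ≤ 1 := by
  have hint := Hc_int hκ
  have e : ∀ i, ∫ y in Icc (L * (t - γ i) / (2 * π) - δ / 2) (L * (t - γ i) / (2 * π) + δ / 2) ∩
      Icc (-Q) Q, κ y = ∫ y in Icc (-Q) Q, (Icc (L * (t - γ i) / (2 * π) - δ / 2)
        (L * (t - γ i) / (2 * π) + δ / 2)).indicator κ y := by
    intro i
    rw [setIntegral_indicator measurableSet_Icc, inter_comm]
  have hi : ∀ i, Integrable ((Icc (L * (t - γ i) / (2 * π) - δ / 2)
        (L * (t - γ i) / (2 * π) + δ / 2)).indicator κ) (volume.restrict (Icc (-Q) Q)) := fun i =>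
    (hint.indicator measurableSet_Icc).integrableOn
  simp only [e]
  simp only [← integral_const_mul]
  rw [← integral_finsetSum _ (fun i _ => (hi i).const_mul (w i))]
  calc ∫ y in Icc (-Q) Q, ∑ i ∈ S, w i * (Icc (L * (t - γ i) / (2 * π) - δ / 2)
        (L * (t - γ i) / (2 * π) + δ / 2)).indicator κ y
      ≤ ∫ y in Icc (-Q) Q, κ y := by
        refine setIntegral_mono_on (integrable_finsetSum _ fun i _ => (hi i).const_mul (w i))
          hint.integrableOn measurableSet_Icc fun y hy => ?_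
        have hN : ∑ i ∈ S, (if |L * (t - γ i) / (2 * π) - y| ≤ δ / 2 then w i else 0) ≤ 1 := by
          refine ((Hc_summable O hL t y).sum_le_tsum S fun i _ => ?_).trans (hg y ?_)
          · split_ifs
            · exact O.w_nonneg i
            · exact le_rfl
          · exact abs_le.2 ⟨hy.1, hy.2⟩
        have hterm : ∀ i ∈ S, w i * (Icc (L * (t - γ i) / (2 * π) - δ / 2)
            (L * (t - γ i) / (2 * π) + δ / 2)).indicator κ y =
            κ y * (if |L * (t - γ i) / (2 * π) - y| ≤ δ / 2 then w i else 0) := by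
          intro i _
          by_cases h : |L * (t - γ i) / (2 * π) - y| ≤ δ / 2
          · rw [if_pos h, indicator_of_mem, mul_comm]
            rw [abs_le] at h
            constructor <;> linarith [h.1, h.2]
          · rw [if_neg h, indicator_of_notMem, mul_zero, mul_zero]
            intro h2
            apply h
            rw [abs_le]
            constructor <;> linarith [h2.1, h2.2]
        rw [Finset.sum_congr rfl hterm, ← Finset.mul_sum]
        calc κ y * _ ≤ κ y * 1 := mul_le_mul_of_nonneg_left hN (hκ.nonneg y)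
          _ = κ y := mul_one _
    _ ≤ ∫ y, κ y := setIntegral_le_integral hint (ae_of_all _ hκ.nonneg)
    _ = 1 := hκ.one

theorem SS_win_le (O : Ordinates ι γ w F CR) {s δ : ℝ} {κ : ℝ → ℝ} (hκ : Ker s κ) (hδ : 0 < δ) {ε : ℝ} (hε : 0 < ε) :
    ∃ Q : ℝ, 0 < Q ∧ ∀ L : ℝ, 2 * π ≤ L → ∀ t : ℝ, Good γ w δ Q L t →
      0 ≤ SS γ w (win κ δ) L t ∧ SS γ w (win κ δ) L t ≤ 1 + ε * SS γ w ph0 L t := by
  obtain ⟨C, hC, hd⟩ := hκ.decay 3
  set M : ℝ := δ * C * (2 * (1 + δ ^ 2)) ^ 2 with hM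
  have hM0 : 0 ≤ M := by rw [hM]; positivity
  have hQ1 : 1 ≤ M / ε + 1 := by
    have : 0 ≤ M / ε := by positivity
    linarith
  refine ⟨M / ε + 1, by linarith, fun L hL t hg => ?_⟩
  set Q : ℝ := M / ε + 1 with hQ
  have hMQ : M / (1 + Q ^ 2) ≤ ε := by
    rw [div_le_iff₀ (by positivity)]
    have h1 : M = ε * (Q - 1) := by rw [hQ]; field_simp; ring
    rw [h1]
    apply mul_le_mul_of_nonneg_left _ hε.le
    nlinarith
  have hph : ∀ u, 0 ≤ ph0 u := fun u => by unfold ph0; positivity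
  have hph' : ∀ u, |ph0 u| ≤ 1 / (1 + u ^ 2) ^ 2 := fun u => by rw [abs_of_nonneg (hph u)]; rfl
  have hsum := (O.summable_phi zero_le_one hph' hL t).of_abs
  have hnn : ∀ i, 0 ≤ w i * win κ δ (L * (t - γ i) / (2 * π)) := fun i =>
    mul_nonneg (O.w_nonneg i) (win_nonneg hκ hδ _).1
  refine ⟨tsum_nonneg hnn, ?_⟩
  refine Real.tsum_le_of_sum_le hnn fun S => ?_
  have hint := Hc_int hκ
  have h1 : ∀ i, win κ δ (L * (t - γ i) / (2 * π)) ≤
      (∫ y in Icc (L * (t - γ i) / (2 * π) - δ / 2) (L * (t - γ i) / (2 * π) + δ / 2) ∩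
      Icc (-Q) Q, κ y) + ε * ph0 (L * (t - γ i) / (2 * π)) := by
    intro i
    rw [Hc_win hδ, ← integral_inter_add_sdiff measurableSet_Icc hint.integrableOn]
    have h2 := Hc_far hδ hC hd (show 0 < Q by linarith) (L * (t - γ i) / (2 * π))
    have h3 := mul_le_mul_of_nonneg_right hMQ (hph (L * (t - γ i) / (2 * π)))
    linarith
  calc ∑ i ∈ S, w i * win κ δ (L * (t - γ i) / (2 * π))
      ≤ ∑ i ∈ S, (w i * (∫ y in Icc (L * (t - γ i) / (2 * π) - δ / 2)
          (L * (t - γ i) / (2 * π) + δ / 2) ∩ Icc (-Q) Q, κ y) +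
          ε * (w i * ph0 (L * (t - γ i) / (2 * π)))) := by
        refine Finset.sum_le_sum fun i _ => ?_
        have := mul_le_mul_of_nonneg_left (h1 i) (O.w_nonneg i)
        linarith
    _ = (∑ i ∈ S, w i * ∫ y in Icc (L * (t - γ i) / (2 * π) - δ / 2)
          (L * (t - γ i) / (2 * π) + δ / 2) ∩ Icc (-Q) Q, κ y) +
          ε * ∑ i ∈ S, w i * ph0 (L * (t - γ i) / (2 * π)) := by
        rw [Finset.sum_add_distrib, Finset.mul_sum]
    _ ≤ 1 + ε * SS γ w ph0 L t := by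
        refine add_le_add (Hc_near O hκ hL hg S) (mul_le_mul_of_nonneg_left ?_ hε.le)
        exact hsum.sum_le_tsum S fun i _ => mul_nonneg (O.w_nonneg i) (hph _)

end Pool.Agent.H98.HF
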