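import Mathlib
import Pool.Agent.H98.HF.D
import Pool.Agent.H24.GP.Pe
import Pool.Agent.H24.GP.Pv

/-!
# MP_103a5c_HF row Hd: many bad t give many close pairs

PROOF.  Let `h = (b - δ)/3`, `δ' = δ + h`, `μ = δ + 2 h < b`.  Let `ρ : ℝ → ℝ` be the continuous
trapezoid `ρ x = max 0 (min 1 ((μ/2 - |x|) / (μ/2 - δ'/2)))`: `0 ≤ ρ ≤ 1`, `ρ = 1` for `|x| ≤ δ'/2`, `ρ = 0` for `|x| ≥ μ/2`.
Let `B T = {t | 1 < SS gZ wZ ρ (log T) t}` and let `M : ℕ` with `M h ≥ Q + h`; put
`Bd T = ⋃ m ∈ Finset.Icc (-M : ℤ) M, {t | t - 2 π m h / log T ∈ B T}`.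
 * Measurable: for `log T > 0` the function `SS ρ` is continuous (`continuous_SS'` of H24/GP/Pv, imported by Pe), so `B T` is open, preimages under
   translations are open, finite union.
 * `¬ Good δ Q (log T) t → t ∈ Bd T` for `L = log T ≥ 2π`: take `x`, `|x| ≤ Q`, with `Σ_{|u i - x| ≤ δ/2} w i > 1`, `u i = L (t - γ i)/(2π)`, and
   `m = round (x / h)`, `|x - m h| ≤ h/2`, `|m| ≤ M`; at `t' = t - 2π m h / L` the coordinates are `u i - m h`, and `|u i - x| ≤ δ/2` implies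
   `|u i - m h| ≤ δ/2 + h/2 = δ'/2`, so `ρ (u i - m h) = 1`, and `SS ρ (t') ≥ Σ_{|u i - x| ≤ δ/2} w i > 1` (`tsum` comparison; summability of both sides
   from the inputs `exists_inputs RH : ∃ CR, Inputs gZ wZ FZ CR` and `Ordinates.summable_phi` because `0 ≤ ρ u ≤ D/(1+u²)²`).
 * For `T` large `Bd T ∩ Icc (T/R) (R T) ⊆ ⋃_{|m| ≤ M} ((B T ∩ Icc (T/(2R)) (2 R T)) + 2π m h/L)`, and by translation invariance of `volume`
   `c T ≤ (2M+1) volume.real (B T ∩ Icc (T/(2R)) (2RT))`.  Now `small_of_measure` (H24/GP/Pe) with `ψ = ρ`, `μ`, `b`, `2R`, `c/(2M+1)`.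
-/

open MeasureTheory Set Filter Topology
open scoped Real Interval ContDiff

namespace Pool.Agent.H98.HF

open Pool.Agent Pool.Agent.H6 Pool.Agent.H98.GP

/-- the trapezoid: `1` for `|x| ≤ μ/2 - h/2`, `0` for `|x| ≥ μ/2` -/
private noncomputable def Hd_rho (μ h x : ℝ) : ℝ := max 0 (min 1 ((μ / 2 - |x|) / (h / 2)))

private lemma Hd_cont (μ h : ℝ) : Continuous (Hd_rho μ h) := by
  unfold Hd_rho
  fun_prop

private lemma Hd_nonneg (μ h x : ℝ) : 0 ≤ Hd_rho μ h x := le_max_left _ _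

private lemma Hd_le_one (μ h x : ℝ) : Hd_rho μ h x ≤ 1 := max_le zero_le_one (min_le_left _ _)

private lemma Hd_zero {μ h : ℝ} (hh : 0 < h) {x : ℝ} (hx : μ / 2 ≤ |x|) : Hd_rho μ h x = 0 := by
  unfold Hd_rho
  refine max_eq_left ((min_le_right _ _).trans ?_)
  exact div_nonpos_of_nonpos_of_nonneg (by linarith) (by linarith)

private lemma Hd_one {μ h : ℝ} (hh : 0 < h) {x : ℝ} (hx : |x| ≤ μ / 2 - h / 2) : Hd_rho μ h x = 1 := by
  unfold Hd_rho
  have h1 : 1 ≤ (μ / 2 - |x|) / (h / 2) := by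
    rw [le_div_iff₀ (by linarith)]
    linarith
  rw [min_eq_left h1]
  exact max_eq_right zero_le_one

private lemma Hd_decay {μ h : ℝ} (hh : 0 < h) (x : ℝ) :
    |Hd_rho μ h x| ≤ (1 + (μ / 2) ^ 2) ^ 2 / (1 + x ^ 2) ^ 2 := by
  rw [abs_of_nonneg (Hd_nonneg μ h x)]
  rcases le_or_gt (μ / 2) |x| with h1 | h1
  · rw [Hd_zero hh h1]
    positivity
  · refine (Hd_le_one μ h x).trans ?_
    rw [one_le_div (by positivity)]
    have h2 : x ^ 2 ≤ (μ / 2) ^ 2 := by
      rw [← sq_abs x]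
      exact pow_le_pow_left₀ (abs_nonneg _) h1.le 2
    exact pow_le_pow_left₀ (by positivity) (by linarith) 2

/-- the bad set -/
private noncomputable def Hd_B (μ h T : ℝ) : Set ℝ := {t | 1 < SS gZ wZ (Hd_rho μ h) (Real.log T) t}

private noncomputable def Hd_Bd (μ h : ℝ) (M : ℕ) (T : ℝ) : Set ℝ :=
  ⋃ m ∈ Finset.Icc (-(M : ℤ)) M, (fun t : ℝ => t + -(2 * π * m * h / Real.log T)) ⁻¹' Hd_B μ h T

private lemma Hd_meas (RH : RiemannHypothesis) {μ h : ℝ} (hh : 0 < h) (M : ℕ) {T : ℝ} (hT : 0 < Real.log T) :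
    MeasurableSet (Hd_Bd μ h M T) := by
  have h1 : IsOpen (Hd_B μ h T) :=
    isOpen_lt continuous_const (Pool.Agent.H24.GP.continuous_SS' RH (Hd_cont μ h)
      (s := μ / 2) (fun x hx => Hd_zero hh hx) hT)
  have h2 : IsOpen (Hd_Bd μ h M T) := by
    refine isOpen_biUnion fun m _ => h1.preimage ?_
    exact continuous_id.add continuous_const
  exact h2.measurableSet

private lemma Hd_bad (RH : RiemannHypothesis) {δ h Q : ℝ} (hh : 0 < h) {M : ℕ} (hM : (Q + h) / h ≤ M)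
    {T : ℝ} (hT : 2 * π ≤ Real.log T) {t : ℝ} (ht : ¬ Good gZ wZ δ Q (Real.log T) t) :
    t ∈ Hd_Bd (δ + 2 * h) h M T := by
  have hpi := Real.pi_pos
  have hL : 0 < Real.log T := by linarith
  unfold Good at ht
  push Not at ht
  obtain ⟨x, hx, hx1⟩ := ht
  have hr := abs_sub_round (x / h)
  set m : ℤ := round (x / h) with hm
  have h1 : |x - m * h| ≤ h / 2 := by
    have h2 : x - m * h = (x / h - m) * h := by field_simp
    rw [h2, abs_mul, abs_of_pos hh]
    nlinarith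
  have hQ : (Q + h) / h = Q / h + 1 := by field_simp
  rw [hQ] at hM
  have hxh : |x / h| ≤ Q / h := by
    rw [abs_div, abs_of_pos hh]
    exact div_le_div_of_nonneg_right hx hh.le
  have hmM : |(m : ℝ)| ≤ M := by
    have h3 := abs_sub_abs_le_abs_sub (m : ℝ) (x / h)
    rw [abs_sub_comm (m : ℝ) (x / h)] at h3
    linarith
  have hmem : m ∈ Finset.Icc (-(M : ℤ)) M := by
    rw [Finset.mem_Icc]
    rw [abs_le] at hmM
    exact ⟨by exact_mod_cast hmM.1, by exact_mod_cast hmM.2⟩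
  unfold Hd_Bd
  rw [Set.mem_iUnion₂]
  refine ⟨m, hmem, ?_⟩
  show 1 < SS gZ wZ (Hd_rho (δ + 2 * h) h) (Real.log T) (t + -(2 * π * m * h / Real.log T))
  refine lt_of_lt_of_le hx1 ?_
  obtain ⟨CR, I⟩ := exists_inputs RH
  have hsum := (I.ord.summable_phi (C := (1 + ((δ + 2 * h) / 2) ^ 2) ^ 2) (by positivity)
    (Hd_decay hh) hT (t + -(2 * π * m * h / Real.log T))).of_abs
  have hu : ∀ g : ℝ, Real.log T * (t + -(2 * π * m * h / Real.log T) - g) / (2 * π) =
      Real.log T * (t - g) / (2 * π) - m * h := by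
    intro g
    field_simp
    ring
  have hle : ∀ i : PC.Z, (if |Real.log T * (t - gZ i) / (2 * π) - x| ≤ δ / 2 then wZ i else 0) ≤
      wZ i * Hd_rho (δ + 2 * h) h (Real.log T * (t + -(2 * π * m * h / Real.log T) - gZ i) / (2 * π)) := by
    intro i
    split_ifs with hi
    · rw [hu, Hd_one hh, mul_one]
      have h4 : Real.log T * (t - gZ i) / (2 * π) - m * h =
          (Real.log T * (t - gZ i) / (2 * π) - x) + (x - m * h) := by ring
      rw [h4]
      refine (abs_add_le _ _).trans ?_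
      linarith
    · exact mul_nonneg (wZ_nonneg i) (Hd_nonneg _ _ _)
  have hs2 : Summable (fun i : PC.Z => if |Real.log T * (t - gZ i) / (2 * π) - x| ≤ δ / 2 then wZ i else 0) := by
    refine Summable.of_nonneg_of_le (fun i => ?_) hle hsum
    split_ifs
    · exact wZ_nonneg i
    · exact le_rfl
  exact hs2.tsum_le_tsum hle hsum

private lemma Hd_cover {μ h R : ℝ} (hR : 1 ≤ R) (hh : 0 < h) (M : ℕ) {T : ℝ} (hT : 0 < T)
    (hL : 1 ≤ Real.log T) (hb : 2 * π * M * h ≤ T / (2 * R)) :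
    volume.real (Hd_Bd μ h M T ∩ Icc (T / R) (R * T)) ≤
      ((Finset.Icc (-(M : ℤ)) M).card : ℝ) * volume.real (Hd_B μ h T ∩ Icc (T / (2 * R)) (2 * R * T)) := by
  have hpi := Real.pi_pos
  have hR0 : 0 < R := by linarith
  set S : Set ℝ := Hd_B μ h T ∩ Icc (T / (2 * R)) (2 * R * T) with hS
  have hSfin : volume S ≠ ⊤ := by
    refine ne_top_of_le_ne_top ?_ (measure_mono Set.inter_subset_right)
    rw [Real.volume_Icc]
    exact ENNReal.ofReal_ne_top
  have hsub : Hd_Bd μ h M T ∩ Icc (T / R) (R * T) ⊆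
      ⋃ m ∈ Finset.Icc (-(M : ℤ)) M, (fun t : ℝ => t + -(2 * π * m * h / Real.log T)) ⁻¹' S := by
    rintro t ⟨ht1, ht2⟩
    unfold Hd_Bd at ht1
    rw [Set.mem_iUnion₂] at ht1 ⊢
    obtain ⟨m, hm, ht⟩ := ht1
    refine ⟨m, hm, ht, ?_⟩
    have hmM : |(m : ℝ)| ≤ M := by
      rw [Finset.mem_Icc] at hm
      rw [abs_le]
      exact ⟨by exact_mod_cast hm.1, by exact_mod_cast hm.2⟩
    have ha : |2 * π * m * h / Real.log T| ≤ T / (2 * R) := by
      rw [abs_div, abs_of_pos (show (0 : ℝ) < Real.log T by linarith)]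
      refine (div_le_self (abs_nonneg _) hL).trans ?_
      rw [abs_mul, abs_mul, abs_of_pos (show (0 : ℝ) < 2 * π by positivity), abs_of_pos hh]
      refine le_trans ?_ hb
      exact mul_le_mul_of_nonneg_right (mul_le_mul_of_nonneg_left hmM (by positivity)) hh.le
    rw [abs_le] at ha
    have h5 : T / R = T / (2 * R) + T / (2 * R) := by
      field_simp
      ring
    have h6 : T / (2 * R) ≤ R * T := by
      rw [div_le_iff₀ (by positivity)]
      nlinarith [mul_nonneg hT.le (show 0 ≤ 2 * R ^ 2 - 1 by nlinarith)]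
    rw [Set.mem_Icc] at ht2
    show T / (2 * R) ≤ t + -(2 * π * m * h / Real.log T) ∧ t + -(2 * π * m * h / Real.log T) ≤ 2 * R * T
    constructor
    · linarith [ht2.1, ha.2]
    · have h7 : 2 * R * T = R * T + R * T := by ring
      linarith [ht2.2, ha.1]
  have hle : volume (Hd_Bd μ h M T ∩ Icc (T / R) (R * T)) ≤
      ((Finset.Icc (-(M : ℤ)) M).card : ENNReal) * volume S := by
    refine (measure_mono hsub).trans ((measure_biUnion_finset_le _ _).trans (le_of_eq ?_))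
    rw [Finset.sum_congr rfl (fun m _ => measure_preimage_add_right volume _ S), Finset.sum_const,
      nsmul_eq_mul]
  have hfin : ((Finset.Icc (-(M : ℤ)) M).card : ENNReal) * volume S ≠ ⊤ :=
    ENNReal.mul_ne_top (ENNReal.natCast_ne_top _) hSfin
  have h8 := ENNReal.toReal_mono hfin hle
  rw [ENNReal.toReal_mul, ENNReal.toReal_natCast] at h8
  exact h8

theorem pairs_of_bad (RH : RiemannHypothesis) {δ b Q : ℝ} (hδ : 0 < δ) (hb : δ < b) (hQ : 0 < Q) :
    ∃ Bd : ℝ → Set ℝ,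
      (∀ᶠ T in atTop, MeasurableSet (Bd T) ∧ ∀ t, ¬ Good gZ wZ δ Q (Real.log T) t → t ∈ Bd T) ∧
      ((∃ R c : ℝ, 1 ≤ R ∧ 0 < c ∧ ∀ᶠ T in atTop, c * T ≤ volume.real (Bd T ∩ Icc (T / R) (R * T))) →
        ∃ c : ℝ, 0 < c ∧ ∀ᶠ T in atTop, (1 + c) * PC.norm T ≤ PC.pairCount T 0 b) := by
  have hpi := Real.pi_pos
  set h : ℝ := (b - δ) / 3 with hhd
  have hh : 0 < h := by
    rw [hhd]
    linarith
  obtain ⟨M, hM⟩ := exists_nat_ge ((Q + h) / h)
  have hlog := Real.tendsto_log_atTop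
  refine ⟨fun T => Hd_Bd (δ + 2 * h) h M T, ?_, ?_⟩
  · filter_upwards [hlog.eventually_ge_atTop (2 * π)] with T hT
    exact ⟨Hd_meas RH hh M (by linarith), fun t ht => Hd_bad RH hh hM hT ht⟩
  · rintro ⟨R, c, hR, hc, hev⟩
    have hR0 : 0 < R := by linarith
    refine Pool.Agent.H24.GP.small_of_measure RH (ψ := Hd_rho (δ + 2 * h) h) (Hd_cont _ _)
      (Hd_nonneg _ _) (Hd_le_one _ _) (μ := δ + 2 * h) (b := b) (by linarith) (by rw [hhd]; linarith)
      (fun x hx => Hd_zero hh hx.le) ?_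
    have hK : 0 < ((Finset.Icc (-(M : ℤ)) M).card : ℝ) := by
      have h1 : 0 < (Finset.Icc (-(M : ℤ)) M).card :=
        Finset.card_pos.2 ⟨0, Finset.mem_Icc.2 ⟨by omega, by omega⟩⟩
      exact_mod_cast h1
    refine ⟨2 * R, c / ((Finset.Icc (-(M : ℤ)) M).card : ℝ), by linarith, by positivity, ?_⟩
    filter_upwards [hev, hlog.eventually_ge_atTop 1, eventually_gt_atTop 0,
      eventually_ge_atTop (2 * π * M * h * (2 * R))] with T h1 h2 h3 h4
    have h5 := Hd_cover (μ := δ + 2 * h) hR hh M h3 h2 ((le_div_iff₀ (by positivity)).2 h4)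
    have h6 := h1.trans h5
    rw [div_mul_eq_mul_div, div_le_iff₀ hK, mul_comm (volume.real _)]
    exact h6

end Pool.Agent.H98.HF
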