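import Mathlib
import Pool.Agent.H98.HF.D
import Pool.Agent.H98.HF.Ha
import Pool.Agent.H98.HF.Hc
import Pool.Agent.H98.HF.Hd
import Pool.Agent.H98.GP.Mk
import Pool.Agent.H98.GP.Mn

/-!
# MP_103a5c_HF row He: from the mean value inequality to the theorem

PROOF.  `C` is the constant of `strip_near` (Ha).  Let `g t = (1 + π (‖z T t‖ + 2))^n ≥ 1`, `r t = (z T t).re - SS (win κ δ)`, and
`I : Inputs gZ wZ FZ CR` from `exists_inputs RH`.  All functions below are eventually continuous in `t` (`hz`, `hB`, `mom_SS_ph0 I`, `continuous_SS_decay`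
for `win κ δ` with `win_decay` and `continuous_win`), and `Mom` (`Mom.mul`, `Mom.pow`, `Mom.add`, `Mom.const`): so is `B * g`, `SS ph0 * (B * g)`.
Put `K1` with `EE v T (SS ph0 * B * g) ≤ K1`, `K2` with `EE v T ((B g)^2) ≤ K2` eventually (`EE_le_of_Mom` with `n = 1, 2`).
Let `ε > 0` with `π ε |K1| ≤ c₀/4`, `Q` from `SS_win_le I.ord hκ hδ hε`, `Bd` from `pairs_of_bad RH hδ hb hQ`.
Pointwise for `T` large and all `t`:
 * if `t ∉ Bd T` then `t` is good, so `0 ≤ SS win ≤ 1 + ε SS ph0`, `d := |r| + ε SS ph0` satisfies `-d ≤ z.re ≤ 1 + d`, and `strip_near` gives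
   `B Re Vn + (C/n) B ≥ -π (|r| + ε SS ph0) B g`;
 * if `t ∈ Bd T`: `B Re Vn + (C/n) B ≥ -B g` (`norm_Vn_le`, `|re| ≤ norm`).
 So `B Re Vn + (C/n) B ≥ -π |r| B g - π ε SS ph0 B g - 1_{Bd T} B g` everywhere.  Apply `EE v T` (`v ≥ 0`; integrability: all functions are continuous or
 continuous times an indicator of a measurable set, and `v (t/T)` is continuous with compact support; `EE_mono`, `EE_add` of H26/GH/E may be used
 (Pool.Agent.H26.GH.E) or direct `integral_mono`), with the hypothesis: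
 `c₀ ≤ π EE(|r| B g) + π ε K1 + EE(1_{Bd} B g)`.
 Cauchy-Schwarz: `EE(|r| B g)² ≤ EE(r²) EE((Bg)²) → 0`, so eventually `≤ (c₀/(4π))²`; hence `EE (1_{Bd} B g) ≥ c₀/2` and
 `(c₀/2)² ≤ EE(1_{Bd}) EE((B g)²) ≤ EE(1_{Bd}) K2`, so `EE(1_{Bd}) ≥ c₁ := (c₀/2)²/(|K2| + 1) > 0`.
 With `[a, b']` containing the support of `v` (`0 < a`) and `v ≤ V`: `EE(1_{Bd}) ≤ (V/T) volume.real (Bd T ∩ Icc (a T) (b' T))`; with `R = max 1 (max (1/a) b')`
 `Icc (aT) (b'T) ⊆ Icc (T/R) (RT)`, so `(c₁/(V+1)) T ≤ volume.real (Bd T ∩ Icc (T/R) (RT))` and `pairs_of_bad` gives the conclusion.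
 (Cauchy-Schwarz for `EE`: `EE_mul_sq_le` in H26/GH/E, or Pz_key of H24/GP/Pz turns `EE v T` into a finite measure.)
-/

open MeasureTheory Set Filter Topology
open scoped Real Interval ContDiff

namespace Pool.Agent.H98.HF

open Pool.Agent Pool.Agent.H6 Pool.Agent.H98.GP Pool.Agent.H14.GP

/-- The weighted mean `EE v T` as the integral for a finite measure. -/
private theorem He_key {v : ℝ → ℝ} (hv : Wgt v) : ∃ R D : ℝ, 1 ≤ R ∧ 0 < D ∧ ∀ T : ℝ, 0 < T →
    ∃ μ : Measure ℝ, IsFiniteMeasure μ ∧ (∀ f : ℝ → ℝ, ∫ t, f t ∂μ = EE v T f) ∧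
      (∀ f : ℝ → ℝ, Continuous f → Integrable f μ) ∧
      ∀ s : Set ℝ, MeasurableSet s →
        μ.real s ≤ D / T * volume.real (s ∩ Icc (T / R) (R * T)) := by
  obtain ⟨a, b, ha, hab, hsupp⟩ := hv.supp
  have hvc : Continuous v := hv.smooth.continuous
  have hcs : HasCompactSupport v := HasCompactSupport.intro (isCompact_Icc (a := a) (b := b))
    (fun x hx => hsupp x hx)
  obtain ⟨C, hC⟩ := hvc.bounded_above_of_compact_support hcs
  have hC' : ∀ x, v x ≤ |C| + 1 := by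
    intro x
    have h1 := hC x
    rw [Real.norm_eq_abs] at h1
    linarith [le_abs_self (v x), le_abs_self C]
  refine ⟨max 1 (max (1 / a) b), |C| + 1, le_max_left _ _, by positivity, fun T hT => ?_⟩
  set R := max 1 (max (1 / a) b) with hR
  have hR1 : 1 ≤ R := le_max_left _ _
  have hRa : 1 / a ≤ R := (le_max_left _ _).trans (le_max_right _ _)
  have hRb : b ≤ R := (le_max_right _ _).trans (le_max_right _ _)
  have hR0 : 0 < R := by linarith
  have hsT : ∀ t, t ∉ Icc (a * T) (b * T) → v (t / T) = 0 := by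
    intro t ht
    apply hsupp
    intro h
    apply ht
    rw [mem_Icc, le_div_iff₀ hT, div_le_iff₀ hT] at h
    exact h
  have hdc : Continuous fun t : ℝ => v (t / T) / T := (hvc.comp (continuous_id.div_const T)).div_const T
  have hd0 : ∀ t, 0 ≤ v (t / T) / T := fun t => div_nonneg (hv.nonneg _) hT.le
  have hint : ∀ g : ℝ → ℝ, Continuous g → Integrable (fun t => v (t / T) / T * g t) volume := by
    intro g hg
    apply (hdc.mul hg).integrable_of_hasCompactSupport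
    apply HasCompactSupport.intro (isCompact_Icc (a := a * T) (b := b * T))
    intro t ht
    show v (t / T) / T * g t = 0
    rw [hsT t ht, zero_div, zero_mul]
  have hdm : Measurable fun t : ℝ => ENNReal.ofReal (v (t / T) / T) :=
    hdc.measurable.ennreal_ofReal
  have hlt : ∀ᵐ t ∂(volume : Measure ℝ), ENNReal.ofReal (v (t / T) / T) < ⊤ :=
    Filter.Eventually.of_forall fun t => ENNReal.ofReal_lt_top
  refine ⟨volume.withDensity fun t => ENNReal.ofReal (v (t / T) / T), ?_, ?_, ?_, ?_⟩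
  · apply isFiniteMeasure_withDensity_ofReal
    have h1 := hint (fun _ => 1) continuous_const
    simp only [mul_one] at h1
    exact h1.hasFiniteIntegral
  · intro f
    rw [integral_withDensity_eq_integral_toReal_smul hdm hlt, EE, ← integral_const_mul]
    congr 1
    funext t
    rw [ENNReal.toReal_ofReal (hd0 t), smul_eq_mul]
    ring
  · intro f hf
    rw [integrable_withDensity_iff_integrable_smul' hdm hlt]
    refine (hint f hf).congr (Filter.Eventually.of_forall fun t => ?_)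
    simp only [ENNReal.toReal_ofReal (hd0 t), smul_eq_mul]
  · intro s hs
    have h1 : (volume.withDensity fun t => ENNReal.ofReal (v (t / T) / T)) s ≤
        ENNReal.ofReal ((|C| + 1) / T) * volume (s ∩ Icc (T / R) (R * T)) := by
      rw [withDensity_apply _ hs, inter_comm, ← Measure.restrict_apply measurableSet_Icc,
        ← lintegral_indicator_const measurableSet_Icc]
      apply lintegral_mono
      intro t
      simp only [indicator]
      split_ifs with ht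
      · apply ENNReal.ofReal_le_ofReal
        exact div_le_div_of_nonneg_right (hC' _) hT.le
      · rw [hsT t, zero_div, ENNReal.ofReal_zero]
        intro h
        apply ht
        rw [mem_Icc] at h ⊢
        have h3 : T / R ≤ a * T := by
          rw [div_le_iff₀ hR0]
          rw [div_le_iff₀ ha] at hRa
          nlinarith
        have h4 : b * T ≤ R * T := mul_le_mul_of_nonneg_right hRb hT.le
        exact ⟨h3.trans h.1, h.2.trans h4⟩
    have h2 : volume (s ∩ Icc (T / R) (R * T)) ≠ ⊤ :=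
      ne_top_of_le_ne_top (isCompact_Icc.measure_lt_top).ne (measure_mono inter_subset_right)
    have h3 := ENNReal.toReal_mono (ENNReal.mul_ne_top ENNReal.ofReal_ne_top h2) h1
    rw [ENNReal.toReal_mul, ENNReal.toReal_ofReal (by positivity)] at h3
    exact h3

private theorem He_ph0_nonneg (u : ℝ) : 0 ≤ ph0 u := by
  have h : ph0 u = 1 / (1 + u ^ 2) ^ 2 := rfl
  rw [h]
  positivity

private theorem He_SS_nonneg (L t : ℝ) : 0 ≤ SS gZ wZ ph0 L t := by
  unfold SS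
  refine tsum_nonneg fun i => mul_nonneg ?_ (He_ph0_nonneg _)
  have h := one_le_wZ i
  linarith

/-- `x y ≤ A x² + y² / (4 A)`. -/
private theorem He_amgm {A : ℝ} (hA : 0 < A) (x y : ℝ) : x * y ≤ A * x ^ 2 + 1 / (4 * A) * y ^ 2 := by
  have h1 : A * x ^ 2 + 1 / (4 * A) * y ^ 2 - x * y = A * (x - y / (2 * A)) ^ 2 := by
    field_simp
    ring
  have h2 : 0 ≤ A * (x - y / (2 * A)) ^ 2 := by positivity
  linarith

/-- The pointwise inequality. -/
private theorem He_pt {C cn BB V S P r q g N1 A a ε : ℝ} (hBB : 0 ≤ BB) (hg : 0 ≤ g) (hcn : 0 ≤ cn)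
    (hP : 0 ≤ P) (hA : 0 < A) (ha : 0 < a) (hε : 0 ≤ ε) (hr : r = q - S)
    (hN : |V| ≤ g)
    (h : (N1 = 1) ∨ (N1 = 0 ∧ ((0 ≤ S ∧ S ≤ 1 + ε * P) ∧ ∀ d : ℝ, 0 ≤ d → -d ≤ q → q ≤ 1 + d →
      -cn - π * d * g ≤ V))) (hC : C = BB * g) :
    -cn * BB - π * A * r ^ 2 - (π * (1 / (4 * A)) + 1 / (4 * a)) * |C| ^ 2 - π * ε * |P * C| ^ 1 - a * N1 ≤ BB * V := by
  have hπ : 0 < π := Real.pi_pos
  have hC0 : 0 ≤ C := by
    rw [hC]
    exact mul_nonneg hBB hg
  rw [abs_of_nonneg hC0, pow_one, abs_of_nonneg (mul_nonneg hP hC0)]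
  have e1 := He_amgm hA (|r|) C
  rw [sq_abs] at e1
  have e2 : π * (|r| * C) ≤ π * (A * r ^ 2 + 1 / (4 * A) * C ^ 2) := mul_le_mul_of_nonneg_left e1 hπ.le
  have e3 : 0 ≤ 1 / (4 * a) * C ^ 2 := by positivity
  have e4 : 0 ≤ π * (|r| * C) := by positivity
  have e5 : 0 ≤ π * ε * (P * C) := by positivity
  rcases h with h | ⟨h, ⟨hS0, hS1⟩, h2⟩
  · have e6 := He_amgm ha 1 C
    have e7 : -g ≤ V := (abs_le.1 hN).1
    have e8 : BB * (-g) ≤ BB * V := mul_le_mul_of_nonneg_left e7 hBB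
    have e9 : 0 ≤ cn * BB := mul_nonneg hcn hBB
    rw [h]
    rw [hC] at e6 e2 e4 e5 ⊢
    nlinarith
  · have hd0 : 0 ≤ |r| + ε * P := by positivity
    have e6 := h2 (|r| + ε * P) hd0 (by
      have := neg_abs_le r
      have h3 : 0 ≤ ε * P := mul_nonneg hε hP
      linarith) (by
      have := le_abs_self r
      linarith)
    have e8 : BB * (-cn - π * (|r| + ε * P) * g) ≤ BB * V := mul_le_mul_of_nonneg_left e6 hBB
    have e9 : BB * (-cn - π * (|r| + ε * P) * g) = -cn * BB - π * (|r| * C) - π * ε * (P * C) := by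
      rw [hC]
      ring
    rw [e9] at e8
    rw [h]
    nlinarith

private theorem He_int5 {μ : Measure ℝ} {f1 f2 f3 f4 f5 : ℝ → ℝ} (h1 : Integrable f1 μ) (h2 : Integrable f2 μ)
    (h3 : Integrable f3 μ) (h4 : Integrable f4 μ) (h5 : Integrable f5 μ) (c1 c2 c3 c4 c5 : ℝ) :
    Integrable (fun t => c1 * f1 t - c2 * f2 t - c3 * f3 t - c4 * f4 t - c5 * f5 t) μ ∧
    ∫ t, (c1 * f1 t - c2 * f2 t - c3 * f3 t - c4 * f4 t - c5 * f5 t) ∂μ =
      c1 * ∫ t, f1 t ∂μ - c2 * ∫ t, f2 t ∂μ - c3 * ∫ t, f3 t ∂μ - c4 * ∫ t, f4 t ∂μ - c5 * ∫ t, f5 t ∂μ := by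
  have a2 : Integrable (fun t => c1 * f1 t - c2 * f2 t) μ := (h1.const_mul c1).sub (h2.const_mul c2)
  have a3 : Integrable (fun t => c1 * f1 t - c2 * f2 t - c3 * f3 t) μ := a2.sub (h3.const_mul c3)
  have a4 : Integrable (fun t => c1 * f1 t - c2 * f2 t - c3 * f3 t - c4 * f4 t) μ := a3.sub (h4.const_mul c4)
  have a5 : Integrable (fun t => c1 * f1 t - c2 * f2 t - c3 * f3 t - c4 * f4 t - c5 * f5 t) μ :=
    a4.sub (h5.const_mul c5)
  refine ⟨a5, ?_⟩
  rw [integral_sub a4 (h5.const_mul c5), integral_sub a3 (h4.const_mul c4), integral_sub a2 (h3.const_mul c3),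
    integral_sub (h1.const_mul c1) (h2.const_mul c2), integral_const_mul, integral_const_mul, integral_const_mul,
    integral_const_mul, integral_const_mul]

/-- **The conclusion of the deterministic part.** -/
theorem half_of_EE (RH : RiemannHypothesis) : ∃ C : ℝ, 0 ≤ C ∧
    ∀ (v : ℝ → ℝ), Wgt v → ∀ (δ b : ℝ), 0 < δ → δ < b → ∀ (s : ℝ) (κ : ℝ → ℝ), Ker s κ →
    ∀ (n : ℕ), Even n → 0 < n → ∀ (B : ℝ → ℝ → ℝ), Mom B → (∀ T t, 0 ≤ B T t) →
    ∀ (z : ℝ → ℝ → ℂ), (∀ᶠ T in atTop, Continuous (z T)) → Mom (fun T t => ‖z T t‖) →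
    Tendsto (fun T => EE v T (fun t => ((z T t).re - SS gZ wZ (win κ δ) (Real.log T) t) ^ 2)) atTop (𝓝 0) →
    (∃ c₀ : ℝ, 0 < c₀ ∧ ∀ᶠ T in atTop,
      EE v T (fun t => B T t * (Vn n (z T t)).re) ≤ -(C / n) * EE v T (B T) - c₀) →
    ∃ c : ℝ, 0 < c ∧ ∀ᶠ T in atTop, (1 + c) * PC.norm T ≤ PC.pairCount T 0 b := by
  obtain ⟨C, hC0, hstrip⟩ := strip_near
  refine ⟨C, hC0, ?_⟩
  intro v hv δ b hδ hδb s κ hκ n hn hn0 B hB hB0 z hzc hz hr hc₀
  obtain ⟨c₀, hc₀, hmain⟩ := hc₀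
  obtain ⟨CR, I⟩ := exists_inputs RH
  have hπ : 0 < π := Real.pi_pos
  -- the functions `g`, `G`
  obtain ⟨g, hg⟩ : ∃ g : ℝ → ℝ → ℝ, g = fun T t => (1 + π * (‖z T t‖ + 2)) ^ n := ⟨_, rfl⟩
  have hgM : Mom g := by
    rw [hg]
    exact (((Mom.const 1).add ((hz.add (Mom.const 2)).const_mul π)).pow n)
  have hg0 : ∀ T t, 0 ≤ g T t := by
    intro T t
    rw [hg]
    have := norm_nonneg (z T t)
    positivity
  obtain ⟨G, hG⟩ : ∃ G : ℝ → ℝ → ℝ, G = fun T t => B T t * g T t := ⟨_, rfl⟩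
  have hGM : Mom G := by
    rw [hG]
    exact hB.mul hgM
  have hPM : Mom (fun T t => SS gZ wZ ph0 (Real.log T) t) := mom_SS_ph0 I
  have hPGM : Mom (fun T t => SS gZ wZ ph0 (Real.log T) t * G T t) := hPM.mul hGM
  obtain ⟨K1, hK1⟩ := EE_le_of_Mom hv hPGM 1
  obtain ⟨K2, hK2⟩ := EE_le_of_Mom hv hGM 2
  -- constants
  obtain ⟨ε, hεd⟩ : ∃ ε : ℝ, ε = c₀ / (4 * π * (|K1| + 1)) := ⟨_, rfl⟩
  have hε : 0 < ε := by
    rw [hεd]
    positivity
  have hεK : π * ε * K1 ≤ c₀ / 4 := by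
    have h1 : π * ε * K1 ≤ π * ε * (|K1| + 1) :=
      mul_le_mul_of_nonneg_left (by linarith [le_abs_self K1]) (by positivity)
    have h2 : π * ε * (|K1| + 1) = c₀ / 4 := by
      rw [hεd]
      field_simp
    linarith
  obtain ⟨A, hAd⟩ : ∃ A : ℝ, A = 2 * π * (|K2| + 1) / c₀ := ⟨_, rfl⟩
  have hA : 0 < A := by
    rw [hAd]
    positivity
  obtain ⟨a, had⟩ : ∃ a : ℝ, a = 2 * (|K2| + 1) / c₀ := ⟨_, rfl⟩
  have ha : 0 < a := by
    rw [had]
    positivity
  have hAK : (π * (1 / (4 * A)) + 1 / (4 * a)) * K2 ≤ c₀ / 4 := by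
    have h1 : (π * (1 / (4 * A)) + 1 / (4 * a)) * K2 ≤ (π * (1 / (4 * A)) + 1 / (4 * a)) * (|K2| + 1) :=
      mul_le_mul_of_nonneg_left (by linarith [le_abs_self K2]) (by positivity)
    have h2 : (π * (1 / (4 * A)) + 1 / (4 * a)) * (|K2| + 1) = c₀ / 4 := by
      rw [hAd, had]
      field_simp
      ring
    linarith
  -- the window and the bad set
  obtain ⟨Q, hQ, hgood⟩ := SS_win_le I.ord hκ hδ hε
  obtain ⟨Bd, hBd, hfin⟩ := pairs_of_bad RH hδ hδb hQ
  apply hfin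
  obtain ⟨R, D, hR, hD, hkey⟩ := He_key hv
  obtain ⟨D2, hD2, hwd⟩ := win_decay hκ hδ 2
  refine ⟨R, c₀ / (4 * a * D), hR, by positivity, ?_⟩
  have hrs : ∀ᶠ T in atTop, EE v T (fun t => ((z T t).re - SS gZ wZ (win κ δ) (Real.log T) t) ^ 2) < c₀ / (8 * π * A) := by
    have h1 : (0 : ℝ) < c₀ / (8 * π * A) := by positivity
    exact hr.eventually (gt_mem_nhds h1)
  filter_upwards [hzc, hB.cont, hGM.cont, hPGM.cont, hK1, hK2, hBd, hrs, hmain,
    Real.tendsto_log_atTop.eventually_ge_atTop (2 * π), eventually_gt_atTop (0 : ℝ)]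
    with T k1 k2 k3 k4 k5 k6 k7 k8 k9 k10 k11
  obtain ⟨μ, hμ, m1, m2, m3⟩ := hkey T k11
  obtain ⟨hmeas, hbad⟩ := k7
  have hSc : Continuous (SS gZ wZ (win κ δ) (Real.log T)) :=
    continuous_SS_decay I.ord (continuous_win hκ hδ) hD2 hwd k10
  have hVc : Continuous (fun t => (Vn n (z T t)).re) := by
    unfold Vn
    have : Continuous (z T) := k1
    fun_prop
  have hFc : Continuous (fun t => B T t * (Vn n (z T t)).re) := k2.mul hVc
  have hzre : Continuous (fun t => (z T t).re) := Complex.continuous_re.comp k1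
  have hrc : Continuous (fun t => ((z T t).re - SS gZ wZ (win κ δ) (Real.log T) t) ^ 2) := (hzre.sub hSc).pow 2
  have i1 : Integrable (fun t => B T t * (Vn n (z T t)).re) μ := m2 _ hFc
  have i2 : Integrable (B T) μ := m2 _ k2
  have i3 : Integrable (fun t => ((z T t).re - SS gZ wZ (win κ δ) (Real.log T) t) ^ 2) μ := m2 _ hrc
  have i4 : Integrable (fun t => |G T t| ^ 2) μ := m2 _ (k3.abs.pow 2)
  have i5 : Integrable (fun t => |SS gZ wZ ph0 (Real.log T) t * G T t| ^ 1) μ := m2 _ (k4.abs.pow 1)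
  have i6 : Integrable ((Bd T).indicator (fun _ => (1 : ℝ))) μ := (integrable_const (1 : ℝ)).indicator hmeas
  have hpt : ∀ t, -(C / n) * B T t - π * A * ((z T t).re - SS gZ wZ (win κ δ) (Real.log T) t) ^ 2
      - (π * (1 / (4 * A)) + 1 / (4 * a)) * |G T t| ^ 2
      - π * ε * |SS gZ wZ ph0 (Real.log T) t * G T t| ^ 1
      - a * (Bd T).indicator (fun _ => (1 : ℝ)) t ≤ B T t * (Vn n (z T t)).re := by
    intro t
    have hCn : 0 ≤ C / (n : ℝ) := div_nonneg hC0 (Nat.cast_nonneg n)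
    refine He_pt (g := g T t) (S := SS gZ wZ (win κ δ) (Real.log T) t) (q := (z T t).re) (hB0 T t) (hg0 T t)
      hCn (He_SS_nonneg _ _) hA ha hε.le rfl ?_ ?_ ?_
    · refine (Complex.abs_re_le_norm _).trans ?_
      rw [hg]
      exact norm_Vn_le hn0 (z T t)
    · by_cases ht : t ∈ Bd T
      · left
        exact indicator_of_mem ht _
      · right
        refine ⟨indicator_of_notMem ht _, ?_, ?_⟩
        · apply hgood (Real.log T) k10 t
          by_contra hcon
          exact ht (hbad t hcon)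
        · intro d hd h1 h2
          have h3 := hstrip n hn hn0 (z T t) d hd h1 h2
          rw [hg]
          exact h3
    · rw [hG]
  -- integrate
  obtain ⟨j1, j2⟩ := He_int5 i2 i3 i4 i5 i6 (-(C / n)) (π * A) (π * (1 / (4 * A)) + 1 / (4 * a)) (π * ε) a
  have hint := integral_mono j1 i1 hpt
  rw [j2, integral_indicator_const _ hmeas, smul_eq_mul, mul_one] at hint
  simp only [m1] at hint
  have h10 : π * A * EE v T (fun t => ((z T t).re - SS gZ wZ (win κ δ) (Real.log T) t) ^ 2) ≤ c₀ / 8 := by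
    have h1 : π * A * EE v T (fun t => ((z T t).re - SS gZ wZ (win κ δ) (Real.log T) t) ^ 2) ≤
        π * A * (c₀ / (8 * π * A)) := mul_le_mul_of_nonneg_left k8.le (by positivity)
    have h2 : π * A * (c₀ / (8 * π * A)) = c₀ / 8 := by
      field_simp
    linarith
  have h11 : (π * (1 / (4 * A)) + 1 / (4 * a)) * EE v T (fun t => |G T t| ^ 2) ≤ c₀ / 4 :=
    (mul_le_mul_of_nonneg_left k6 (by positivity)).trans hAK
  have h12 : π * ε * EE v T (fun t => |SS gZ wZ ph0 (Real.log T) t * G T t| ^ 1) ≤ c₀ / 4 :=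
    (mul_le_mul_of_nonneg_left k5 (by positivity)).trans hεK
  have h13 : c₀ / 4 ≤ a * μ.real (Bd T) := by linarith
  have h14 := m3 (Bd T) hmeas
  have h15 : c₀ / 4 ≤ a * (D / T * volume.real (Bd T ∩ Icc (T / R) (R * T))) :=
    h13.trans (mul_le_mul_of_nonneg_left h14 ha.le)
  have h16 : a * (D / T * volume.real (Bd T ∩ Icc (T / R) (R * T))) =
      a * D * volume.real (Bd T ∩ Icc (T / R) (R * T)) / T := by
    ring
  rw [h16, le_div_iff₀ k11] at h15
  rw [div_mul_eq_mul_div, div_le_iff₀ (by positivity)]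
  linarith

end Pool.Agent.H98.HF
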